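import Pool.Agent.LibCI7.Upper

/-!
A random set made of independent blocks with given laws.
-/

namespace Pool.Agent.LibCramer

open Finset MeasureTheory ProbabilityTheory Filter Topology

/-- A law `w` on the subsets of `S` whose inclusion probabilities of order at most `k` are
the products of the `θ`. -/
structure BLaw (S : Finset ℕ) (θ : ℕ → ℝ) (k : ℕ) (w : Finset ℕ → ℝ) : Prop where
  nonneg : ∀ T ∈ S.powerset, 0 ≤ w T
  sum : ∑ T ∈ S.powerset, w T = 1
  incl : ∀ J ⊆ S, J.card ≤ k → ∑ T ∈ S.powerset with J ⊆ T, w T = ∏ n ∈ J, θ n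

/-- the σ-algebra of all subsets -/
local instance msFinset : MeasurableSpace (Finset ℕ) := ⊤

/-- the law as a measure -/
noncomputable def flaw (S : Finset ℕ) (w : Finset ℕ → ℝ) : Measure (Finset ℕ) :=
  ∑ T ∈ S.powerset, ENNReal.ofReal (w T) • Measure.dirac T

lemma measAll (X : Set (Finset ℕ)) : MeasurableSet X := trivial

open Classical in
lemma flaw_apply (S : Finset ℕ) {w : Finset ℕ → ℝ} (hw : ∀ T ∈ S.powerset, 0 ≤ w T)
    (X : Set (Finset ℕ)) :
    flaw S w X = ENNReal.ofReal (∑ T ∈ S.powerset with T ∈ X, w T) := by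
  unfold flaw
  rw [Measure.coe_finsetSum, Finset.sum_apply, ENNReal.ofReal_sum_of_nonneg
    (fun T hT => hw T (Finset.mem_filter.1 hT).1), Finset.sum_filter]
  refine Finset.sum_congr rfl fun T _ => ?_
  rw [Measure.smul_apply, Measure.dirac_apply' _ (measAll X), smul_eq_mul]
  by_cases h : T ∈ X <;> simp [h]

lemma flaw_prob {S : Finset ℕ} {θ : ℕ → ℝ} {k : ℕ} {w : Finset ℕ → ℝ} (h : BLaw S θ k w) :
    IsProbabilityMeasure (flaw S w) := by
  classical
  constructor
  rw [flaw_apply S h.nonneg]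
  simp only [Set.mem_univ, Finset.filter_true]
  rw [h.sum]
  simp

open Classical in
lemma flaw_real {S : Finset ℕ} {θ : ℕ → ℝ} {k : ℕ} {w : Finset ℕ → ℝ} (h : BLaw S θ k w)
    (X : Set (Finset ℕ)) : (flaw S w).real X = ∑ T ∈ S.powerset with T ∈ X, w T := by
  rw [Measure.real, flaw_apply S h.nonneg, ENNReal.toReal_ofReal]
  exact Finset.sum_nonneg fun T hT => h.nonneg T (Finset.mem_filter.1 hT).1

lemma flaw_real_incl {S : Finset ℕ} {θ : ℕ → ℝ} {k : ℕ} {w : Finset ℕ → ℝ} (h : BLaw S θ k w)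
    (J : Finset ℕ) : (flaw S w).real {T | J ⊆ T} = ∑ T ∈ S.powerset with J ⊆ T, w T := by
  classical
  rw [flaw_real h]
  refine Finset.sum_congr ?_ fun _ _ => rfl
  ext T
  simp

/-- the product space -/
noncomputable def bspace (S : ℕ → Finset ℕ) (w : ℕ → Finset ℕ → ℝ) : Measure (ℕ → Finset ℕ) :=
  Measure.infinitePi fun i => flaw (S i) (w i)

section

variable {S : ℕ → Finset ℕ} {θ : ℕ → ℝ} {K : ℕ → ℕ} {w : ℕ → Finset ℕ → ℝ}

lemma bspace_prob (h : ∀ i, BLaw (S i) θ (K i) (w i)) : IsProbabilityMeasure (bspace S w) := by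
  have : ∀ i, IsProbabilityMeasure (flaw (S i) (w i)) := fun i => flaw_prob (h i)
  unfold bspace
  infer_instance

/-- cylinder probabilities -/
lemma bspace_cyl (h : ∀ i, BLaw (S i) θ (K i) (w i)) (I : Finset ℕ)
    (X : ℕ → Set (Finset ℕ)) :
    (bspace S w).real {ω | ∀ i ∈ I, ω i ∈ X i} = ∏ i ∈ I, (flaw (S i) (w i)).real (X i) := by
  have : ∀ i, IsProbabilityMeasure (flaw (S i) (w i)) := fun i => flaw_prob (h i)
  have e : {ω : ℕ → Finset ℕ | ∀ i ∈ I, ω i ∈ X i} = Set.pi (I : Set ℕ) X := by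
    ext ω
    simp [Set.mem_pi]
  rw [e, Measure.real, bspace, Measure.infinitePi_pi _ (fun i _ => measAll (X i)),
    ENNReal.toReal_prod]
  rfl

/-- the events -/
def bev (bi : ℕ → ℕ) (n : ℕ) : Set (ℕ → Finset ℕ) := {ω | n ∈ ω (bi n)}

lemma measurableSet_coord (i : ℕ) (X : Set (Finset ℕ)) :
    MeasurableSet {ω : ℕ → Finset ℕ | ω i ∈ X} :=
  (measurable_pi_apply i) (measAll X)

lemma measurableSet_bev (bi : ℕ → ℕ) (n : ℕ) : MeasurableSet (bev bi n) :=
  measurableSet_coord (bi n) {T | n ∈ T}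

open Classical in
lemma bev_real (h : ∀ i, BLaw (S i) θ (K i) (w i)) (hK : ∀ i, 1 ≤ K i) (bi : ℕ → ℕ) (n : ℕ) :
    (bspace S w).real (bev bi n) = if n ∈ S (bi n) then θ n else 0 := by
  have e : bev bi n = {ω | ∀ i ∈ ({bi n} : Finset ℕ),
      ω i ∈ (fun _ : ℕ => {T : Finset ℕ | {n} ⊆ T}) i} := by
    ext ω
    simp [bev]
  rw [e, bspace_cyl h, Finset.prod_singleton, flaw_real_incl (h _)]
  split_ifs with hn
  · have h1 := (h (bi n)).incl {n} (by simpa using hn) (by simpa using hK (bi n))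
    rw [Finset.prod_singleton] at h1
    exact h1
  · refine Finset.sum_eq_zero fun T hT => ?_
    exfalso
    obtain ⟨hT1, hT2⟩ := Finset.mem_filter.1 hT
    exact hn ((Finset.mem_powerset.1 hT1) (Finset.singleton_subset_iff.1 hT2))

/-- the product rule -/
lemma bev_indep (h : ∀ i, BLaw (S i) θ (K i) (w i)) (hK : ∀ i, 1 ≤ K i) {bi : ℕ → ℕ} {k : ℕ → ℕ}
    (hk : ∀ n, n ∈ S (bi n) → k n ≤ K (bi n)) : IndepUpTo (bev bi) (bspace S w) k := by
  classical
  have hP : IsProbabilityMeasure (bspace S w) := bspace_prob h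
  intro J hJ
  by_cases hall : ∀ n ∈ J, n ∈ S (bi n)
  · -- all elements are in the supports
    have e : (⋂ n ∈ J, bev bi n) = {ω | ∀ i ∈ J.image bi, ω i ∈
        (fun i : ℕ => {T : Finset ℕ | J.filter (fun n => bi n = i) ⊆ T}) i} := by
      ext ω
      simp only [Set.mem_iInter, bev, Set.mem_ofPred_eq, Finset.mem_image]
      constructor
      · rintro h1 i _ n hn
        obtain ⟨hn1, hn2⟩ := Finset.mem_filter.1 hn
        rw [← hn2]
        exact h1 n hn1
      · intro h1 n hn
        exact h1 (bi n) ⟨n, hn, rfl⟩ (Finset.mem_filter.2 ⟨hn, rfl⟩)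
    rw [e, bspace_cyl h]
    have e2 : ∀ i ∈ J.image bi, (flaw (S i) (w i)).real
        {T : Finset ℕ | J.filter (fun n => bi n = i) ⊆ T} =
        ∏ n ∈ J.filter (fun n => bi n = i), (bspace S w).real (bev bi n) := by
      intro i hi
      obtain ⟨n0, hn0, rfl⟩ := Finset.mem_image.1 hi
      rw [flaw_real_incl (h _)]
      have hsub : J.filter (fun n => bi n = bi n0) ⊆ S (bi n0) := by
        intro n hn
        obtain ⟨hn1, hn2⟩ := Finset.mem_filter.1 hn
        rw [← hn2]
        exact hall n hn1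
      have hcard : (J.filter (fun n => bi n = bi n0)).card ≤ K (bi n0) :=
        (Finset.card_le_card (Finset.filter_subset _ _)).trans
          ((hJ n0 hn0).trans (hk n0 (hall n0 hn0)))
      rw [(h _).incl _ hsub hcard]
      refine Finset.prod_congr rfl fun n hn => ?_
      rw [bev_real h hK, if_pos (hall n (Finset.mem_filter.1 hn).1)]
    rw [Finset.prod_congr rfl e2]
    exact Finset.prod_fiberwise_of_maps_to (g := bi) (fun n hn => Finset.mem_image_of_mem bi hn) _
  · push Not at hall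
    obtain ⟨n, hn, hn2⟩ := hall
    have h0 : (bspace S w).real (bev bi n) = 0 := by rw [bev_real h hK, if_neg hn2]
    rw [Finset.prod_eq_zero hn h0]
    refine le_antisymm ?_ measureReal_nonneg
    rw [← h0]
    exact measureReal_mono (Set.biInter_subset_of_mem hn)

/-- independence of the blocks -/
lemma coord_indep (h : ∀ i, BLaw (S i) θ (K i) (w i)) (f : ℕ → ℕ) (hf : Function.Injective f)
    (X : ℕ → Set (Finset ℕ)) : iIndepSet (fun i => {ω : ℕ → Finset ℕ | ω (f i) ∈ X i})
      (bspace S w) := by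
  classical
  have hP : IsProbabilityMeasure (bspace S w) := bspace_prob h
  rw [iIndepSet_iff_meas_biInter (fun i => measurableSet_coord _ _)]
  intro I
  have e1 : ∀ i, (bspace S w) {ω : ℕ → Finset ℕ | ω (f i) ∈ X i} =
      ENNReal.ofReal ((flaw (S (f i)) (w (f i))).real (X i)) := by
    intro i
    have := bspace_cyl h {f i} (fun _ => X i)
    rw [Finset.prod_singleton] at this
    rw [← this, Measure.real, ENNReal.ofReal_toReal (measure_ne_top _ _)]
    congr 1
    ext ω
    simp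
  have e2 : (⋂ i ∈ I, {ω : ℕ → Finset ℕ | ω (f i) ∈ X i}) =
      {ω | ∀ j ∈ I.image f, ω j ∈ (fun j => {T | ∀ i, f i = j → T ∈ X i}) j} := by
    ext ω
    simp only [Set.mem_iInter, Set.mem_ofPred_eq, Finset.mem_image]
    constructor
    · rintro h1 j ⟨i, hi, rfl⟩ i' hi'
      rw [hf hi'] 
      exact h1 i hi
    · intro h1 i hi
      exact h1 (f i) ⟨i, hi, rfl⟩ i rfl
  have e3 := bspace_cyl h (I.image f) (fun j => {T | ∀ i, f i = j → T ∈ X i})
  rw [← e2, Finset.prod_image (fun a _ b _ hab => hf hab)] at e3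
  have e4 : ∀ i, (flaw (S (f i)) (w (f i))).real {T | ∀ i', f i' = f i → T ∈ X i'} =
      (flaw (S (f i)) (w (f i))).real (X i) := by
    intro i
    congr 1
    ext T
    constructor
    · intro hT
      exact hT i rfl
    · intro hT i' hi'
      rw [hf hi']
      exact hT
  rw [Finset.prod_congr rfl fun i _ => e4 i] at e3
  rw [Finset.prod_congr rfl fun i _ => e1 i, ← ENNReal.ofReal_prod_of_nonneg
    (fun i _ => measureReal_nonneg), ← e3, Measure.real, ENNReal.ofReal_toReal (measure_ne_top _ _)]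

end

end Pool.Agent.LibCramer
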