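import Pool.Agent.LibBar93.Block
import Pool.Agent.LibCI7.Space

/-!
A law on the subsets of a finite set which is empty with a prescribed additional probability and
whose inclusion probabilities of order at most `k` are those of independent events.
-/

namespace Pool.Agent.LibCramer

open Finset Pool.Agent.LibBar93
open Pool.Agent.LibCramer.LowerTail (factorial_le)

/-- interpolation weight of the node `M + i`, `0 ≤ i ≤ k` -/
noncomputable def gw (M k i : ℕ) : ℝ :=
  (-1 : ℝ) ^ i * (k.choose i : ℝ) * ((M + k).choose k : ℝ) * ((M : ℝ) / (M + i))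

theorem gw_sum (M k : ℕ) (hM : 0 < M) : ∑ i ∈ range (k + 1), gw M k i = 1 := by
  have h := alt_inv k M hM
  have e : ∀ i ∈ range (k + 1), gw M k i = (((M + k).choose k : ℝ) * M) *
      ((-1 : ℝ) ^ i * (k.choose i : ℝ) * (1 / ((M : ℝ) + i))) := by
    intro i _
    unfold gw
    ring
  rw [Finset.sum_congr rfl e, ← Finset.mul_sum, h]
  have p1 : (0 : ℝ) < ((M + k).choose k : ℝ) := by
    exact_mod_cast Nat.choose_pos (by omega)
  have p2 : (0 : ℝ) < M := by exact_mod_cast hM
  field_simp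

theorem gw_choose (M k j : ℕ) (hM : 0 < M) (hj : 1 ≤ j) (hjk : j ≤ k) :
    ∑ i ∈ range (k + 1), gw M k i * ((M + i).choose j : ℝ) = 0 := by
  obtain ⟨r, rfl⟩ : ∃ r, j = r + 1 := ⟨j - 1, by omega⟩
  obtain ⟨N, rfl⟩ : ∃ N, M = N + 1 := ⟨M - 1, by omega⟩
  have h := alt_choose k N r (by omega)
  have e : ∀ i ∈ range (k + 1), gw (N + 1) k i * ((N + 1 + i).choose (r + 1) : ℝ)
      = (((N + 1 + k).choose k : ℝ) * (N + 1) / (r + 1)) *
      ((-1 : ℝ) ^ i * (k.choose i : ℝ) * ((N + i).choose r : ℝ)) := by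
    intro i _
    have h1 : ((N + 1 + i).choose (r + 1) : ℝ) = (N + i + 1) * ((N + i).choose r : ℝ) / (r + 1) := by
      have := Nat.add_one_mul_choose_eq (N + i) r
      have h2 : ((N + i + 1 : ℕ) : ℝ) * ((N + i).choose r : ℝ)
          = ((N + i + 1).choose (r + 1) : ℝ) * ((r + 1 : ℕ) : ℝ) := by exact_mod_cast this
      have h3 : N + 1 + i = N + i + 1 := by ring
      rw [h3]
      push_cast at h2
      rw [h2]
      field_simp
    rw [h1]
    unfold gw
    push_cast
    have p : (0 : ℝ) < (N : ℝ) + 1 + i := by positivity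
    field_simp
    ring
  rw [Finset.sum_congr rfl e, ← Finset.mul_sum, h, mul_zero]

theorem gw_abs (M k i : ℕ) (hM : 0 < M) : |gw M k i| ≤ 2 ^ k * ((M + k).choose k : ℝ) := by
  unfold gw
  have h1 : ((k.choose i : ℕ) : ℝ) ≤ 2 ^ k := by
    exact_mod_cast Nat.choose_le_two_pow k i
  have hM' : (0 : ℝ) < M := by exact_mod_cast hM
  have h3 : ((M : ℝ) / (M + i)) ≤ 1 := by
    rw [div_le_one (by positivity)]
    have : (0 : ℝ) ≤ i := by positivity
    linarith
  have h4 : (0 : ℝ) ≤ ((M : ℝ) / (M + i)) := by positivity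
  rw [abs_mul, abs_mul, abs_mul, abs_pow, abs_neg, abs_one, one_pow, one_mul,
    abs_of_nonneg (by positivity : (0 : ℝ) ≤ ((k.choose i : ℕ) : ℝ)),
    abs_of_nonneg (by positivity : (0 : ℝ) ≤ (((M + k).choose k : ℕ) : ℝ)),
    abs_of_nonneg h4]
  calc ((k.choose i : ℕ) : ℝ) * (((M + k).choose k : ℕ) : ℝ) * ((M : ℝ) / (M + i))
      ≤ 2 ^ k * (((M + k).choose k : ℕ) : ℝ) * 1 := by gcongr
    _ = 2 ^ k * ((M + k).choose k : ℝ) := by rw [mul_one]

/-- the perturbation -/
noncomputable def gper (S : Finset ℕ) (M k : ℕ) (ω : Finset ℕ) : ℝ :=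
  (if ω = ∅ then 1 else 0) - ∑ i ∈ range (k + 1), if ω.card = M + i then
    gw M k i / (S.card.choose (M + i) : ℝ) else 0

theorem gper_incl (S : Finset ℕ) (M k : ℕ) (hM : 0 < M) (hS : M + k ≤ S.card) (hkM : k ≤ M)
    (J : Finset ℕ) (hJ : J ⊆ S) (hk : J.card ≤ k) :
    ∑ ω ∈ S.powerset with J ⊆ ω, gper S M k ω = 0 := by
  unfold gper
  rw [Finset.sum_sub_distrib, Finset.sum_comm]
  have hin : ∀ i ∈ range (k + 1), (∑ ω ∈ S.powerset with J ⊆ ω, (if ω.card = M + i then
      gw M k i / (S.card.choose (M + i) : ℝ) else 0))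
      = gw M k i * ((M + i).choose J.card : ℝ) / (S.card.choose J.card : ℝ) := by
    intro i hi
    rw [Finset.mem_range] at hi
    rw [← Finset.sum_filter, Finset.sum_const, nsmul_eq_mul, Finset.filter_filter]
    have e1 : (S.powerset.filter (fun ω => J ⊆ ω ∧ ω.card = M + i))
        = (S.powersetCard (M + i)).filter (fun ω => J ⊆ ω) := by
      ext ω
      simp only [Finset.mem_filter, Finset.mem_powerset, Finset.mem_powersetCard]
      tauto
    rw [e1, card_incl S J hJ _ (by omega)]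
    have hc : J.card ≤ S.card := Finset.card_le_card hJ
    have key : S.card.choose (M + i) * (M + i).choose J.card
        = S.card.choose J.card * (S.card - J.card).choose (M + i - J.card) :=
      Nat.choose_mul (by omega)
    have key' : (S.card.choose (M + i) : ℝ) * ((M + i).choose J.card : ℝ)
        = (S.card.choose J.card : ℝ) * ((S.card - J.card).choose (M + i - J.card) : ℝ) := by
      exact_mod_cast key
    have p1 : (0 : ℝ) < (S.card.choose (M + i) : ℝ) := by
      exact_mod_cast Nat.choose_pos (by omega)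
    have p2 : (0 : ℝ) < (S.card.choose J.card : ℝ) := by
      exact_mod_cast Nat.choose_pos hc
    rw [← mul_div_assoc, div_eq_div_iff p1.ne' p2.ne']
    linear_combination (-gw M k i) * key'
  rw [Finset.sum_congr rfl hin]
  rcases Nat.eq_zero_or_pos J.card with h0 | hpos
  · have hJe : J = ∅ := Finset.card_eq_zero.mp h0
    subst hJe
    have e2 : ∑ i ∈ range (k + 1), gw M k i * ((M + i).choose (∅ : Finset ℕ).card : ℝ) /
        (S.card.choose (∅ : Finset ℕ).card : ℝ) = 1 := by
      simp [gw_sum M k hM]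
    have e3 : ∑ ω ∈ S.powerset with ∅ ⊆ ω, (if ω = ∅ then (1 : ℝ) else 0) = 1 := by
      rw [Finset.sum_ite_eq' _ ∅ (fun _ => (1 : ℝ))]
      simp
    rw [e2, e3]
    ring
  · have e2 : ∑ i ∈ range (k + 1), gw M k i * ((M + i).choose J.card : ℝ) /
        (S.card.choose J.card : ℝ) = 0 := by
      rw [← Finset.sum_div, gw_choose M k J.card hM hpos hk, zero_div]
    have e3 : ∑ ω ∈ S.powerset with J ⊆ ω, (if ω = ∅ then (1 : ℝ) else 0) = 0 := by
      refine Finset.sum_eq_zero fun ω hω => ?_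
      rw [Finset.mem_filter] at hω
      rw [if_neg]
      rintro rfl
      have := Finset.card_le_card hω.2
      rw [Finset.card_empty] at this
      omega
    rw [e2, e3]
    ring

/-- the product law -/
theorem blaw_prod (S : Finset ℕ) (θ : ℕ → ℝ) (k : ℕ) (hlo : ∀ n ∈ S, 0 ≤ θ n)
    (hhi : ∀ n ∈ S, θ n ≤ 1) : BLaw S θ k (pw S θ) where
  nonneg T hT := by
    have hTS := Finset.mem_powerset.1 hT
    refine mul_nonneg (Finset.prod_nonneg fun n hn => hlo n (hTS hn)) ?_
    exact Finset.prod_nonneg fun n hn => by linarith [hhi n (Finset.mem_sdiff.1 hn).1]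
  sum := pw_sum S θ
  incl J hJ _ := pw_incl S θ J hJ

/-- The law with additional mass `δ` at the empty set. -/
theorem exists_add_law (S : Finset ℕ) (θ : ℕ → ℝ) (k M : ℕ) (τ δ : ℝ) (hτ : 0 < τ) (hδ : 0 ≤ δ)
    (hlo : ∀ n ∈ S, τ ≤ θ n) (hhi : ∀ n ∈ S, θ n ≤ 1) (hM : 0 < M) (hkM : k ≤ M)
    (hS : M + k ≤ S.card)
    (hbig : ∀ r, M ≤ r → r ≤ M + k → δ * (2 ^ k * ((M + k).choose k : ℝ)) ≤
      (∏ n ∈ S, (1 - θ n)) * ((S.card.choose r : ℝ) * τ ^ r)) :
    ∃ w : Finset ℕ → ℝ, BLaw S θ k w ∧ δ ≤ w ∅ := by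
  have hP : 0 ≤ ∏ n ∈ S, (1 - θ n) := Finset.prod_nonneg fun n hn => by linarith [hhi n hn]
  have hθ0 : ∀ n ∈ S, 0 ≤ θ n := fun n hn => hτ.le.trans (hlo n hn)
  have hinc : ∀ J ⊆ S, J.card ≤ k →
      ∑ ω ∈ S.powerset with J ⊆ ω, (pw S θ ω + δ * gper S M k ω) = ∏ n ∈ J, θ n := by
    intro J hJ hk
    rw [Finset.sum_add_distrib, ← Finset.mul_sum, pw_incl S θ J hJ,
      gper_incl S M k hM hS hkM J hJ hk, mul_zero, add_zero]
  have hempty : δ ≤ pw S θ ∅ + δ * gper S M k ∅ := by
    have e : gper S M k ∅ = 1 := by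
      unfold gper
      have : ∀ i ∈ range (k + 1), (if (∅ : Finset ℕ).card = M + i then
          gw M k i / (S.card.choose (M + i) : ℝ) else 0) = 0 := by
        intro i _
        rw [if_neg]
        simp only [Finset.card_empty]
        omega
      rw [Finset.sum_eq_zero this]
      simp
    have e' : pw S θ ∅ = ∏ n ∈ S, (1 - θ n) := by simp [pw]
    rw [e, e']
    linarith
  refine ⟨fun ω => pw S θ ω + δ * gper S M k ω, ⟨?_, ?_, hinc⟩, hempty⟩
  · intro ω hω
    rw [Finset.mem_powerset] at hω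
    have hpw : (∏ n ∈ S, (1 - θ n)) * τ ^ ω.card ≤ pw S θ ω := by
      unfold pw
      have e1 : τ ^ ω.card ≤ ∏ n ∈ ω, θ n := by
        rw [← Finset.prod_const]
        exact Finset.prod_le_prod (fun n _ => hτ.le) fun n hn => hlo n (hω hn)
      have e2 : ∏ n ∈ S, (1 - θ n) ≤ ∏ n ∈ S \ ω, (1 - θ n) := by
        rw [← Finset.prod_sdiff hω]
        have a1 : 0 ≤ ∏ n ∈ S \ ω, (1 - θ n) := Finset.prod_nonneg fun n hn => by
          linarith [hhi n (Finset.mem_sdiff.mp hn).1]
        have a2 : ∏ n ∈ ω, (1 - θ n) ≤ 1 := Finset.prod_le_one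
          (fun n hn => by linarith [hhi n (hω hn)]) (fun n hn => by linarith [hθ0 n (hω hn)])
        nlinarith
      have e3 : 0 ≤ τ ^ ω.card := by positivity
      rw [mul_comm]
      exact mul_le_mul e1 e2 hP (e3.trans e1)
    by_cases hne : ω = ∅
    · subst hne
      exact hδ.trans hempty
    · by_cases hex : ∃ i ∈ range (k + 1), ω.card = M + i
      · obtain ⟨i, hi, hci⟩ := hex
        have hik : i ≤ k := by
          rw [Finset.mem_range] at hi
          omega
        have e : gper S M k ω = -(gw M k i / (S.card.choose (M + i) : ℝ)) := by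
          unfold gper
          rw [if_neg hne, zero_sub]
          congr 1
          rw [Finset.sum_eq_single i]
          · rw [if_pos hci]
          · intro b _ hb
            rw [if_neg]
            omega
          · intro h
            exact absurd hi h
        have hchp : (0 : ℝ) < (S.card.choose (M + i) : ℝ) := by
          exact_mod_cast Nat.choose_pos (by omega)
        have h1 := hbig (M + i) (by omega) (by omega)
        have h2 : δ * gw M k i ≤ (∏ n ∈ S, (1 - θ n)) * ((S.card.choose (M + i) : ℝ) * τ ^ (M + i)) :=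
          (mul_le_mul_of_nonneg_left ((le_abs_self _).trans (gw_abs M k i hM)) hδ).trans h1
        have h3 : δ * (gw M k i / (S.card.choose (M + i) : ℝ)) ≤
            (∏ n ∈ S, (1 - θ n)) * τ ^ (M + i) := by
          rw [← mul_div_assoc, div_le_iff₀ hchp]
          linarith
        simp only [e]
        rw [hci] at hpw
        linarith
      · have e : gper S M k ω = 0 := by
          unfold gper
          rw [if_neg hne, Finset.sum_eq_zero, sub_zero]
          intro i hi
          rw [if_neg]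
          intro h
          exact hex ⟨i, hi, h⟩
        simp only [e]
        have : 0 ≤ (∏ n ∈ S, (1 - θ n)) * τ ^ ω.card := by positivity
        linarith
  · have := hinc ∅ (Finset.empty_subset _) (by simp)
    simpa using this

/-- The never empty law of `LibBar93`. -/
theorem exists_never_empty (S : Finset ℕ) (θ : ℕ → ℝ) (k : ℕ) (τ : ℝ) (hτ : 0 < τ)
    (hτ1 : τ ≤ 1 / 2)
    (hlo : ∀ n ∈ S, τ ≤ θ n) (hhi : ∀ n ∈ S, θ n ≤ 1)
    (hbig : 16 * (2 * (k : ℝ) + 1) ≤ τ * S.card) :
    ∃ w : Finset ℕ → ℝ, BLaw S θ k w ∧ w ∅ = 0 := by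
  obtain ⟨w, h1, h2, h3, h4⟩ := exists_law S θ k τ hτ hτ1 hlo hhi hbig
  exact ⟨w, ⟨h1, h3, h4⟩, h2⟩

end Pool.Agent.LibCramer
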