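import Pool.Agent.LibCI7.Lower

/-!
Cramer's law under independence of order `t log n`.
-/

namespace Pool.Agent.LibCramer

open Finset MeasureTheory ProbabilityTheory Filter Topology
open Pool.Agent.LibCramer.LowerTail (tendsto_logn factorial_le tendsto_log_add_len_div tendsto_len_div)

variable {Ω : Type*} [MeasurableSpace Ω] {μ : Measure Ω}

lemma eventually_log_two_mul {c : ℝ} (hc : 1 < c) :
    ∀ᶠ N : ℕ in atTop, Real.log (2 * (N : ℝ)) ≤ c * Real.log (N : ℝ) := by
  filter_upwards [tendsto_logn.eventually_ge_atTop (Real.log 2 / (c - 1)),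
    eventually_ge_atTop 1] with N hN hN1
  have hN0 : (0 : ℝ) < N := by exact_mod_cast hN1
  rw [Real.log_mul (by norm_num) hN0.ne']
  rw [div_le_iff₀ (by linarith)] at hN
  nlinarith

/-- sums over the windows of a stage -/
lemma window_sum_le {p : ℕ → ℝ} (hp0 : ∀ n, 0 ≤ p n) (hloc : LocDens p) {l l₁ : ℝ} (hl : 0 < l)
    (hl₁ : l < l₁) :
    ∀ᶠ N : ℕ in atTop, ∀ m : ℕ, N ≤ m → m ≤ 2 * N →
      ∑ j ∈ Finset.Ioc m (m + len l (2 * N)), p j ≤ l₁ * Real.log (N : ℝ) := by
  set l₀ := (l + l₁) / 2 with hl₀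
  have h01 : l < l₀ := by rw [hl₀]; linarith
  have h02 : l₀ < l₁ := by rw [hl₀]; linarith
  set l₂ := (l₀ + l₁) / 2 with hl₂
  have h21 : l₀ < l₂ := by rw [hl₂]; linarith
  have h22 : l₂ < l₁ := by rw [hl₂]; linarith
  have hl₀0 : 0 < l₀ := hl.trans h01
  have hl₂0 : 0 < l₂ := hl₀0.trans h21
  have e1 : ∀ᶠ m : ℕ in atTop, (∑ j ∈ win l₀ m, p j) / Real.log (m : ℝ) < l₂ :=
    (hloc.2 l₀ hl₀0).eventually (gt_mem_nhds h21)
  have e1' := eventually_forall_ge' e1
  -- constants for the logs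
  have c1 : 1 < Real.sqrt (l₀ / l) := by
    rw [show (1 : ℝ) = Real.sqrt 1 by simp]
    apply Real.sqrt_lt_sqrt zero_le_one
    rw [lt_div_iff₀ hl]
    linarith
  have c2 : 1 < l₁ / l₂ := by rw [lt_div_iff₀ hl₂0]; linarith
  filter_upwards [e1', eventually_log_two_mul c1, eventually_log_two_mul c2,
    eventually_ge_atTop 3] with N h1 h2 h3 hN3 m hm1 hm2
  have hN3' : (3 : ℝ) ≤ N := by exact_mod_cast hN3
  have hm1' : (N : ℝ) ≤ m := by exact_mod_cast hm1
  have hm2' : (m : ℝ) ≤ 2 * N := by exact_mod_cast hm2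
  have hLN : 0 < Real.log (N : ℝ) := Real.log_pos (by linarith)
  have hLm : 0 < Real.log (m : ℝ) := Real.log_pos (by linarith)
  have hLmN : Real.log (N : ℝ) ≤ Real.log (m : ℝ) := Real.log_le_log (by linarith) hm1'
  have hlen : len l (2 * N) ≤ len l₀ m := by
    unfold len
    apply Nat.floor_mono
    push_cast
    have h4 : Real.log (2 * (N : ℝ)) ^ 2 ≤ (Real.sqrt (l₀ / l) * Real.log (N : ℝ)) ^ 2 := by
      apply pow_le_pow_left₀ _ h2
      apply Real.log_nonneg
      linarith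
    rw [mul_pow, Real.sq_sqrt (by positivity)] at h4
    have h5 : l * (l₀ / l * Real.log (N : ℝ) ^ 2) = l₀ * Real.log (N : ℝ) ^ 2 := by
      field_simp
    have h6 : Real.log (N : ℝ) ^ 2 ≤ Real.log (m : ℝ) ^ 2 := pow_le_pow_left₀ hLN.le hLmN 2
    calc l * Real.log (2 * (N : ℝ)) ^ 2 ≤ l * (l₀ / l * Real.log (N : ℝ) ^ 2) := by gcongr
      _ = l₀ * Real.log (N : ℝ) ^ 2 := h5
      _ ≤ l₀ * Real.log (m : ℝ) ^ 2 := by gcongr
  have hsub : Finset.Ioc m (m + len l (2 * N)) ⊆ win l₀ m := by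
    unfold win
    exact Finset.Ioc_subset_Ioc_right (by omega)
  have h4 := h1 m hm1
  rw [div_lt_iff₀ hLm] at h4
  have h5 : Real.log (m : ℝ) ≤ l₁ / l₂ * Real.log (N : ℝ) :=
    (Real.log_le_log (by linarith) hm2').trans h3
  calc ∑ j ∈ Finset.Ioc m (m + len l (2 * N)), p j ≤ ∑ j ∈ win l₀ m, p j :=
        Finset.sum_le_sum_of_subset_of_nonneg hsub fun j _ _ => hp0 j
    _ ≤ l₂ * Real.log (m : ℝ) := h4.le
    _ ≤ l₂ * (l₁ / l₂ * Real.log (N : ℝ)) := by gcongr
    _ = l₁ * Real.log (N : ℝ) := by field_simp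

lemma prod_one_sub_ge {W : Finset ℕ} {p : ℕ → ℝ} {η : ℝ} (hη : η ≤ 1 / 2)
    (hp0 : ∀ j ∈ W, 0 ≤ p j) (hp : ∀ j ∈ W, p j ≤ η) :
    Real.exp (-((1 + 2 * η) * ∑ j ∈ W, p j)) ≤ ∏ j ∈ W, (1 - p j) := by
  rw [Finset.mul_sum, ← Finset.sum_neg_distrib, Real.exp_sum]
  refine Finset.prod_le_prod (fun j _ => (Real.exp_pos _).le) fun j hj => ?_
  have h0 := hp0 j hj
  have h1 := hp j hj
  have h2 : 0 < 1 - p j := by linarith
  rw [← Real.le_log_iff_exp_le h2]
  have h3 := Real.one_sub_inv_le_log_of_pos h2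
  have h4 : -((1 + 2 * η) * p j) ≤ 1 - (1 - p j)⁻¹ := by
    have h5 : (1 - p j)⁻¹ ≤ 1 + (1 + 2 * η) * p j := by
      rw [inv_eq_one_div, div_le_iff₀ h2]
      nlinarith [mul_nonneg h0 (sub_nonneg.2 h1), mul_nonneg h0 (sub_nonneg.2 hη)]
    linarith
  linarith

/-- In stage `N`, some window is avoided with probability close to one. -/
theorem stage [IsProbabilityMeasure μ] {E : ℕ → Set Ω} (hE : ∀ n, MeasurableSet (E n))
    {k : ℕ → ℕ} (hind : IndepUpTo E μ k) (hloc : LocDens (fun n => μ.real (E n)))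
    {t : ℝ} (hk : ∀ᶠ n : ℕ in atTop, t * Real.log (n : ℝ) ≤ k n)
    {l : ℝ} (hl0 : 0 < l) (hl1 : l < 1) (hlt : 4 * l < t) {δ : ℝ} (hδ0 : 0 < δ) (hδ1 : δ ≤ 1) :
    ∀ᶠ N : ℕ in atTop, μ.real (⋂ i ∈ Finset.range (N / len l (2 * N)),
      (Avoid E (Finset.Ioc (N + i * len l (2 * N)) (N + i * len l (2 * N) + len l (2 * N))))ᶜ) ≤
      5 * δ := by
  have hp0 : ∀ n, 0 ≤ μ.real (E n) := fun n => measureReal_nonneg
  -- parameters
  obtain ⟨l₁, hl₁, hl₁'⟩ := exists_between (lt_min hl1 (by linarith : l < t / 4))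
  have hl₁1 : l₁ < 1 := hl₁'.trans_le (min_le_left _ _)
  have hl₁t : 4 * l₁ < t := by have := hl₁'.trans_le (min_le_right _ _); linarith
  have hl₁0 : 0 < l₁ := hl0.trans hl₁
  have ht0 : 0 < t := by linarith
  obtain ⟨ε, hε0, hε1, hεt⟩ : ∃ ε : ℝ, 0 < ε ∧ ε ≤ 1 ∧ (1 + ε) * (4 * l₁) < t := by
    obtain ⟨x, hx1, hx2⟩ := exists_between ((lt_div_iff₀ (by positivity : 0 < 4 * l₁)).2
      (by linarith : 1 * (4 * l₁) < t))
    refine ⟨min 1 (x - 1), lt_min one_pos (by linarith), min_le_left _ _, ?_⟩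
    have h1 : (1 + min 1 (x - 1)) * (4 * l₁) ≤ x * (4 * l₁) := by
      apply mul_le_mul_of_nonneg_right _ (by positivity)
      have := min_le_right 1 (x - 1)
      linarith
    have h2 : x * (4 * l₁) < t := by rwa [lt_div_iff₀ (by positivity)] at hx2
    linarith
  set z : ℝ := 1 + ε / 2 with hz
  have hz1 : 1 < z := by rw [hz]; linarith
  have hlogz : (ε / 2) / (1 + ε / 2) ≤ Real.log z := by
    have h1 := Real.one_sub_inv_le_log_of_pos (by linarith : 0 < z)
    have h2 : 1 - z⁻¹ = (ε / 2) / (1 + ε / 2) := by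
      rw [hz]
      field_simp
      ring
    linarith
  set c₀ : ℝ := (ε / 2) ^ 2 / (1 + ε / 2) with hc₀
  have hc₀0 : 0 < c₀ := by positivity
  have hc₀z : c₀ ≤ (1 + ε) * Real.log z - (z - 1) := by
    have h1 : (1 + ε) * ((ε / 2) / (1 + ε / 2)) ≤ (1 + ε) * Real.log z := by gcongr
    have h2 : (1 + ε) * ((ε / 2) / (1 + ε / 2)) - (z - 1) = c₀ := by
      rw [hc₀, hz]
      field_simp
      ring
    linarith
  obtain ⟨η, hη0, hη1, hη2, hη3⟩ : ∃ η : ℝ, 0 < η ∧ η ≤ 1 / 8 ∧ 2 * η * z ≤ c₀ / 2 ∧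
      (1 + 2 * η) * l₁ < 1 := by
    obtain ⟨x, hx1, hx2⟩ := exists_between ((lt_div_iff₀ hl₁0).2 (by linarith : 1 * l₁ < 1))
    refine ⟨min (min (1 / 8) (c₀ / (4 * z))) ((x - 1) / 2), ?_, ?_, ?_, ?_⟩
    · apply lt_min (lt_min (by norm_num) (by positivity))
      linarith
    · exact (min_le_left _ _).trans (min_le_left _ _)
    · have h1 : min (min (1 / 8) (c₀ / (4 * z))) ((x - 1) / 2) ≤ c₀ / (4 * z) :=
        (min_le_left _ _).trans (min_le_right _ _)
      calc 2 * min (min (1 / 8) (c₀ / (4 * z))) ((x - 1) / 2) * z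
          ≤ 2 * (c₀ / (4 * z)) * z := by gcongr
        _ = c₀ / 2 := by field_simp; ring
    · have h1 : min (min (1 / 8) (c₀ / (4 * z))) ((x - 1) / 2) ≤ (x - 1) / 2 := min_le_right _ _
      have h2 : x * l₁ < 1 := by rwa [lt_div_iff₀ hl₁0] at hx2
      nlinarith
  have hηh : η ≤ 1 / 2 := by linarith
  -- eventual facts
  have f1 : ∀ᶠ N : ℕ in atTop, ∀ n, N ≤ n → μ.real (E n) < η :=
    eventually_forall_ge' (hloc.1.eventually (gt_mem_nhds hη0))
  have f2 := eventually_forall_ge' hk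
  have f3 := window_sum_le hp0 hloc hl0 hl₁
  have f4 : ∀ᶠ N : ℕ in atTop, 2 / (t - (1 + ε) * (4 * l₁)) ≤ Real.log (N : ℝ) :=
    tendsto_logn.eventually_ge_atTop _
  -- exponentially small quantities
  have g1 : Tendsto (fun N : ℕ => Real.exp (-(c₀ / 2 * (2 * (l₁ * Real.log (N : ℝ)))))) atTop
      (𝓝 0) := by
    apply Real.tendsto_exp_neg_atTop_nhds_zero.comp
    have : (fun N : ℕ => c₀ / 2 * (2 * (l₁ * Real.log (N : ℝ)))) =
        fun N : ℕ => (c₀ * l₁) * Real.log (N : ℝ) := by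
      funext N; ring
    rw [this]
    exact tendsto_logn.const_mul_atTop (by positivity)
  have f5 : ∀ᶠ N : ℕ in atTop, Real.exp (-(c₀ / 2 * (2 * (l₁ * Real.log (N : ℝ))))) < δ / 2 :=
    g1.eventually (gt_mem_nhds (by linarith))
  have g2 : Tendsto (fun N : ℕ => Real.exp (-(1 / 4 * (l₁ * Real.log (N : ℝ))))) atTop
      (𝓝 0) := by
    apply Real.tendsto_exp_neg_atTop_nhds_zero.comp
    have : (fun N : ℕ => 1 / 4 * (l₁ * Real.log (N : ℝ))) =
        fun N : ℕ => (1 / 4 * l₁) * Real.log (N : ℝ) := by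
      funext N; ring
    rw [this]
    exact tendsto_logn.const_mul_atTop (by positivity)
  have f6 : ∀ᶠ N : ℕ in atTop, Real.exp (-(1 / 4 * (l₁ * Real.log (N : ℝ)))) < δ / 16 :=
    g2.eventually (gt_mem_nhds (by positivity))
  -- the number of windows
  set s := (1 + 2 * η) * l₁ with hs
  have f7 : ∀ᶠ N : ℕ in atTop, (1 / δ + 1) * (l * (2 * Real.log (N : ℝ)) ^ 2) ≤
      (N : ℝ) ^ (1 - s) := by
    have h1 : (fun x : ℝ => Real.log x ^ (2 : ℝ)) =o[atTop] fun x : ℝ => x ^ (1 - s) :=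
      isLittleO_log_rpow_rpow_atTop 2 (by linarith)
    have hC : (0 : ℝ) < 1 / ((1 / δ + 1) * (l * 4)) := by positivity
    have h2 := h1.bound hC
    have h3 := tendsto_natCast_atTop_atTop (R := ℝ) |>.eventually h2
    filter_upwards [h3, eventually_ge_atTop 3] with N hN hN3
    have hN3' : (3 : ℝ) ≤ N := by exact_mod_cast hN3
    have hLN : 0 < Real.log (N : ℝ) := Real.log_pos (by linarith)
    rw [Real.norm_of_nonneg (by positivity), Real.norm_of_nonneg (by positivity),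
      Real.rpow_two] at hN
    calc (1 / δ + 1) * (l * (2 * Real.log (N : ℝ)) ^ 2)
        = ((1 / δ + 1) * (l * 4)) * Real.log (N : ℝ) ^ 2 := by ring
      _ ≤ ((1 / δ + 1) * (l * 4)) * (1 / ((1 / δ + 1) * (l * 4)) * (N : ℝ) ^ (1 - s)) := by
          gcongr
      _ = (N : ℝ) ^ (1 - s) := by field_simp
  have f8 := eventually_log_two_mul (one_lt_two)
  have f9 : ∀ᶠ N : ℕ in atTop, 1 ≤ l * Real.log (N : ℝ) ^ 2 := by
    have : Tendsto (fun N : ℕ => l * Real.log (N : ℝ) ^ 2) atTop atTop :=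
      ((tendsto_pow_atTop two_ne_zero).comp tendsto_logn).const_mul_atTop hl0
    exact this.eventually_ge_atTop 1
  filter_upwards [f1, f2, f3, f4, f5, f6, f7, f8, f9, eventually_ge_atTop 3] with
    N f1 f2 f3 f4 f5 f6 f7 f8 f9 hN3
  have hN3' : (3 : ℝ) ≤ N := by exact_mod_cast hN3
  have hN0 : (0 : ℝ) < N := by linarith
  have hLN : 0 < Real.log (N : ℝ) := Real.log_pos (by linarith)
  set L := Real.log (N : ℝ) with hL
  set b := len l (2 * N) with hb
  have hb1 : 1 ≤ b := by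
    rw [hb]
    unfold len
    rw [Nat.one_le_floor_iff]
    push_cast
    have h1 : L ≤ Real.log (2 * (N : ℝ)) := Real.log_le_log hN0 (by linarith)
    have h2 : L ^ 2 ≤ Real.log (2 * (N : ℝ)) ^ 2 := pow_le_pow_left₀ hLN.le h1 2
    exact f9.trans (mul_le_mul_of_nonneg_left h2 hl0.le)
  have hble : (b : ℝ) ≤ l * (2 * L) ^ 2 := by
    have h1 := len_le hl0.le (2 * N)
    push_cast at h1
    refine h1.trans ?_
    have h2 : Real.log (2 * (N : ℝ)) ^ 2 ≤ (2 * L) ^ 2 := by
      apply pow_le_pow_left₀ (Real.log_nonneg (by linarith)) f8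
    exact mul_le_mul_of_nonneg_left h2 hl0.le
  set R := N / b with hR
  have hRb : R * b ≤ N := Nat.div_mul_le_self N b
  set M := l₁ * L with hM
  have hM0 : 0 < M := by positivity
  set W : ℕ → Finset ℕ := fun i => Finset.Ioc (N + i * b) (N + i * b + b) with hW
  have hWN : ∀ i, ∀ j ∈ W i, N ≤ j := fun i j hj => by
    have := (Finset.mem_Ioc.1 hj).1
    omega
  have hWsum : ∀ i ∈ Finset.range R, ∑ j ∈ W i, μ.real (E j) ≤ M := by
    intro i hi
    have hi' : i < R := Finset.mem_range.1 hi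
    refine f3 (N + i * b) (by omega) ?_
    have : i * b ≤ R * b := Nat.mul_le_mul_right b hi'.le
    omega
  have hpη : ∀ i, ∀ j ∈ W i, μ.real (E j) ≤ η := fun i j hj => (f1 j (hWN i j hj)).le
  -- product rule
  have hKP : ∀ (V : Finset ℕ) (K : ℕ), (∀ j ∈ V, N ≤ j) → (K : ℝ) ≤ t * L → KProd E μ V K := by
    intro V K hV hK
    apply kprod_of_indepUpTo hind
    intro j hj
    have h1 := f2 j (hV j hj)
    have h2 : t * L ≤ t * Real.log (j : ℝ) := by
      apply mul_le_mul_of_nonneg_left _ ht0.le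
      exact Real.log_le_log hN0 (by exact_mod_cast hV j hj)
    exact_mod_cast (hK.trans h2).trans h1
  set m' := ⌈(1 + ε) * (2 * M)⌉₊ with hm'
  have hm'ge : (1 + ε) * (2 * M) ≤ m' := Nat.le_ceil _
  have hm'le : ((2 * m' : ℕ) : ℝ) ≤ t * L := by
    have h1 : (m' : ℝ) < (1 + ε) * (2 * M) + 1 := Nat.ceil_lt_add_one (by positivity)
    have h2 : 0 < t - (1 + ε) * (4 * l₁) := by linarith
    rw [div_le_iff₀ h2] at f4
    push_cast
    have h3 : (1 + ε) * (2 * M) * 2 = (1 + ε) * (4 * l₁) * L := by rw [hM]; ring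
    have h4 : 2 ≤ L * t - L * ((1 + ε) * (4 * l₁)) := by rw [← mul_sub]; exact f4
    linarith
  -- the factor
  have hfac : Real.exp ((z * (1 + 2 * η) - 1) * (2 * M)) / z ^ m' ≤ δ / 2 := by
    have hz0 : 0 < z := by linarith
    have h1 : Real.exp ((1 + ε) * (2 * M) * Real.log z) ≤ z ^ m' := by
      rw [← Real.rpow_natCast, Real.rpow_def_of_pos hz0]
      apply Real.exp_le_exp.2
      rw [mul_comm (Real.log z)]
      exact mul_le_mul_of_nonneg_right hm'ge (Real.log_nonneg hz1.le)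
    have h2 : Real.exp ((z * (1 + 2 * η) - 1) * (2 * M)) / z ^ m' ≤
        Real.exp ((z * (1 + 2 * η) - 1) * (2 * M)) /
          Real.exp ((1 + ε) * (2 * M) * Real.log z) :=
      div_le_div_of_nonneg_left (Real.exp_pos _).le (Real.exp_pos _) h1
    refine h2.trans ?_
    rw [← Real.exp_sub]
    refine le_trans ?_ f5.le
    apply Real.exp_le_exp.2
    have h3 : (z * (1 + 2 * η) - 1) - (1 + ε) * Real.log z ≤ -(c₀ / 2) := by linarith
    have h4 := mul_le_mul_of_nonneg_right h3 (by positivity : 0 ≤ 2 * M)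
    linarith
  set a : ℕ → ℝ := fun i => ∏ j ∈ W i, (1 - μ.real (E j)) with ha
  have ha0 : ∀ i, 0 < a i := fun i => Finset.prod_pos fun j hj => by
    have := hpη i j hj
    linarith
  have hage : ∀ i ∈ Finset.range R, Real.exp (-((1 + 2 * η) * M)) ≤ a i := by
    intro i hi
    refine le_trans ?_ (prod_one_sub_ge hηh (fun j _ => hp0 j) (hpη i))
    apply Real.exp_le_exp.2
    have := mul_le_mul_of_nonneg_left (hWsum i hi) (by positivity : (0:ℝ) ≤ 1 + 2 * η)
    linarith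
  -- upper bounds
  have key : ∀ {V : Finset ℕ} {x : ℝ}, 0 ≤ x → (∀ j ∈ V, N ≤ j) →
      (∑ j ∈ V, μ.real (E j) ≤ 2 * M) → (∏ j ∈ V, (1 - μ.real (E j)) ≤ x) →
      μ.real (Avoid E V) ≤ (1 + δ) * x := by
    intro V x hx hV hVs hVx
    have h1 := avoid_mul_le_prod hE (hKP V (2 * m') hV hm'le) hηh
      (fun j hj => (f1 j (hV j hj)).le) hz1.le hVs
    have h2 : μ.real (Avoid E V) * (1 - δ / 2) ≤ x := by
      refine le_trans (mul_le_mul_of_nonneg_left ?_ measureReal_nonneg) (h1.trans hVx)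
      linarith
    have h3 : 0 < 1 - δ / 2 := by linarith
    have h4 : μ.real (Avoid E V) ≤ x / (1 - δ / 2) := by rwa [le_div_iff₀ h3]
    refine h4.trans ?_
    rw [div_le_iff₀ h3]
    have h5 := mul_nonneg (mul_nonneg hx hδ0.le) (sub_nonneg.2 hδ1)
    have h6 : (1 + δ) * x * (1 - δ / 2) = x + x * δ * (1 - δ) / 2 := by ring
    linarith
  have hmeas : ∀ i, MeasurableSet (Avoid E (W i)) := fun i => measurableSet_Avoid hE _
  have u1 : ∀ i ∈ Finset.range R, μ.real (Avoid E (W i)) ≤ (1 + δ) * a i := fun i hi =>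
    key (ha0 i).le (hWN i) ((hWsum i hi).trans (by linarith)) le_rfl
  have u2 : ∀ i ∈ Finset.range R, (1 - δ) * a i ≤ μ.real (Avoid E (W i)) := by
    intro i hi
    have hK1 : ((2 * ⌊2 * M⌋₊ : ℕ) : ℝ) ≤ t * L := by
      have h1 : (⌊2 * M⌋₊ : ℝ) ≤ 2 * M := Nat.floor_le (by positivity)
      push_cast
      have h2 : 4 * M ≤ t * L := by
        have h3 := mul_le_mul_of_nonneg_right hl₁t.le hLN.le
        have h4 : 4 * M = 4 * l₁ * L := by rw [hM]; ring
        linarith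
      linarith
    have h1 := avoid_ge_prod hE hM0.le (hKP (W i) _ (hWN i) hK1) (hWsum i hi)
    have h2 : 16 * Real.exp (-(3 / 2 * M)) ≤ δ * a i := by
      have h3 : Real.exp (-(3 / 2 * M)) =
          Real.exp (-(1 / 4 * M)) * Real.exp (-(5 / 4 * M)) := by
        rw [← Real.exp_add]
        congr 1
        ring
      have h4 : Real.exp (-(5 / 4 * M)) ≤ a i := by
        refine le_trans (Real.exp_le_exp.2 ?_) (hage i hi)
        have h41 : η * M ≤ 1 / 8 * M := mul_le_mul_of_nonneg_right hη1 hM0.le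
        linarith
      rw [h3]
      have h5 : Real.exp (-(1 / 4 * M)) * Real.exp (-(5 / 4 * M)) ≤ δ / 16 * a i :=
        mul_le_mul f6.le h4 (Real.exp_pos _).le (by positivity)
      linarith
    linarith
  have u3 : ∀ i ∈ Finset.range R, ∀ j ∈ Finset.range R, i ≠ j →
      μ.real (Avoid E (W i) ∩ Avoid E (W j)) ≤ (1 + δ) * (a i * a j) := by
    intro i hi j hj hij
    have hdis : Disjoint (W i) (W j) := by
      rw [Finset.disjoint_left]
      intro y hy1 hy2
      have h1 := Finset.mem_Ioc.1 hy1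
      have h2 := Finset.mem_Ioc.1 hy2
      rcases Nat.lt_or_gt_of_ne hij with h | h
      · have h3 : (i + 1) * b ≤ j * b := Nat.mul_le_mul_right b h
        rw [add_mul, one_mul] at h3
        omega
      · have h3 : (j + 1) * b ≤ i * b := Nat.mul_le_mul_right b h
        rw [add_mul, one_mul] at h3
        omega
    have hAv : Avoid E (W i) ∩ Avoid E (W j) = Avoid E (W i ∪ W j) := by
      ext ω
      simp only [Set.mem_inter_iff, mem_Avoid, Finset.mem_union]
      constructor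
      · rintro ⟨h1, h2⟩ y (hy | hy)
        · exact h1 y hy
        · exact h2 y hy
      · intro h
        exact ⟨fun y hy => h y (Or.inl hy), fun y hy => h y (Or.inr hy)⟩
    rw [hAv]
    refine key (mul_nonneg (ha0 i).le (ha0 j).le) ?_ ?_ ?_
    · intro y hy
      rcases Finset.mem_union.1 hy with h | h
      · exact hWN i y h
      · exact hWN j y h
    · rw [Finset.sum_union hdis]
      have := hWsum i hi
      have := hWsum j hj
      linarith
    · rw [Finset.prod_union hdis]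
  -- size of the sum
  have hA : 1 / δ ≤ ∑ i ∈ Finset.range R, a i := by
    have h1 : (R : ℝ) * Real.exp (-((1 + 2 * η) * M)) ≤ ∑ i ∈ Finset.range R, a i := by
      have := Finset.card_nsmul_le_sum (Finset.range R) a _ hage
      simpa using this
    have h2 : Real.exp (-((1 + 2 * η) * M)) = (N : ℝ) ^ (-s) := by
      rw [Real.rpow_def_of_pos hN0]
      congr 1
      rw [hM, hs]
      ring
    have hb0 : (0 : ℝ) < b := by exact_mod_cast hb1
    have h3 : (N : ℝ) / b - 1 ≤ R := by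
      have h4 : N < (R + 1) * b := by
        have := Nat.lt_div_mul_add (a := N) (b := b) hb1
        rw [hR]
        linarith
      have h5 : (N : ℝ) < (R + 1) * b := by exact_mod_cast h4
      have h6 : (N : ℝ) / b < R + 1 := by rwa [div_lt_iff₀ hb0]
      linarith
    have hs1 : (N : ℝ) ^ (-s) ≤ 1 := by
      apply Real.rpow_le_one_of_one_le_of_nonpos (by linarith)
      have : 0 < s := by rw [hs]; positivity
      linarith
    have hs0 : 0 < (N : ℝ) ^ (-s) := Real.rpow_pos_of_pos hN0 _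
    have h7 : (N : ℝ) ^ (1 - s) / b - 1 ≤ (R : ℝ) * (N : ℝ) ^ (-s) := by
      have h8 : (N : ℝ) ^ (1 - s) = N * (N : ℝ) ^ (-s) := by
        rw [show (1 - s : ℝ) = 1 + -s by ring, Real.rpow_add hN0, Real.rpow_one]
      have h9 := mul_le_mul_of_nonneg_right h3 hs0.le
      rw [h8]
      have h10 : (N : ℝ) * (N : ℝ) ^ (-s) / b = (N : ℝ) / b * (N : ℝ) ^ (-s) := by ring
      rw [h10]
      rw [sub_mul, one_mul] at h9
      linarith
    have h11 : 1 / δ + 1 ≤ (N : ℝ) ^ (1 - s) / b := by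
      rw [le_div_iff₀ hb0]
      refine le_trans ?_ f7
      gcongr
    rw [h2] at h1
    linarith
  have hApos : 0 < ∑ i ∈ Finset.range R, a i := lt_of_lt_of_le (by positivity) hA
  have hfinal := second_moment (F := fun i => Avoid E (W i)) hmeas (δ := δ) (R := R) (a := a)
    (fun i _ => (ha0 i).le) u2 u1 u3 hδ0.le hApos
  refine hfinal.trans ?_
  have h12 : (1 + δ) / (∑ i ∈ Finset.range R, a i) ≤ 2 * δ := by
    rw [div_le_iff₀ hApos]
    have h13 : 1 ≤ δ * ∑ i ∈ Finset.range R, a i := by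
      rw [div_le_iff₀ hδ0] at hA
      linarith
    have h14 : 0 ≤ (1 - δ) * (δ * ∑ i ∈ Finset.range R, a i) := by
      apply mul_nonneg (by linarith)
      linarith
    have h15 : 2 * δ * (∑ i ∈ Finset.range R, a i) = 2 * (δ * ∑ i ∈ Finset.range R, a i) := by ring
    linarith
  linarith

end Pool.Agent.LibCramer
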