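import Pool.Agent.LibCI7.Add
import Pool.Agent.LibCI7.Stage

/-!
The law of a big block: numerical conditions.
-/

namespace Pool.Agent.LibCramer

open Finset Pool.Agent.LibBar93
open Pool.Agent.LibCramer.LowerTail (factorial_le)

lemma choose_le_exp (n k : ℕ) {x : ℝ} (hx : 0 < x) :
    (n.choose k : ℝ) ≤ Real.exp (x * n) / x ^ k := by
  rw [le_div_iff₀ (by positivity)]
  have h1 : (n.choose k : ℝ) * x ^ k ≤ (1 + x) ^ n := by
    rcases le_or_gt k n with hkn | hkn
    · rw [add_comm, add_pow]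
      have h2 := Finset.single_le_sum (f := fun m => x ^ m * 1 ^ (n - m) * (n.choose m : ℝ))
        (fun m _ => by positivity) (Finset.mem_range.2 (Nat.lt_succ_of_le hkn))
      simp only [one_pow, mul_one] at h2 ⊢
      linarith
    · rw [Nat.choose_eq_zero_of_lt hkn]
      simp only [Nat.cast_zero, zero_mul]
      positivity
  refine h1.trans ?_
  have h3 : (1 + x) ^ n ≤ Real.exp x ^ n := by
    apply pow_le_pow_left₀ (by positivity)
    have := Real.add_one_le_exp x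
    linarith
  rw [← Real.exp_nat_mul] at h3
  rwa [mul_comm]

theorem exists_big_law (S : Finset ℕ) (θ : ℕ → ℝ) (k : ℕ) {τ ε x δ : ℝ} (hτ : 0 < τ)
    (hlo : ∀ n ∈ S, τ ≤ θ n) (hhi : ∀ n ∈ S, θ n ≤ (1 + ε) * τ) (hε : ∀ n ∈ S, θ n ≤ ε)
    (hτε : τ ≤ ε) (hε4 : ε ≤ 1 / 4) (hk : 2 * k + 2 ≤ ⌊τ * S.card⌋₊) (hx : 0 < x) (hδ : 0 < δ)
    (hmain : (x + 6 * ε) * (τ * S.card) + k * (Real.log 2 + 1 - Real.log x) + 3 +
      Real.log (τ * S.card) ≤ -Real.log δ) :
    ∃ w : Finset ℕ → ℝ, BLaw S θ k w ∧ δ ≤ w ∅ := by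
  set ν : ℝ := τ * S.card with hν
  set n := ⌊ν⌋₊ with hn
  have hε0 : 0 < ε := hτ.trans_le hτε
  have hν0 : 0 < ν := by
    by_contra h
    have : n = 0 := Nat.floor_of_nonpos (not_lt.1 h)
    omega
  have hnν : (n : ℝ) ≤ ν := Nat.floor_le hν0.le
  have hνn : ν < n + 1 := Nat.lt_floor_add_one ν
  have hn2 : (2 : ℝ) ≤ n := by
    have : 2 ≤ n := by omega
    exact_mod_cast this
  have hνS : ν ≤ S.card := by
    rw [hν]
    have : (0 : ℝ) ≤ S.card := Nat.cast_nonneg _
    nlinarith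
  have hnS : n ≤ S.card := by
    have : (n : ℝ) ≤ S.card := hnν.trans hνS
    exact_mod_cast this
  set M := n - k with hM
  have hMk : M + k = n := by omega
  refine exists_add_law S θ k M τ δ hτ hδ.le hlo (fun m hm => (hε m hm).trans (by linarith))
    (by omega) (by omega) (by omega) ?_
  intro r hr1 hr2
  rw [hMk] at hr2 ⊢
  have hr0 : 0 < r := by omega
  have hr0' : (0 : ℝ) < r := by exact_mod_cast hr0
  have hrn : (r : ℝ) ≤ n := by exact_mod_cast hr2
  have hrν : (r : ℝ) ≤ ν := hrn.trans hnν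
  -- left side
  have hL : δ * (2 ^ k * (n.choose k : ℝ)) ≤
      Real.exp (Real.log δ + k * Real.log 2 + x * ν - k * Real.log x) := by
    have h1 := choose_le_exp n k hx
    have h2 : Real.exp (x * n) / x ^ k ≤ Real.exp (x * ν - k * Real.log x) := by
      rw [Real.exp_sub, mul_comm (k : ℝ), ← Real.rpow_def_of_pos hx, Real.rpow_natCast]
      gcongr
    have h3 : Real.exp (Real.log δ + k * Real.log 2 + x * ν - k * Real.log x) =
        δ * (2 ^ k * Real.exp (x * ν - k * Real.log x)) := by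
      rw [show Real.log δ + k * Real.log 2 + x * ν - k * Real.log x =
        Real.log δ + (Real.log 2 * k + (x * ν - k * Real.log x)) by ring, Real.exp_add,
        Real.exp_log hδ, Real.exp_add, ← Real.rpow_def_of_pos two_pos, Real.rpow_natCast]
    rw [h3]
    gcongr
    exact h1.trans h2
  -- right side
  have hfac := factorial_le r (by omega)
  have hrf : (0 : ℝ) < (r.factorial : ℝ) := by exact_mod_cast Nat.factorial_pos r
  have hch : ((r : ℝ) * (1 - τ)) ^ r / (r.factorial : ℝ) ≤ (S.card.choose r : ℝ) * τ ^ r := by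
    have h1 : ((S.card + 1 - r : ℕ) : ℝ) ^ r ≤ (r.factorial : ℝ) * (S.card.choose r : ℝ) := by
      have := Nat.pow_le_choose (α := ℝ) r S.card
      first
        | (rw [div_le_iff₀ hrf] at this; linarith)
        | linarith
    have h2 : (S.card : ℝ) - r ≤ ((S.card + 1 - r : ℕ) : ℝ) := by
      rw [Nat.cast_sub (by omega)]
      push_cast
      linarith
    have h3 : (r : ℝ) * (1 - τ) ≤ ((S.card + 1 - r : ℕ) : ℝ) * τ := by
      have h4 : ((S.card : ℝ) - r) * τ ≤ ((S.card + 1 - r : ℕ) : ℝ) * τ :=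
        mul_le_mul_of_nonneg_right h2 hτ.le
      have h5 : (S.card : ℝ) * τ = ν := by rw [hν, mul_comm]
      nlinarith
    have h6 : ((r : ℝ) * (1 - τ)) ^ r ≤ (((S.card + 1 - r : ℕ) : ℝ) * τ) ^ r := by
      apply pow_le_pow_left₀ _ h3
      apply mul_nonneg hr0'.le
      linarith
    rw [div_le_iff₀ hrf]
    calc ((r : ℝ) * (1 - τ)) ^ r ≤ (((S.card + 1 - r : ℕ) : ℝ) * τ) ^ r := h6
      _ = ((S.card + 1 - r : ℕ) : ℝ) ^ r * τ ^ r := by rw [mul_pow]
      _ ≤ ((r.factorial : ℝ) * (S.card.choose r : ℝ)) * τ ^ r := by gcongr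
      _ = (S.card.choose r : ℝ) * τ ^ r * (r.factorial : ℝ) := by ring
  have hlog1 : -(2 * τ) ≤ Real.log (1 - τ) := by
    have h1 : 0 < 1 - τ := by linarith
    have h2 := Real.one_sub_inv_le_log_of_pos h1
    have h3 : (1 - τ)⁻¹ ≤ 1 + 2 * τ := by
      rw [inv_eq_one_div, div_le_iff₀ h1]
      nlinarith
    linarith
  have hR1 : Real.exp (r - 2 * τ * ν - Real.log ν - 1) ≤
      ((r : ℝ) * (1 - τ)) ^ r / (r.factorial : ℝ) := by
    have h1τ : 0 < 1 - τ := by linarith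
    rw [← Real.le_log_iff_exp_le (by positivity), Real.log_div (by positivity) (by positivity),
      Real.log_pow, Real.log_mul hr0'.ne' h1τ.ne']
    have h1 : Real.log (r : ℝ) ≤ Real.log ν := Real.log_le_log hr0' hrν
    have h2 : -(2 * τ * ν) ≤ r * Real.log (1 - τ) := by
      have h3 : (r : ℝ) * -(2 * τ) ≤ r * Real.log (1 - τ) :=
        mul_le_mul_of_nonneg_left hlog1 hr0'.le
      have h4 : ν * -(2 * τ) ≤ r * -(2 * τ) := by nlinarith
      linarith
    linarith
  have hR2 : Real.exp (-((1 + 4 * ε) * ν)) ≤ ∏ m ∈ S, (1 - θ m) := by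
    have h1 := prod_one_sub_ge (W := S) (p := θ) (η := ε) (by linarith)
      (fun m hm => hτ.le.trans (hlo m hm)) hε
    refine le_trans (Real.exp_le_exp.2 ?_) h1
    have h2 : ∑ m ∈ S, θ m ≤ (1 + ε) * ν := by
      calc ∑ m ∈ S, θ m ≤ ∑ _m ∈ S, (1 + ε) * τ := Finset.sum_le_sum hhi
        _ = (1 + ε) * ν := by rw [Finset.sum_const, nsmul_eq_mul, hν]; ring
    have h3 : (1 + 2 * ε) * ∑ m ∈ S, θ m ≤ (1 + 2 * ε) * ((1 + ε) * ν) := by gcongr
    have h4 : (1 + 2 * ε) * ((1 + ε) * ν) ≤ (1 + 4 * ε) * ν := by nlinarith [mul_pos hε0 hν0]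
    linarith
  have hR : Real.exp (-((1 + 4 * ε) * ν)) * Real.exp (r - 2 * τ * ν - Real.log ν - 1) ≤
      (∏ m ∈ S, (1 - θ m)) * ((S.card.choose r : ℝ) * τ ^ r) :=
    mul_le_mul hR2 (hR1.trans hch) (Real.exp_pos _).le ((Real.exp_pos _).le.trans hR2)
  refine hL.trans (le_trans ?_ hR)
  rw [← Real.exp_add]
  apply Real.exp_le_exp.2
  have hrge : ν - k - 1 ≤ r := by
    have h1 : (n : ℝ) - k ≤ r := by
      have : n ≤ r + k := by omega
      have : (n : ℝ) ≤ r + k := by exact_mod_cast this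
      linarith
    linarith
  have hτν : 2 * τ * ν ≤ 2 * ε * ν := by nlinarith
  nlinarith

end Pool.Agent.LibCramer
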