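import Pool.Agent.LibCI7.DensW

/-!
Almost sure tuple asymptotics from independence of order tending to infinity.
-/

namespace Pool.Agent.LibCramer

open Finset Filter Topology MeasureTheory ProbabilityTheory Pool.Agent.LibBar93
open scoped ENNReal

variable {Ω : Type*} [MeasurableSpace Ω] {μ : Measure Ω}

/-- the event `n + H ⊆ B` -/
def tev (E : ℕ → Set Ω) (H : Finset ℕ) (n : ℕ) : Set Ω := ⋂ j ∈ H.image (n + ·), E j

omit [MeasurableSpace Ω] in
lemma mem_tev {E : ℕ → Set Ω} {H : Finset ℕ} {n : ℕ} {ω : Ω} :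
    ω ∈ tev E H n ↔ ∀ h ∈ H, n + h ∈ {m | ω ∈ E m} := by
  simp [tev]

lemma meas_tev {E : ℕ → Set Ω} (hE : ∀ n, MeasurableSet (E n)) (H : Finset ℕ) (n : ℕ) :
    MeasurableSet (tev E H n) := Finset.measurableSet_biInter _ fun j _ => hE j

/-- overlaps -/
def ovl (H : Finset ℕ) (n m : ℕ) : Prop := ¬ Disjoint (H.image (n + ·)) (H.image (m + ·))

lemma card_ovl (H s : Finset ℕ) (n : ℕ) :
    open Classical in (s.filter (fun m => ovl H n m)).card ≤ H.card ^ 2 := by
  classical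
  have h1 : s.filter (fun m => ovl H n m) ⊆ (H ×ˢ H).image (fun q => n + q.1 - q.2) := by
    intro m hm
    have h2 := (Finset.mem_filter.1 hm).2
    unfold ovl at h2
    rw [Finset.not_disjoint_iff] at h2
    obtain ⟨y, hy1, hy2⟩ := h2
    obtain ⟨a, ha, rfl⟩ := Finset.mem_image.1 hy1
    obtain ⟨b, hb, hab⟩ := Finset.mem_image.1 hy2
    refine Finset.mem_image.2 ⟨(a, b), Finset.mem_product.2 ⟨ha, hb⟩, ?_⟩
    simp only at hab ⊢
    omega
  refine (Finset.card_le_card h1).trans (Finset.card_image_le.trans ?_)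
  rw [Finset.card_product, sq]

/-- the variance bound -/
lemma tev_variance [IsProbabilityMeasure μ] {E : ℕ → Set Ω} (hE : ∀ n, MeasurableSet (E n))
    {k : ℕ → ℕ} (hind : IndepUpTo E μ k) (H s : Finset ℕ) (hs : ∀ n ∈ s, ∀ m, n ≤ m →
      2 * H.card ≤ k m) :
    ∫ ω, (∑ n ∈ s, ((tev E H n).indicator (fun _ => (1 : ℝ)) ω - μ.real (tev E H n))) ^ 2 ∂μ ≤
      (H.card : ℝ) ^ 2 * s.card := by
  classical
  set χ : ℕ → Ω → ℝ := fun n ω => (tev E H n).indicator (fun _ => (1 : ℝ)) ω with hχ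
  set P : ℕ → ℝ := fun n => μ.real (tev E H n) with hP
  have hχint : ∀ i, Integrable (χ i) μ := fun i => (integrable_const (1 : ℝ)).indicator (meas_tev hE H i)
  have hχ1 : ∀ i, ∫ ω, χ i ω ∂μ = P i := fun i => by
    simp only [hχ]
    rw [integral_indicator_const _ (meas_tev hE H i)]
    simp [hP]
  have hχχ : ∀ i j, (fun ω => χ i ω * χ j ω) =
      (tev E H i ∩ tev E H j).indicator (fun _ => (1 : ℝ)) := by
    intro i j
    funext ω
    by_cases hi : ω ∈ tev E H i <;> by_cases hj : ω ∈ tev E H j <;> simp [hχ, hi, hj]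
  have hχχint : ∀ i j, Integrable (fun ω => χ i ω * χ j ω) μ := fun i j => by
    rw [hχχ]
    exact (integrable_const (1 : ℝ)).indicator ((meas_tev hE H i).inter (meas_tev hE H j))
  have hχχ1 : ∀ i j, ∫ ω, χ i ω * χ j ω ∂μ = μ.real (tev E H i ∩ tev E H j) := fun i j => by
    rw [hχχ, integral_indicator_const _ ((meas_tev hE H i).inter (meas_tev hE H j))]
    simp
  have hexp : ∀ ω, (∑ n ∈ s, (χ n ω - P n)) ^ 2 = ∑ n ∈ s, ∑ m ∈ s,
      (χ n ω * χ m ω - P m * χ n ω - P n * χ m ω + P n * P m) := by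
    intro ω
    rw [sq, Finset.sum_mul_sum]
    refine Finset.sum_congr rfl fun n _ => Finset.sum_congr rfl fun m _ => ?_
    ring
  have hterm : ∀ n m, Integrable
      (fun ω => χ n ω * χ m ω - P m * χ n ω - P n * χ m ω + P n * P m) μ := fun n m =>
    (((hχχint n m).sub ((hχint n).const_mul _)).sub ((hχint m).const_mul _)).add
      (integrable_const _)
  have hval : ∀ n m, ∫ ω, (χ n ω * χ m ω - P m * χ n ω - P n * χ m ω + P n * P m) ∂μ =
      μ.real (tev E H n ∩ tev E H m) - P n * P m := by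
    intro n m
    have i1 : Integrable (fun ω => χ n ω * χ m ω - P m * χ n ω) μ :=
      (hχχint n m).sub ((hχint n).const_mul _)
    have i2 : Integrable (fun ω => χ n ω * χ m ω - P m * χ n ω - P n * χ m ω) μ :=
      i1.sub ((hχint m).const_mul _)
    rw [integral_add i2 (integrable_const _), integral_sub i1 ((hχint m).const_mul _),
      integral_sub (hχχint n m) ((hχint n).const_mul _), integral_const_mul, integral_const_mul,
      hχ1, hχ1, hχχ1]
    simp
    ring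
  have hcov : ∀ n ∈ s, ∀ m ∈ s, μ.real (tev E H n ∩ tev E H m) - P n * P m ≤
      if ovl H n m then 1 else 0 := by
    intro n hn m hm
    by_cases ho : ovl H n m
    · rw [if_pos ho]
      have h1 : μ.real (tev E H n ∩ tev E H m) ≤ 1 := measureReal_le_one
      have h2 : 0 ≤ P n * P m := mul_nonneg measureReal_nonneg measureReal_nonneg
      linarith
    · rw [if_neg ho]
      have hd : Disjoint (H.image (n + ·)) (H.image (m + ·)) := by
        unfold ovl at ho
        exact not_not.1 ho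
      have e1 : tev E H n ∩ tev E H m = ⋂ j ∈ H.image (n + ·) ∪ H.image (m + ·), E j := by
        ext ω
        simp only [tev, Set.mem_inter_iff, Set.mem_iInter, Finset.mem_union]
        constructor
        · rintro ⟨h1, h2⟩ j (hj | hj)
          · exact h1 j hj
          · exact h2 j hj
        · intro h
          exact ⟨fun j hj => h j (Or.inl hj), fun j hj => h j (Or.inr hj)⟩
      have hk : ∀ x ∈ s, ∀ j ∈ H.image (x + ·), 2 * H.card ≤ k j := by
        intro x hx j hj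
        obtain ⟨y, _, rfl⟩ := Finset.mem_image.1 hj
        exact hs x hx _ (Nat.le_add_right _ _)
      have hc1 : (H.image (n + ·)).card ≤ H.card := Finset.card_image_le
      have hc2 : (H.image (m + ·)).card ≤ H.card := Finset.card_image_le
      have hc : (H.image (n + ·) ∪ H.image (m + ·)).card ≤ 2 * H.card :=
        (Finset.card_union_le _ _).trans (by omega)
      have e2 := hind (H.image (n + ·) ∪ H.image (m + ·)) (fun j hj => by
        rcases Finset.mem_union.1 hj with h | h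
        · exact hc.trans (hk n hn j h)
        · exact hc.trans (hk m hm j h))
      have e3 := hind (H.image (n + ·)) (fun j hj => by
        have := hk n hn j hj
        omega)
      have e4 := hind (H.image (m + ·)) (fun j hj => by
        have := hk m hm j hj
        omega)
      rw [e1, e2, Finset.prod_union hd, ← e3, ← e4]
      simp [hP, tev]
  change ∫ ω, (∑ n ∈ s, (χ n ω - P n)) ^ 2 ∂μ ≤ _
  simp_rw [hexp]
  rw [integral_finsetSum _ fun n _ => integrable_finsetSum _ fun m _ => hterm n m]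
  have hsum : ∀ n ∈ s, ∫ ω, ∑ m ∈ s,
      (χ n ω * χ m ω - P m * χ n ω - P n * χ m ω + P n * P m) ∂μ ≤ (H.card : ℝ) ^ 2 := by
    intro n hn
    rw [integral_finsetSum _ fun m _ => hterm n m]
    calc ∑ m ∈ s, ∫ ω, (χ n ω * χ m ω - P m * χ n ω - P n * χ m ω + P n * P m) ∂μ
        ≤ ∑ m ∈ s, (if ovl H n m then (1 : ℝ) else 0) :=
          Finset.sum_le_sum fun m hm => by rw [hval]; exact hcov n hn m hm
      _ = ((s.filter (fun m => ovl H n m)).card : ℝ) := by
          rw [Finset.sum_ite, Finset.sum_const_zero, add_zero, Finset.sum_const, nsmul_eq_mul,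
            mul_one]
      _ ≤ (H.card : ℝ) ^ 2 := by exact_mod_cast card_ovl H s n
  calc ∑ n ∈ s, ∫ ω, ∑ m ∈ s,
      (χ n ω * χ m ω - P m * χ n ω - P n * χ m ω + P n * P m) ∂μ
      ≤ ∑ _n ∈ s, (H.card : ℝ) ^ 2 := Finset.sum_le_sum hsum
    _ = (H.card : ℝ) ^ 2 * s.card := by rw [Finset.sum_const, nsmul_eq_mul]; ring

open Classical in
/-- **Almost sure tuple counts.** -/
theorem ae_tuples [IsProbabilityMeasure μ] {E : ℕ → Set Ω} (hE : ∀ n, MeasurableSet (E n))
    {k : ℕ → ℕ} (hind : IndepUpTo E μ k) (hk : Tendsto k atTop atTop) {p : ℕ → ℝ}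
    (hp : ∀ᶠ n in atTop, μ.real (E n) = p n) :
    ∀ᵐ ω ∂μ, ∀ (H : Finset ℕ) (q a : ℕ), ∃ C : ℝ, ∀ x : ℕ, 1 ≤ x →
      |(tuples {n | ω ∈ E n} H q a x : ℝ) - mainT p H q a x| ≤ C * (x : ℝ) ^ (4 / 5 : ℝ) := by
  rw [ae_all_iff]
  intro H
  rw [ae_all_iff]
  intro q
  rw [ae_all_iff]
  intro a
  -- threshold
  obtain ⟨N, hN⟩ := eventually_atTop.1 ((hk.eventually_ge_atTop (2 * H.card)).and hp)
  set s : ℕ → Finset ℕ := fun x => (Icc 1 x).filter (fun n => n ≡ a [MOD q] ∧ N ≤ n) with hs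
  set χ : ℕ → Ω → ℝ := fun n ω => (tev E H n).indicator (fun _ => (1 : ℝ)) ω with hχ
  set P : ℕ → ℝ := fun n => μ.real (tev E H n) with hP
  have hPprod : ∀ n, N ≤ n → P n = ∏ h ∈ H, p (n + h) := by
    intro n hn
    have h1 := hind (H.image (n + ·)) (fun j hj => by
      obtain ⟨y, _, rfl⟩ := Finset.mem_image.1 hj
      have h2 := (hN (n + y) (by omega)).1
      have h3 : (H.image (n + ·)).card ≤ H.card := Finset.card_image_le
      omega)
    rw [show P n = μ.real (⋂ j ∈ H.image (n + ·), E j) from rfl, h1,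
      Finset.prod_image (fun a _ b _ hab => by simpa using hab)]
    exact Finset.prod_congr rfl fun h _ => (hN (n + h) (by omega)).2
  set Z : ℕ → Ω → ℝ := fun x ω => ∑ n ∈ s x, (χ n ω - P n) with hZ
  have hvar : ∀ x : ℕ, ∫ ω, Z x ω ^ 2 ∂μ ≤ (H.card : ℝ) ^ 2 * x := by
    intro x
    have h1 := tev_variance hE hind H (s x) (fun n hn m hm => by
      have h2 := ((Finset.mem_filter.1 hn).2).2
      exact (hN m (h2.trans hm)).1)
    refine h1.trans ?_
    have h3 : (s x).card ≤ x := by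
      calc (s x).card ≤ (Icc 1 x).card := Finset.card_filter_le _ _
        _ = x := by simp
    have h4 : ((s x).card : ℝ) ≤ x := by exact_mod_cast h3
    exact mul_le_mul_of_nonneg_left h4 (by positivity)
  have hχint : ∀ i, Integrable (χ i) μ := fun i => (integrable_const (1 : ℝ)).indicator (meas_tev hE H i)
  have hχmeas : ∀ i, Measurable (χ i) := fun i => measurable_const.indicator (meas_tev hE H i)
  have hZmeas : ∀ x, Measurable (Z x) := fun x =>
    Finset.measurable_fun_sum _ fun n _ => (hχmeas n).sub_const _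
  -- boundedness gives integrability of the squares
  have hχb : ∀ n ω, |χ n ω - P n| ≤ 1 := by
    intro n ω
    have h1 : 0 ≤ P n := measureReal_nonneg
    have h2 : P n ≤ 1 := measureReal_le_one
    by_cases h : ω ∈ tev E H n
    · have : χ n ω = 1 := by simp [hχ, h]
      rw [this, abs_le]
      constructor <;> linarith
    · have : χ n ω = 0 := by simp [hχ, h]
      rw [this, abs_le]
      constructor <;> linarith
  have hZb : ∀ x ω, |Z x ω| ≤ (s x).card := by
    intro x ω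
    calc |Z x ω| ≤ ∑ n ∈ s x, |χ n ω - P n| := Finset.abs_sum_le_sum_abs _ _
      _ ≤ ∑ _n ∈ s x, (1 : ℝ) := Finset.sum_le_sum fun n _ => hχb n ω
      _ = (s x).card := by simp
  have hZ2int : ∀ x, Integrable (fun ω => Z x ω ^ 2) μ := by
    intro x
    refine Integrable.of_bound ((hZmeas x).pow_const 2).aestronglyMeasurable (((s x).card : ℝ) ^ 2)
      (Eventually.of_forall fun ω => ?_)
    rw [Real.norm_of_nonneg (sq_nonneg _), ← sq_abs]
    exact pow_le_pow_left₀ (abs_nonneg _) (hZb x ω) 2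
  -- Markov along squares
  have hmarkov : ∀ i : ℕ, 1 ≤ i → μ.real {ω | (i : ℝ) ^ (8 / 5 : ℝ) ≤ |Z (i ^ 2) ω|} ≤
      (H.card : ℝ) ^ 2 * (i : ℝ) ^ (-(6 / 5) : ℝ) := by
    intro i hi
    have hi0 : (0 : ℝ) < i := by exact_mod_cast hi
    have h1 := mul_meas_ge_le_integral_of_nonneg (μ := μ) (f := fun ω => Z (i ^ 2) ω ^ 2)
      (Eventually.of_forall fun ω => sq_nonneg _) (hZ2int _) ((i : ℝ) ^ (16 / 5 : ℝ))
    have h2 : {ω | (i : ℝ) ^ (8 / 5 : ℝ) ≤ |Z (i ^ 2) ω|} ⊆
        {ω | (i : ℝ) ^ (16 / 5 : ℝ) ≤ Z (i ^ 2) ω ^ 2} := by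
      intro ω hω
      have h3 : ((i : ℝ) ^ (8 / 5 : ℝ)) ^ 2 ≤ |Z (i ^ 2) ω| ^ 2 :=
        pow_le_pow_left₀ (by positivity) hω 2
      rw [sq_abs, ← Real.rpow_natCast, ← Real.rpow_mul hi0.le] at h3
      have h4 : (8 / 5 : ℝ) * ((2 : ℕ) : ℝ) = 16 / 5 := by norm_num
      rw [h4] at h3
      exact h3
    have h3 : μ.real {ω | (i : ℝ) ^ (8 / 5 : ℝ) ≤ |Z (i ^ 2) ω|} ≤
        μ.real {ω | (i : ℝ) ^ (16 / 5 : ℝ) ≤ Z (i ^ 2) ω ^ 2} := measureReal_mono h2
    have h4 : (i : ℝ) ^ (16 / 5 : ℝ) * μ.real {ω | (i : ℝ) ^ (16 / 5 : ℝ) ≤ Z (i ^ 2) ω ^ 2} ≤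
        (H.card : ℝ) ^ 2 * (i : ℝ) ^ 2 := by
      refine h1.trans ?_
      have := hvar (i ^ 2)
      push_cast at this
      exact this
    have h5 : (i : ℝ) ^ (-(6 / 5) : ℝ) = (i : ℝ) ^ 2 / (i : ℝ) ^ (16 / 5 : ℝ) := by
      rw [← Real.rpow_natCast (i : ℝ) 2, ← Real.rpow_sub hi0]
      norm_num
    rw [h5, ← mul_div_assoc, le_div_iff₀ (Real.rpow_pos_of_pos hi0 _)]
    calc μ.real {ω | (i : ℝ) ^ (8 / 5 : ℝ) ≤ |Z (i ^ 2) ω|} * (i : ℝ) ^ (16 / 5 : ℝ)
        ≤ μ.real {ω | (i : ℝ) ^ (16 / 5 : ℝ) ≤ Z (i ^ 2) ω ^ 2} * (i : ℝ) ^ (16 / 5 : ℝ) := by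
          gcongr
      _ ≤ _ := by rw [mul_comm]; exact h4
  have hsummable : Summable fun i : ℕ => μ.real {ω | (i : ℝ) ^ (8 / 5 : ℝ) ≤ |Z (i ^ 2) ω|} := by
    have h3 : Summable fun i : ℕ => (H.card : ℝ) ^ 2 * (i : ℝ) ^ (-(6 / 5) : ℝ) :=
      (Real.summable_nat_rpow.2 (by norm_num)).mul_left _
    refine h3.of_norm_bounded_eventually_nat ?_
    filter_upwards [eventually_ge_atTop 1] with i hi
    rw [Real.norm_of_nonneg measureReal_nonneg]
    exact hmarkov i hi
  have hBC : ∀ᵐ ω ∂μ, ∀ᶠ i : ℕ in atTop, ω ∉ {ω | (i : ℝ) ^ (8 / 5 : ℝ) ≤ |Z (i ^ 2) ω|} := by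
    apply ae_eventually_notMem
    have h5 : ∀ i : ℕ, μ {ω | (i : ℝ) ^ (8 / 5 : ℝ) ≤ |Z (i ^ 2) ω|} =
        ENNReal.ofReal (μ.real {ω | (i : ℝ) ^ (8 / 5 : ℝ) ≤ |Z (i ^ 2) ω|}) :=
      fun i => (ENNReal.ofReal_toReal (measure_ne_top _ _)).symm
    simp_rw [h5]
    exact hsummable.tsum_ofReal_ne_top
  filter_upwards [hBC] with ω hω
  obtain ⟨I, hI⟩ := eventually_atTop.1 hω
  -- interpolation
  have hstep : ∀ x y : ℕ, x ≤ y → |Z y ω - Z x ω| ≤ (y - x : ℕ) := by
    intro x y hxy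
    have hsub : s x ⊆ s y := by
      intro n hn
      simp only [hs, Finset.mem_filter, Finset.mem_Icc] at hn ⊢
      exact ⟨⟨hn.1.1, hn.1.2.trans hxy⟩, hn.2⟩
    have e1 : Z y ω - Z x ω = ∑ n ∈ s y \ s x, (χ n ω - P n) := by
      simp only [hZ]
      rw [← Finset.sum_sdiff hsub]
      ring
    rw [e1]
    calc |∑ n ∈ s y \ s x, (χ n ω - P n)| ≤ ∑ n ∈ s y \ s x, |χ n ω - P n| :=
          Finset.abs_sum_le_sum_abs _ _
      _ ≤ ∑ _n ∈ s y \ s x, (1 : ℝ) := Finset.sum_le_sum fun n _ => hχb n ω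
      _ = ((s y \ s x).card : ℝ) := by simp
      _ ≤ ((y - x : ℕ) : ℝ) := by
          have : s y \ s x ⊆ Ioc x y := by
            intro n hn
            simp only [hs, Finset.mem_sdiff, Finset.mem_filter, Finset.mem_Icc, not_and] at hn
            rw [Finset.mem_Ioc]
            obtain ⟨⟨h1, h2, h3⟩, h4⟩ := hn
            refine ⟨?_, h1.2⟩
            by_contra hcon
            push Not at hcon
            exact h4 ⟨h1.1, hcon⟩ h2 h3
          have h2 := Finset.card_le_card this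
          rw [Nat.card_Ioc] at h2
          exact_mod_cast h2
  have hZx : ∀ x : ℕ, I ^ 2 ≤ x → 1 ≤ x → |Z x ω| ≤ 3 * (x : ℝ) ^ (4 / 5 : ℝ) := by
    intro x hx hx1
    set i := Nat.sqrt x with hi
    have hi1 : i ^ 2 ≤ x := Nat.sqrt_le' x
    have hi2 : x < (i + 1) ^ 2 := Nat.lt_succ_sqrt' x
    have hIi : I ≤ i := by
      rw [hi]
      exact Nat.le_sqrt'.2 hx
    have h1 := hI i hIi
    have h1' : |Z (i ^ 2) ω| < (i : ℝ) ^ (8 / 5 : ℝ) := not_le.1 h1
    have h2 := hstep (i ^ 2) x hi1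
    have hx0 : (0 : ℝ) < x := by exact_mod_cast hx1
    have hisq : (i : ℝ) ^ (2 : ℝ) ≤ x := by
      rw [Real.rpow_two]
      exact_mod_cast hi1
    have h3 : (i : ℝ) ^ (8 / 5 : ℝ) ≤ (x : ℝ) ^ (4 / 5 : ℝ) := by
      have e : (i : ℝ) ^ (8 / 5 : ℝ) = ((i : ℝ) ^ (2 : ℝ)) ^ (4 / 5 : ℝ) := by
        rw [← Real.rpow_mul (Nat.cast_nonneg _)]
        norm_num
      rw [e]
      exact Real.rpow_le_rpow (by positivity) hisq (by norm_num)
    have h4 : ((x - i ^ 2 : ℕ) : ℝ) ≤ 2 * (x : ℝ) ^ (4 / 5 : ℝ) := by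
      have h5 : x - i ^ 2 ≤ 2 * i := by
        have : (i + 1) ^ 2 = i ^ 2 + 2 * i + 1 := by ring
        omega
      have h6 : ((x - i ^ 2 : ℕ) : ℝ) ≤ 2 * i := by exact_mod_cast h5
      have hi0 : 1 ≤ i := by
        rw [hi]
        exact Nat.le_sqrt'.2 (by omega)
      have hi0' : (1 : ℝ) ≤ i := by exact_mod_cast hi0
      have h7 : (i : ℝ) ≤ (i : ℝ) ^ (8 / 5 : ℝ) := by
        have := Real.rpow_le_rpow_of_exponent_le hi0' (by norm_num : (1 : ℝ) ≤ 8 / 5)
        rwa [Real.rpow_one] at this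
      linarith
    have h5 : |Z x ω| ≤ |Z (i ^ 2) ω| + |Z x ω - Z (i ^ 2) ω| := by
      have := abs_add_le (Z (i ^ 2) ω) (Z x ω - Z (i ^ 2) ω)
      rwa [add_sub_cancel] at this
    linarith
  -- comparison with the counts
  set B : Set ℕ := {n | ω ∈ E n} with hB
  set M : ℝ := ∑ n ∈ Finset.range N, |∏ h ∈ H, p (n + h)| with hM
  have hM0 : 0 ≤ M := Finset.sum_nonneg fun n _ => abs_nonneg _
  have hcomp : ∀ x : ℕ, |(tuples B H q a x : ℝ) - mainT p H q a x - Z x ω| ≤ N + M := by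
    intro x
    have e1 : (tuples B H q a x : ℝ) = ∑ n ∈ (Icc 1 x).filter (fun n => n ≡ a [MOD q]),
        χ n ω := by
      unfold tuples
      rw [Finset.card_filter, Nat.cast_sum, Finset.sum_filter]
      refine Finset.sum_congr rfl fun n _ => ?_
      by_cases h1 : n ≡ a [MOD q]
      · by_cases h2 : ω ∈ tev E H n
        · have h3 : ∀ h ∈ H, n + h ∈ B := mem_tev.1 h2
          rw [if_pos ⟨h1, h3⟩, if_pos h1]
          simp [hχ, h2]
        · have h3 : ¬ ∀ h ∈ H, n + h ∈ B := fun h => h2 (mem_tev.2 h)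
          rw [if_neg (fun h => h3 h.2), if_pos h1]
          simp [hχ, h2]
      · rw [if_neg (fun h => h1 h.1), if_neg h1]
        simp
    have e2 : (tuples B H q a x : ℝ) - mainT p H q a x =
        ∑ n ∈ (Icc 1 x).filter (fun n => n ≡ a [MOD q]), (χ n ω - ∏ h ∈ H, p (n + h)) := by
      rw [e1, Finset.sum_sub_distrib]
      rfl
    have e3 : ∑ n ∈ (Icc 1 x).filter (fun n => n ≡ a [MOD q]), (χ n ω - ∏ h ∈ H, p (n + h)) =
        Z x ω + ∑ n ∈ (Icc 1 x).filter (fun n => n ≡ a [MOD q] ∧ ¬ N ≤ n),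
          (χ n ω - ∏ h ∈ H, p (n + h)) := by
      rw [← Finset.sum_filter_add_sum_filter_not ((Icc 1 x).filter (fun n => n ≡ a [MOD q]))
        (fun n => N ≤ n), Finset.filter_filter, Finset.filter_filter]
      congr 1
      refine Finset.sum_congr rfl fun n hn => ?_
      have h2 := ((Finset.mem_filter.1 hn).2).2
      rw [hPprod n h2]
    rw [e2, e3, add_sub_cancel_left]
    have hsub : (Icc 1 x).filter (fun n => n ≡ a [MOD q] ∧ ¬ N ≤ n) ⊆ Finset.range N := by
      intro n hn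
      rw [Finset.mem_range]
      exact not_le.1 ((Finset.mem_filter.1 hn).2).2
    calc |∑ n ∈ (Icc 1 x).filter (fun n => n ≡ a [MOD q] ∧ ¬ N ≤ n),
          (χ n ω - ∏ h ∈ H, p (n + h))|
        ≤ ∑ n ∈ (Icc 1 x).filter (fun n => n ≡ a [MOD q] ∧ ¬ N ≤ n),
          |χ n ω - ∏ h ∈ H, p (n + h)| := Finset.abs_sum_le_sum_abs _ _
      _ ≤ ∑ n ∈ Finset.range N, |χ n ω - ∏ h ∈ H, p (n + h)| :=
          Finset.sum_le_sum_of_subset_of_nonneg hsub fun _ _ _ => abs_nonneg _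
      _ ≤ ∑ n ∈ Finset.range N, (1 + |∏ h ∈ H, p (n + h)|) := by
          refine Finset.sum_le_sum fun n _ => ?_
          have h1 : |χ n ω| ≤ 1 := by
            by_cases h : ω ∈ tev E H n
            · simp [hχ, h]
            · simp [hχ, h]
          have h2 := abs_sub (χ n ω) (∏ h ∈ H, p (n + h))
          linarith
      _ = N + M := by
          rw [Finset.sum_add_distrib]
          simp [hM]
  -- the constant
  refine ⟨3 + (I ^ 2 : ℕ) + (N + M), fun x hx => ?_⟩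
  have hx1 : (1 : ℝ) ≤ x := by exact_mod_cast hx
  have hx45 : (1 : ℝ) ≤ (x : ℝ) ^ (4 / 5 : ℝ) := Real.one_le_rpow hx1 (by norm_num)
  have hZall : |Z x ω| ≤ (3 + (I ^ 2 : ℕ)) * (x : ℝ) ^ (4 / 5 : ℝ) := by
    rcases le_or_gt (I ^ 2) x with h | h
    · have h1 := hZx x h hx
      have h2 : (0 : ℝ) ≤ ((I ^ 2 : ℕ) : ℝ) := Nat.cast_nonneg _
      nlinarith
    · have h1 := hZb x ω
      have h2 : (s x).card ≤ x := by
        calc (s x).card ≤ (Icc 1 x).card := Finset.card_filter_le _ _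
          _ = x := by simp
      have h3 : ((s x).card : ℝ) ≤ (I ^ 2 : ℕ) := by exact_mod_cast h2.trans h.le
      have h4 : (0 : ℝ) ≤ ((I ^ 2 : ℕ) : ℝ) := Nat.cast_nonneg _
      nlinarith
  have h1 := hcomp x
  have h2 : |(tuples B H q a x : ℝ) - mainT p H q a x| ≤ |Z x ω| + (N + M) := by
    have := abs_add_le (Z x ω) ((tuples B H q a x : ℝ) - mainT p H q a x - Z x ω)
    rw [add_sub_cancel] at this
    linarith
  have h3 : (0 : ℝ) ≤ N + M := by positivity
  nlinarith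

end Pool.Agent.LibCramer
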