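import Pool.Agent.LibCI7.Weight

/-!
Models with prescribed Cramer constant and independence of order `o(log n)`.
-/

namespace Pool.Agent.LibCramer

open Finset Filter Topology MeasureTheory ProbabilityTheory Pool.Agent.LibBar93
open scoped ENNReal
open Pool.Agent.LibCramer.LowerTail (tendsto_logn factorial_le tendsto_log_add_len_div tendsto_len_div)

/-- diagonal sequences -/
lemma exists_slow {P : ℕ → ℕ → Prop} (h : ∀ m, ∀ᶠ c in atTop, P m c) :
    ∃ m : ℕ → ℕ, Tendsto m atTop atTop ∧ ∀ᶠ c in atTop, P (m c) c := by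
  classical
  have h' : ∀ m, ∃ N, ∀ c, N ≤ c → P m c := fun m => eventually_atTop.1 (h m)
  choose N hN using h'
  set N' : ℕ → ℕ := fun i => (Finset.range (i + 1)).sup N + i with hN'
  have hNN' : ∀ i, N i ≤ N' i := fun i =>
    (Finset.le_sup (f := N) (Finset.mem_range.2 (Nat.lt_succ_self i))).trans (Nat.le_add_right _ _)
  refine ⟨fun c => Nat.findGreatest (fun i => N' i ≤ c) c, ?_, ?_⟩
  · rw [tendsto_atTop]
    intro b
    filter_upwards [eventually_ge_atTop (max (N' b) b)] with c hc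
    exact Nat.le_findGreatest ((le_max_right _ _).trans hc) ((le_max_left _ _).trans hc)
  · filter_upwards [eventually_ge_atTop (N' 0)] with c hc
    have h1 : N' (Nat.findGreatest (fun i => N' i ≤ c) c) ≤ c :=
      Nat.findGreatest_spec (P := fun i => N' i ≤ c) (Nat.zero_le c) hc
    exact hN _ c ((hNN' _).trans h1)

/-- the data of the construction -/
structure Cuts (p : ℕ → ℝ) (k : ℕ → ℕ) where
  /-- length parameters -/
  lam : ℕ → ℕ → ℝ
  /-- cut points -/
  c : ℕ → ℕ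
  /-- laws -/
  w : ℕ → Finset ℕ → ℝ
  succ : ∀ i, c (i + 1) = c i + len (lam i (c i)) (c i)
  pos : ∀ i, 1 ≤ len (lam i (c i)) (c i)
  growth : ∀ i, (len (lam i (c i)) (c i) : ℝ) ≤ Real.sqrt (c i)
  c0 : 16 ≤ c 0
  law : ∀ i, BLaw (supp p (lam i (c i)) (c i)) p ((win (lam i (c i)) (c i)).sup k + 1) (w i)
  even : ∀ i, Even i → w i ∅ = 0
  odd : ∀ i, ¬ Even i → ((c i : ℕ) : ℝ) ^ (-(1 / 2) : ℝ) ≤ w i ∅

attribute [local instance 2000] msFinset

variable {p : ℕ → ℝ} {k : ℕ → ℕ}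

lemma flaw_real' {S : Finset ℕ} {θ : ℕ → ℝ} {k : ℕ} {w : Finset ℕ → ℝ} (h : BLaw S θ k w)
    (X : Set (Finset ℕ)) (F : Finset (Finset ℕ)) (hF : ∀ T, T ∈ F ↔ T ⊆ S ∧ T ∈ X) :
    (flaw S w).real X = ∑ T ∈ F, w T := by
  classical
  rw [flaw_real h]
  refine Finset.sum_congr ?_ fun _ _ => rfl
  ext T
  rw [hF, Finset.mem_filter, Finset.mem_powerset]

namespace Cuts

variable (D : Cuts p k)

lemma lt_succ (i : ℕ) : D.c i < D.c (i + 1) := by
  rw [D.succ]
  have := D.pos i
  omega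

lemma strictMono : StrictMono D.c := strictMono_nat_of_lt_succ D.lt_succ

lemma ge16 (i : ℕ) : 16 ≤ D.c i := D.c0.trans (D.strictMono.monotone (Nat.zero_le i))

/-- support of block `i` -/
noncomputable def S (i : ℕ) : Finset ℕ := supp p (D.lam i (D.c i)) (D.c i)

/-- order of block `i` -/
noncomputable def K (i : ℕ) : ℕ := (win (D.lam i (D.c i)) (D.c i)).sup k + 1

lemma win_eq (i : ℕ) : win (D.lam i (D.c i)) (D.c i) = Finset.Ioc (D.c i) (D.c (i + 1)) := by
  unfold win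
  rw [D.succ i]

/-- block index -/
noncomputable def bi (n : ℕ) : ℕ := Nat.findGreatest (fun i => D.c i < n) n

lemma bi_eq {i n : ℕ} (h : n ∈ Finset.Ioc (D.c i) (D.c (i + 1))) : D.bi n = i := by
  obtain ⟨h1, h2⟩ := Finset.mem_Ioc.1 h
  unfold bi
  rw [Nat.findGreatest_eq_iff]
  have hi : i ≤ D.c i := D.strictMono.le_apply
  refine ⟨by omega, fun _ => h1, fun j hj _ => ?_⟩
  have : D.c (i + 1) ≤ D.c j := D.strictMono.monotone hj
  omega

lemma bi_spec {n : ℕ} (h : D.c 0 < n) : n ∈ Finset.Ioc (D.c (D.bi n)) (D.c (D.bi n + 1)) := by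
  rw [Finset.mem_Ioc]
  have h1 : D.c (D.bi n) < n :=
    Nat.findGreatest_spec (P := fun i => D.c i < n) (Nat.zero_le n) h
  refine ⟨h1, ?_⟩
  by_contra h2
  push Not at h2
  have h3 : D.bi n + 1 ≤ D.c (D.bi n + 1) := D.strictMono.le_apply
  have h4 : D.bi n + 1 ≤ D.bi n :=
    Nat.le_findGreatest (P := fun i => D.c i < n) (by omega) h2
  omega

lemma mem_S {i n : ℕ} : n ∈ D.S i ↔ n ∈ Finset.Ioc (D.c i) (D.c (i + 1)) ∧ p n ≠ 0 := by
  classical
  unfold S supp
  rw [Finset.mem_filter, D.win_eq]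

lemma blaw (i : ℕ) : BLaw (D.S i) p (D.K i) (D.w i) := D.law i

lemma bi_of_mem_S {i n : ℕ} (h : n ∈ D.S i) : D.bi n = i := D.bi_eq (D.mem_S.1 h).1

/-- the measure -/
noncomputable def μ : Measure (ℕ → Finset ℕ) := bspace D.S D.w

/-- the events -/
def E (n : ℕ) : Set (ℕ → Finset ℕ) := bev D.bi n

end Cuts

namespace Cuts

variable (D : Cuts p k)

lemma prob : IsProbabilityMeasure D.μ := bspace_prob D.blaw

lemma measE (n : ℕ) : MeasurableSet (D.E n) := measurableSet_bev D.bi n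

lemma indep : IndepUpTo D.E D.μ k := by
  refine bev_indep D.blaw (fun i => Nat.le_add_left 1 _) fun n hn => ?_
  have h1 := (D.mem_S.1 hn).1
  have h2 : k n ≤ (win (D.lam (D.bi n) (D.c (D.bi n))) (D.c (D.bi n))).sup k :=
    Finset.le_sup (by rw [D.win_eq]; exact h1)
  unfold K
  omega

lemma real_E {n : ℕ} (h : D.c 0 < n) : D.μ.real (D.E n) = p n := by
  classical
  have h1 := bev_real D.blaw (fun i => Nat.le_add_left 1 _) D.bi n
  have h2 := D.bi_spec h
  rw [show D.μ.real (D.E n) = (bspace D.S D.w).real (bev D.bi n) from rfl, h1]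
  split_ifs with h3
  · rfl
  · rw [D.mem_S] at h3
    by_contra h4
    exact h3 ⟨h2, fun h5 => h4 h5.symm⟩

/-- one block -/
lemma coord_real (i : ℕ) (X : Set (Finset ℕ)) :
    D.μ.real {ω | ω i ∈ X} = (flaw (D.S i) (D.w i)).real X := by
  have := bspace_cyl D.blaw {i} (fun _ => X)
  rw [Finset.prod_singleton] at this
  rw [← this]
  congr 1
  ext ω
  simp

/-- almost surely the even blocks are hit -/
lemma ae_even : ∀ᵐ ω ∂D.μ, ∀ i, Even i → ∃ n ∈ Finset.Ioc (D.c i) (D.c (i + 1)), ω ∈ D.E n := by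
  classical
  have hP := D.prob
  rw [ae_all_iff]
  intro i
  by_cases hi : Even i
  · have h1 : D.μ.real {ω | ω i ∈ {T : Finset ℕ | ¬ ∃ n ∈ T, n ∈ D.S i}} = 0 := by
      rw [D.coord_real, flaw_real' (D.blaw i) _ {∅}]
      · rw [Finset.sum_singleton, D.even i hi]
      · intro T
        rw [Finset.mem_singleton]
        constructor
        · rintro rfl
          exact ⟨Finset.empty_subset _, fun ⟨n, hn, _⟩ => by simp at hn⟩
        · rintro ⟨hT1, hT2⟩
          by_contra hne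
          obtain ⟨n, hn⟩ := Finset.nonempty_iff_ne_empty.2 hne
          exact hT2 ⟨n, hn, hT1 hn⟩
    have h2 : D.μ {ω | ω i ∈ {T : Finset ℕ | ¬ ∃ n ∈ T, n ∈ D.S i}} = 0 := by
      rwa [measureReal_eq_zero_iff] at h1
    have h3 : ∀ᵐ ω ∂D.μ, ω ∉ {ω | ω i ∈ {T : Finset ℕ | ¬ ∃ n ∈ T, n ∈ D.S i}} :=
      measure_eq_zero_iff_ae_notMem.1 h2
    filter_upwards [h3] with ω hω _
    simp only [not_not] at hω
    obtain ⟨n, hn, hn2⟩ := hω
    refine ⟨n, (D.mem_S.1 hn2).1, ?_⟩
    change n ∈ ω (D.bi n)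
    rw [D.bi_of_mem_S hn2]
    exact hn
  · exact Eventually.of_forall fun ω h => absurd h hi

lemma c_growth : ∃ C : ℝ, 1 ≤ C ∧ ∀ i, (D.c i : ℝ) ≤ C * ((i : ℝ) + 1) ^ 2 := by
  refine ⟨max 1 (D.c 0), le_max_left _ _, fun i => ?_⟩
  set C : ℝ := max 1 (D.c 0) with hC
  have hC1 : 1 ≤ C := le_max_left _ _
  induction i with
  | zero =>
    have h0 : ((D.c 0 : ℕ) : ℝ) ≤ C := le_max_right _ _
    simpa using h0
  | succ i ih =>
    have h1 : (D.c (i + 1) : ℝ) = D.c i + len (D.lam i (D.c i)) (D.c i) := by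
      rw [D.succ i]; push_cast; ring
    have h2 := D.growth i
    have h3 : Real.sqrt (D.c i) ≤ C * ((i : ℝ) + 1) := by
      rw [Real.sqrt_le_left (by positivity)]
      refine ih.trans ?_
      rw [mul_pow]
      apply mul_le_mul_of_nonneg_right _ (by positivity)
      nlinarith
    rw [h1]
    push_cast
    have hi : (0 : ℝ) ≤ i := Nat.cast_nonneg i
    nlinarith

/-- almost surely infinitely many odd blocks are empty -/
lemma ae_odd : ∀ᵐ ω ∂D.μ, ∃ᶠ i in atTop, ω (2 * i + 1) = ∅ := by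
  classical
  have hP := D.prob
  have hind := coord_indep D.blaw (fun i => 2 * i + 1) (fun a b h => by simpa using h)
    (fun _ => {T : Finset ℕ | T = ∅})
  have hmeas : ∀ i : ℕ, MeasurableSet {ω : ℕ → Finset ℕ | ω (2 * i + 1) ∈ {T : Finset ℕ | T = ∅}} :=
    fun i => measurableSet_coord _ _
  obtain ⟨C, hC1, hC⟩ := D.c_growth
  have hlow : ∀ i : ℕ, ENNReal.ofReal (1 / (C * ((2 * i + 1 : ℕ) + 1))) ≤
      D.μ {ω : ℕ → Finset ℕ | ω (2 * i + 1) ∈ {T : Finset ℕ | T = ∅}} := by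
    intro i
    have h1 : D.μ.real {ω | ω (2 * i + 1) ∈ {T : Finset ℕ | T = ∅}} = D.w (2 * i + 1) ∅ := by
      rw [D.coord_real, flaw_real' (D.blaw _) _ {∅}]
      · rw [Finset.sum_singleton]
      · intro T
        rw [Finset.mem_singleton]
        constructor
        · rintro rfl
          exact ⟨Finset.empty_subset _, rfl⟩
        · exact fun h => h.2
    have h2 := D.odd (2 * i + 1) (by rw [Nat.even_add_one]; simp)
    rw [← h1] at h2
    have h3 : 1 / (C * ((2 * i + 1 : ℕ) + 1)) ≤ ((D.c (2 * i + 1) : ℕ) : ℝ) ^ (-(1 / 2) : ℝ) := by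
      have hc0 : (0 : ℝ) < D.c (2 * i + 1) := by
        have := D.ge16 (2 * i + 1)
        exact_mod_cast (by omega : 0 < D.c (2 * i + 1))
      rw [Real.rpow_neg hc0.le, ← one_div, ← Real.sqrt_eq_rpow]
      apply one_div_le_one_div_of_le (Real.sqrt_pos.2 hc0)
      rw [Real.sqrt_le_left (by positivity)]
      refine (hC (2 * i + 1)).trans ?_
      rw [mul_pow]
      apply mul_le_mul_of_nonneg_right _ (by positivity)
      nlinarith
    rw [← ENNReal.ofReal_toReal (measure_ne_top D.μ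
      {ω : ℕ → Finset ℕ | ω (2 * i + 1) ∈ {T : Finset ℕ | T = ∅}})]
    exact ENNReal.ofReal_le_ofReal (h3.trans h2)
  have hdiv : ∑' i : ℕ, D.μ {ω : ℕ → Finset ℕ | ω (2 * i + 1) ∈ {T : Finset ℕ | T = ∅}} = ∞ := by
    rw [eq_top_iff]
    have h1 : ∑' i : ℕ, ENNReal.ofReal (1 / (C * ((2 * i + 1 : ℕ) + 1))) = ∞ := by
      by_contra hne
      have hs : Summable fun i : ℕ => 1 / (C * (((2 * i + 1 : ℕ) : ℝ) + 1)) := by
        have := ENNReal.summable_toReal hne
        refine this.congr fun i => ?_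
        rw [ENNReal.toReal_ofReal (by positivity)]
      have hs2 : Summable fun i : ℕ => 1 / ((i : ℝ) + 1) := by
        refine (hs.mul_left (2 * C)).congr fun i => ?_
        push_cast
        field_simp
        ring
      have hs3 : Summable fun i : ℕ => 1 / ((i + 1 : ℕ) : ℝ) := by
        refine hs2.congr fun i => ?_
        push_cast
        ring
      exact Real.not_summable_one_div_natCast ((summable_nat_add_iff 1).1 hs3)
    rw [← h1]
    exact ENNReal.tsum_le_tsum hlow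
  have hlim : D.μ (limsup (fun i : ℕ =>
      {ω : ℕ → Finset ℕ | ω (2 * i + 1) ∈ {T : Finset ℕ | T = ∅}}) atTop) = 1 :=
    measure_limsup_eq_one hmeas hind hdiv
  have h2 : ∀ᵐ ω ∂D.μ, ω ∈ limsup
      (fun i : ℕ => {ω : ℕ → Finset ℕ | ω (2 * i + 1) ∈ {T : Finset ℕ | T = ∅}}) atTop := by
    rw [← prob_compl_eq_zero_iff₀] at hlim
    · exact measure_eq_zero_iff_ae_notMem.1 hlim |>.mono fun ω hω => by
        simpa using hω
    · exact (MeasurableSet.measurableSet_limsup hmeas).nullMeasurableSet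
  filter_upwards [h2] with ω hω
  rw [mem_limsup_iff_frequently_mem] at hω
  exact hω

end Cuts

end Pool.Agent.LibCramer
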