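import Pool.Agent.LibCI7.Model
import Pool.Agent.LibBar93.Params

/-!
The densities `1 / log n` and `dens n` are good weights.
-/

namespace Pool.Agent.LibCramer

open Finset Filter Topology Pool.Agent.LibBar93
open Pool.Agent.LibCramer.LowerTail (tendsto_logn factorial_le tendsto_log_add_len_div tendsto_len_div)

/-- counting coprime integers in an interval -/
lemma card_coprime_near (W a b : ℕ) (hab : a ≤ b) (hW : 0 < W) {E : ℝ}
    (hE : (W : ℝ) * E = Nat.totient W) (hE1 : E ≤ 1) (hE0 : 0 ≤ E) :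
    |(#{n ∈ Ioc a b | n.Coprime W} : ℝ) - (b - a : ℝ) * E| ≤ W := by
  have hI : Ioc a b = Ico (a + 1) (a + 1 + (b - a)) := by
    ext n
    simp only [Finset.mem_Ioc, Finset.mem_Ico]
    omega
  set L := b - a with hL
  have hLr : ((b : ℝ) - a) = L := by rw [hL, Nat.cast_sub hab]
  rw [hI, hLr]
  have hdm : W * (L / W) + L % W = L := Nat.div_add_mod L W
  have hmod : L % W < W := Nat.mod_lt L hW
  have h1 : (L / W) * Nat.totient W ≤ #{n ∈ Ico (a + 1) (a + 1 + L) | n.Coprime W} := by
    rw [← card_coprime_mul W (a + 1) (L / W)]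
    apply Finset.card_le_card
    apply Finset.filter_subset_filter
    apply Finset.Ico_subset_Ico_right
    omega
  have h2 : #{n ∈ Ico (a + 1) (a + 1 + L) | n.Coprime W} ≤ (L / W + 1) * Nat.totient W := by
    rw [← card_coprime_mul W (a + 1) (L / W + 1)]
    apply Finset.card_le_card
    apply Finset.filter_subset_filter
    apply Finset.Ico_subset_Ico_right
    have : W * (L / W + 1) = W * (L / W) + W := by ring
    omega
  have h1' : ((L / W : ℕ) : ℝ) * (W * E) ≤ #{n ∈ Ico (a + 1) (a + 1 + L) | n.Coprime W} := by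
    rw [hE]; exact_mod_cast h1
  have h2' : (#{n ∈ Ico (a + 1) (a + 1 + L) | n.Coprime W} : ℝ) ≤
      (((L / W : ℕ) : ℝ) + 1) * (W * E) := by
    rw [hE]; exact_mod_cast h2
  have hdm' : (W : ℝ) * ((L / W : ℕ) : ℝ) + ((L % W : ℕ) : ℝ) = L := by exact_mod_cast hdm
  have hmod' : ((L % W : ℕ) : ℝ) ≤ W := by exact_mod_cast hmod.le
  have hmod0 : (0 : ℝ) ≤ ((L % W : ℕ) : ℝ) := Nat.cast_nonneg _
  have hW0 : (0 : ℝ) < W := by exact_mod_cast hW
  rw [abs_le]
  constructor
  · have : (L : ℝ) * E - W ≤ ((L / W : ℕ) : ℝ) * (W * E) := by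
      rw [← hdm']
      nlinarith [mul_nonneg hmod0 hE0, mul_le_mul_of_nonneg_left hE1 hmod0]
    linarith
  · have : (((L / W : ℕ) : ℝ) + 1) * (W * E) ≤ L * E + W := by
      rw [← hdm']
      nlinarith [mul_nonneg hmod0 hE0, mul_le_mul_of_nonneg_left hE1 hW0.le]
    linarith

/-- level weights -/
structure Level (W : ℕ → ℕ) (E : ℕ → ℝ) : Prop where
  pos : ∀ j, 0 < W j
  tot : ∀ j, (W j : ℝ) * E j = Nat.totient (W j)
  le_one : ∀ j, E j ≤ 1
  epos : ∀ j, 0 < E j
  small : Tendsto (fun j : ℕ => (W j : ℝ) * (E j)⁻¹ / (j : ℝ) ^ 2) atTop (𝓝 0)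
  inv : Tendsto (fun j : ℕ => (E j)⁻¹ / (j : ℝ)) atTop (𝓝 0)
  ratio : Tendsto (fun j : ℕ => E j / E (j + 1)) atTop (𝓝 1)

/-- the density of a level weight -/
noncomputable def lvl (W : ℕ → ℕ) (E : ℕ → ℝ) (n : ℕ) : ℝ :=
  if 8 ≤ n ∧ n.Coprime (W (Nat.log 2 n)) then (E (Nat.log 2 n))⁻¹ / Real.log n else 0

variable {W : ℕ → ℕ} {E : ℕ → ℝ}

lemma tendsto_log2 : Tendsto (fun n : ℕ => Nat.log 2 n) atTop atTop := by
  rw [tendsto_atTop]
  intro b
  filter_upwards [eventually_ge_atTop (2 ^ b)] with n hn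
  exact Nat.le_log_of_pow_le (by norm_num) hn

lemma lvl_nonneg (h : Level W E) (n : ℕ) : 0 ≤ lvl W E n := by
  unfold lvl
  split_ifs
  · exact div_nonneg (inv_nonneg.2 (h.epos _).le) (Real.log_natCast_nonneg n)
  · exact le_rfl

lemma lvl_tendsto (h : Level W E) : Tendsto (lvl W E) atTop (𝓝 0) := by
  have h1 : Tendsto (fun n : ℕ => 2 * ((E (Nat.log 2 n))⁻¹ / (Nat.log 2 n : ℝ))) atTop (𝓝 0) := by
    have := (h.inv.comp tendsto_log2).const_mul 2
    simpa using this
  refine squeeze_zero' (Eventually.of_forall (lvl_nonneg h)) ?_ h1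
  filter_upwards [eventually_ge_atTop 8] with n hn
  unfold lvl
  have hj : 1 ≤ Nat.log 2 n := Nat.le_log_of_pow_le (by norm_num) (by omega)
  have hj' : (1 : ℝ) ≤ Nat.log 2 n := by exact_mod_cast hj
  have hE := inv_pos.2 (h.epos (Nat.log 2 n))
  have hlog := (log_bounds (by omega : 1 ≤ n)).1
  have hl2 := Real.log_two_gt_d9
  split_ifs
  · have h2 : (Nat.log 2 n : ℝ) / 2 ≤ Real.log n := by nlinarith
    calc (E (Nat.log 2 n))⁻¹ / Real.log n ≤ (E (Nat.log 2 n))⁻¹ / ((Nat.log 2 n : ℝ) / 2) := by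
          gcongr
      _ = 2 * ((E (Nat.log 2 n))⁻¹ / (Nat.log 2 n : ℝ)) := by field_simp
  · positivity

/-- a piece inside one level -/
lemma sum_piece (h : Level W E) {a b j : ℕ} (hab : a ≤ b) (ha : 8 ≤ a)
    (hj : ∀ n ∈ Ioc a b, Nat.log 2 n = j) :
    |∑ n ∈ Ioc a b, lvl W E n * Real.log n - (b - a : ℝ)| ≤ W j * (E j)⁻¹ := by
  have e1 : ∑ n ∈ Ioc a b, lvl W E n * Real.log n =
      (E j)⁻¹ * (#{n ∈ Ioc a b | n.Coprime (W j)} : ℝ) := by
    rw [Finset.card_filter, Nat.cast_sum, Finset.mul_sum]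
    refine Finset.sum_congr rfl fun n hn => ?_
    have h8 : 8 ≤ n := by have := (Finset.mem_Ioc.1 hn).1; omega
    have hlog : 0 < Real.log (n : ℝ) := Real.log_pos (by exact_mod_cast (by omega : 1 < n))
    unfold lvl
    rw [hj n hn]
    by_cases hc : n.Coprime (W j)
    · rw [if_pos ⟨h8, hc⟩, if_pos hc]
      push_cast
      field_simp
    · rw [if_neg (fun h => hc h.2), if_neg hc]
      simp
  rw [e1]
  have h1 := card_coprime_near (W j) a b hab (h.pos j) (h.tot j) (h.le_one j) (h.epos j).le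
  have hE := h.epos j
  have e2 : (E j)⁻¹ * (#{n ∈ Ioc a b | n.Coprime (W j)} : ℝ) - (b - a : ℝ) =
      (E j)⁻¹ * ((#{n ∈ Ioc a b | n.Coprime (W j)} : ℝ) - (b - a : ℝ) * E j) := by
    field_simp
  rw [e2, abs_mul, abs_of_pos (inv_pos.2 hE), mul_comm]
  exact mul_le_mul_of_nonneg_right h1 (inv_pos.2 hE).le

/-- levels in a window -/
lemma log2_window {m n L : ℕ} (hm : 1 ≤ m) (hL : L ≤ m) (h1 : m ≤ n) (h2 : n ≤ m + L) :
    Nat.log 2 n = Nat.log 2 m ∨ Nat.log 2 n = Nat.log 2 m + 1 := by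
  have h3 : Nat.log 2 m ≤ Nat.log 2 n := Nat.log_mono_right h1
  have h4 : Nat.log 2 n ≤ Nat.log 2 (2 * m) := Nat.log_mono_right (by omega)
  have h5 : Nat.log 2 (2 * m) = Nat.log 2 m + 1 := by
    rw [mul_comm]
    exact Nat.log_mul_base (by norm_num) (by omega)
  omega

/-- the weighted count in a window -/
lemma sum_window (h : Level W E) {m L : ℕ} (hm : 8 ≤ m) (hL : L ≤ m) :
    |∑ n ∈ Ioc m (m + L), lvl W E n * Real.log n - L| ≤
      W (Nat.log 2 m) * (E (Nat.log 2 m))⁻¹ + W (Nat.log 2 m + 1) * (E (Nat.log 2 m + 1))⁻¹ := by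
  set j := Nat.log 2 m with hj
  have p1 : 0 ≤ (W j : ℝ) * (E j)⁻¹ := mul_nonneg (Nat.cast_nonneg _) (inv_pos.2 (h.epos j)).le
  have p2 : 0 ≤ (W (j + 1) : ℝ) * (E (j + 1))⁻¹ :=
    mul_nonneg (Nat.cast_nonneg _) (inv_pos.2 (h.epos (j + 1))).le
  have hlt : m < 2 ^ (j + 1) := Nat.lt_pow_succ_log_self (by norm_num) m
  rcases lt_or_ge (m + L) (2 ^ (j + 1)) with hc | hc
  · have h1 : ∀ n ∈ Ioc m (m + L), Nat.log 2 n = j := by
      intro n hn
      obtain ⟨hn1, hn2⟩ := Finset.mem_Ioc.1 hn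
      rw [Nat.log_eq_iff (Or.inr ⟨by norm_num, by omega⟩)]
      have : 2 ^ j ≤ m := Nat.pow_log_le_self 2 (by omega)
      exact ⟨by omega, by omega⟩
    have h2 := sum_piece h (by omega : m ≤ m + L) hm h1
    have h3 : (((m + L : ℕ) : ℝ) - m) = L := by push_cast; ring
    rw [h3] at h2
    linarith
  · -- crossing
    set c := 2 ^ (j + 1) - 1 with hcdef
    have hmc : m ≤ c := by omega
    have hcL : c ≤ m + L := by omega
    have h1 : ∀ n ∈ Ioc m c, Nat.log 2 n = j := by
      intro n hn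
      obtain ⟨hn1, hn2⟩ := Finset.mem_Ioc.1 hn
      rw [Nat.log_eq_iff (Or.inr ⟨by norm_num, by omega⟩)]
      have : 2 ^ j ≤ m := Nat.pow_log_le_self 2 (by omega)
      exact ⟨by omega, by omega⟩
    have h2 : ∀ n ∈ Ioc c (m + L), Nat.log 2 n = j + 1 := by
      intro n hn
      obtain ⟨hn1, hn2⟩ := Finset.mem_Ioc.1 hn
      rcases log2_window (by omega : 1 ≤ m) hL (by omega : m ≤ n) hn2 with h3 | h3
      · exfalso
        have h4 : n < 2 ^ (Nat.log 2 n + 1) := Nat.lt_pow_succ_log_self (by norm_num) n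
        rw [h3, ← hj] at h4
        omega
      · exact h3
    have e : Ioc m (m + L) = Ioc m c ∪ Ioc c (m + L) := by
      ext n
      simp only [Finset.mem_union, Finset.mem_Ioc]
      omega
    have hd : Disjoint (Ioc m c) (Ioc c (m + L)) := by
      rw [Finset.disjoint_left]
      intro n hn1 hn2
      have := (Finset.mem_Ioc.1 hn1).2
      have := (Finset.mem_Ioc.1 hn2).1
      omega
    rw [e, Finset.sum_union hd]
    have a1 := sum_piece h hmc hm h1
    have a2 := sum_piece h hcL (by omega : 8 ≤ c) h2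
    rw [abs_le] at a1 a2 ⊢
    push_cast at a2
    constructor <;> linarith [a1.1, a1.2, a2.1, a2.2]

lemma level_error (h : Level W E) : Tendsto (fun m : ℕ =>
    (W (Nat.log 2 m) * (E (Nat.log 2 m))⁻¹ + W (Nat.log 2 m + 1) * (E (Nat.log 2 m + 1))⁻¹) /
      Real.log (m : ℝ) ^ 2) atTop (𝓝 0) := by
  have h1 : Tendsto (fun m : ℕ => 4 * ((W (Nat.log 2 m) : ℝ) * (E (Nat.log 2 m))⁻¹ /
      (Nat.log 2 m : ℝ) ^ 2) + 16 * ((W (Nat.log 2 m + 1) : ℝ) * (E (Nat.log 2 m + 1))⁻¹ /
      ((Nat.log 2 m + 1 : ℕ) : ℝ) ^ 2)) atTop (𝓝 0) := by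
    have a1 := (h.small.comp tendsto_log2).const_mul 4
    have a2 := ((h.small.comp (tendsto_add_atTop_nat 1)).comp tendsto_log2).const_mul 16
    have := a1.add a2
    simpa using this
  refine squeeze_zero' (Eventually.of_forall fun m => ?_) ?_ h1
  · apply div_nonneg _ (by positivity)
    have p1 : 0 ≤ (W (Nat.log 2 m) : ℝ) * (E (Nat.log 2 m))⁻¹ :=
      mul_nonneg (Nat.cast_nonneg _) (inv_pos.2 (h.epos _)).le
    have p2 : 0 ≤ (W (Nat.log 2 m + 1) : ℝ) * (E (Nat.log 2 m + 1))⁻¹ :=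
      mul_nonneg (Nat.cast_nonneg _) (inv_pos.2 (h.epos _)).le
    linarith
  · filter_upwards [eventually_ge_atTop 8] with m hm
    set j := Nat.log 2 m with hj
    have hj1 : 1 ≤ j := Nat.le_log_of_pow_le (by norm_num) (by omega)
    have hj' : (1 : ℝ) ≤ j := by exact_mod_cast hj1
    have p1 : 0 ≤ (W j : ℝ) * (E j)⁻¹ :=
      mul_nonneg (Nat.cast_nonneg _) (inv_pos.2 (h.epos _)).le
    have p2 : 0 ≤ (W (j + 1) : ℝ) * (E (j + 1))⁻¹ :=
      mul_nonneg (Nat.cast_nonneg _) (inv_pos.2 (h.epos _)).le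
    have hlog := (log_bounds (by omega : 1 ≤ m)).1
    have hl2 := Real.log_two_gt_d9
    have h2 : (j : ℝ) / 2 ≤ Real.log m := by rw [← hj] at hlog; nlinarith
    have h3 : ((j + 1 : ℕ) : ℝ) / 4 ≤ Real.log m := by push_cast; linarith
    have hL0 : 0 < Real.log (m : ℝ) := by linarith
    have e1 : (W j : ℝ) * (E j)⁻¹ / Real.log (m : ℝ) ^ 2 ≤
        4 * ((W j : ℝ) * (E j)⁻¹ / (j : ℝ) ^ 2) := by
      calc (W j : ℝ) * (E j)⁻¹ / Real.log (m : ℝ) ^ 2
          ≤ (W j : ℝ) * (E j)⁻¹ / ((j : ℝ) / 2) ^ 2 := by gcongr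
        _ = _ := by field_simp; norm_num
    have e2 : (W (j + 1) : ℝ) * (E (j + 1))⁻¹ / Real.log (m : ℝ) ^ 2 ≤
        16 * ((W (j + 1) : ℝ) * (E (j + 1))⁻¹ / ((j + 1 : ℕ) : ℝ) ^ 2) := by
      calc (W (j + 1) : ℝ) * (E (j + 1))⁻¹ / Real.log (m : ℝ) ^ 2
          ≤ (W (j + 1) : ℝ) * (E (j + 1))⁻¹ / (((j + 1 : ℕ) : ℝ) / 4) ^ 2 := by gcongr
        _ = _ := by field_simp; norm_num
    rw [add_div]
    exact add_le_add e1 e2

lemma eventually_len_le {l : ℝ} (hl : 0 < l) : ∀ᶠ m : ℕ in atTop, len l m ≤ m := by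
  filter_upwards [eventually_len_sqrt hl, eventually_ge_atTop 1] with m hm h1
  have h2 : Real.sqrt (m : ℝ) ≤ m := by
    rw [Real.sqrt_le_left (by positivity)]
    have : (1 : ℝ) ≤ m := by exact_mod_cast h1
    nlinarith
  exact_mod_cast hm.trans h2

theorem lvl_locDens (h : Level W E) : LocDens (lvl W E) := by
  refine ⟨lvl_tendsto h, fun l hl => ?_⟩
  -- weighted sums
  have hw : Tendsto (fun m : ℕ => (∑ n ∈ win l m, lvl W E n * Real.log n) /
      Real.log (m : ℝ) ^ 2) atTop (𝓝 l) := by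
    have h1 := tendsto_len_div hl.le
    have h2 : Tendsto (fun m : ℕ => (∑ n ∈ win l m, lvl W E n * Real.log n) /
        Real.log (m : ℝ) ^ 2 - (len l m : ℝ) / Real.log (m : ℝ) ^ 2) atTop (𝓝 0) := by
      refine squeeze_zero_norm' ?_ (level_error h)
      filter_upwards [eventually_ge_atTop 8, eventually_len_le hl] with m hm hL
      rw [← sub_div, norm_div, Real.norm_eq_abs, Real.norm_of_nonneg (by positivity :
        (0 : ℝ) ≤ Real.log (m : ℝ) ^ 2)]
      apply div_le_div_of_nonneg_right _ (by positivity)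
      exact sum_window h hm hL
    have h3 := h2.add h1
    simpa using h3
  have hlogr := tendsto_log_add_len_div hl.le
  -- compare
  have hup : Tendsto (fun m : ℕ => (∑ n ∈ win l m, lvl W E n * Real.log n) /
      Real.log (m : ℝ) ^ 2) atTop (𝓝 l) := hw
  have hlow : Tendsto (fun m : ℕ => (∑ n ∈ win l m, lvl W E n * Real.log n) /
      Real.log (m : ℝ) ^ 2 / (Real.log ((m : ℝ) + len l m) / Real.log (m : ℝ))) atTop (𝓝 l) := by
    have := hw.div hlogr one_ne_zero
    rw [div_one] at this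
    exact this
  refine tendsto_of_tendsto_of_tendsto_of_le_of_le' hlow hup ?_ ?_
  · filter_upwards [eventually_ge_atTop 8] with m hm
    have hm' : (8 : ℝ) ≤ m := by exact_mod_cast hm
    have hL0 : 0 < Real.log (m : ℝ) := Real.log_pos (by linarith)
    have hL1 : 0 < Real.log ((m : ℝ) + len l m) := Real.log_pos (by
      have : (0 : ℝ) ≤ len l m := Nat.cast_nonneg _
      linarith)
    have e : (∑ n ∈ win l m, lvl W E n * Real.log n) / Real.log (m : ℝ) ^ 2 /
        (Real.log ((m : ℝ) + len l m) / Real.log (m : ℝ)) =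
        (∑ n ∈ win l m, lvl W E n * Real.log n) / Real.log ((m : ℝ) + len l m) /
          Real.log (m : ℝ) := by
      field_simp
    rw [e]
    apply div_le_div_of_nonneg_right _ hL0.le
    rw [div_le_iff₀ hL1, Finset.sum_mul]
    refine Finset.sum_le_sum fun n hn => ?_
    apply mul_le_mul_of_nonneg_left _ (lvl_nonneg h n)
    obtain ⟨hn1, hn2⟩ := Finset.mem_Ioc.1 hn
    apply Real.log_le_log
    · exact_mod_cast (by omega : 0 < n)
    · exact_mod_cast hn2
  · filter_upwards [eventually_ge_atTop 8] with m hm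
    have hm' : (8 : ℝ) ≤ m := by exact_mod_cast hm
    have hL0 : 0 < Real.log (m : ℝ) := Real.log_pos (by linarith)
    rw [div_le_div_iff₀ hL0 (by positivity)]
    have key : (∑ n ∈ win l m, lvl W E n) * Real.log (m : ℝ) ≤
        ∑ n ∈ win l m, lvl W E n * Real.log n := by
      rw [Finset.sum_mul]
      refine Finset.sum_le_sum fun n hn => ?_
      apply mul_le_mul_of_nonneg_left _ (lvl_nonneg h n)
      obtain ⟨hn1, hn2⟩ := Finset.mem_Ioc.1 hn
      apply Real.log_le_log (by linarith)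
      exact_mod_cast hn1.le
    nlinarith

theorem lvl_good (h : Level W E) : GoodWeight (lvl W E) where
  nonneg := lvl_nonneg h
  loc := lvl_locDens h
  comp := by
    intro C ε hC hε
    -- ratio close to one
    obtain ⟨δ, hδ0, hδ1, hδ⟩ : ∃ δ : ℝ, 0 < δ ∧ δ < 1 ∧ (1 + δ) / (1 - δ) ^ 2 ≤ 1 + ε := by
      have hc : ContinuousAt (fun x : ℝ => (1 + x) / (1 - x) ^ 2) 0 := by
        apply ContinuousAt.div (by fun_prop) (by fun_prop)
        norm_num
      have h0 : (1 + (0 : ℝ)) / (1 - 0) ^ 2 < 1 + ε := by norm_num; exact hε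
      have h1 := hc.eventually (gt_mem_nhds h0)
      have h2 : ∀ᶠ x : ℝ in 𝓝[>] 0, (1 + x) / (1 - x) ^ 2 < 1 + ε :=
        h1.filter_mono nhdsWithin_le_nhds
      have h3 : ∀ᶠ x : ℝ in 𝓝[>] 0, x < 1 :=
        (eventually_lt_nhds one_pos).filter_mono nhdsWithin_le_nhds
      have h4 : ∀ᶠ x : ℝ in 𝓝[>] 0, 0 < x := eventually_mem_nhdsWithin
      obtain ⟨x, hx1, hx2, hx3⟩ := (h2.and (h3.and h4)).exists
      exact ⟨x, hx3, hx2, hx1.le⟩
    have hr := h.ratio.comp tendsto_log2
    have hr1 : ∀ᶠ m : ℕ in atTop, 1 - δ < E (Nat.log 2 m) / E (Nat.log 2 m + 1) :=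
      hr.eventually (lt_mem_nhds (by linarith))
    have hr2 : ∀ᶠ m : ℕ in atTop, E (Nat.log 2 m) / E (Nat.log 2 m + 1) < 1 + δ :=
      hr.eventually (gt_mem_nhds (by linarith))
    have hl : ∀ᶠ m : ℕ in atTop, Real.log ((m : ℝ) + len C m) / Real.log (m : ℝ) < 1 / (1 - δ) :=
      (tendsto_log_add_len_div hC.le).eventually (gt_mem_nhds (by
        rw [lt_div_iff₀ (by linarith)]; linarith))
    filter_upwards [hr1, hr2, hl, eventually_len_le hC, eventually_ge_atTop 8] with
      m hr1 hr2 hl hL hm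
    set j := Nat.log 2 m with hj
    have hm' : (8 : ℝ) ≤ m := by exact_mod_cast hm
    have hL0 : 0 < Real.log (m : ℝ) := Real.log_pos (by linarith)
    have hE1 := h.epos j
    have hE2 := h.epos (j + 1)
    rw [lt_div_iff₀ hE2] at hr1
    rw [div_lt_iff₀ hE2] at hr2
    rw [div_lt_iff₀ hL0] at hl
    have h1δ : 0 < 1 - δ := by linarith
    -- the minimum
    refine ⟨(1 - δ) ^ 2 * (E j)⁻¹ / Real.log (m : ℝ), by positivity, fun n hn => ?_⟩
    obtain ⟨hn1, hn2⟩ := Finset.mem_Ioc.1 hn
    have hn8 : 8 ≤ n := by omega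
    have hLn : Real.log (m : ℝ) ≤ Real.log (n : ℝ) :=
      Real.log_le_log (by linarith) (by exact_mod_cast hn1.le)
    have hLn2 : (1 - δ) * Real.log (n : ℝ) ≤ Real.log (m : ℝ) := by
      have h1 : Real.log (n : ℝ) ≤ Real.log ((m : ℝ) + len C m) :=
        Real.log_le_log (by exact_mod_cast (by omega : 0 < n)) (by exact_mod_cast hn2)
      have h2 : Real.log (n : ℝ) ≤ 1 / (1 - δ) * Real.log (m : ℝ) := h1.trans hl.le
      calc (1 - δ) * Real.log (n : ℝ) ≤ (1 - δ) * (1 / (1 - δ) * Real.log (m : ℝ)) := by gcongr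
        _ = Real.log (m : ℝ) := by field_simp
    have hLn0 : 0 < Real.log (n : ℝ) := lt_of_lt_of_le hL0 hLn
    unfold lvl
    by_cases hc : n.Coprime (W (Nat.log 2 n))
    · right
      rw [if_pos ⟨hn8, hc⟩]
      -- bounds for the inverse density
      have hEn : (1 - δ) * (E j)⁻¹ ≤ (E (Nat.log 2 n))⁻¹ ∧
          (E (Nat.log 2 n))⁻¹ ≤ (1 + δ) * (E j)⁻¹ := by
        rcases log2_window (by omega : 1 ≤ m) hL hn1.le hn2 with h3 | h3
        · rw [h3, ← hj]
          have := inv_pos.2 hE1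
          constructor <;> nlinarith
        · rw [h3, ← hj]
          constructor
          · rw [← div_eq_mul_inv, inv_eq_one_div, div_le_div_iff₀ hE1 hE2]
            linarith
          · rw [← div_eq_mul_inv, inv_eq_one_div, div_le_div_iff₀ hE2 hE1]
            linarith
      constructor
      · rw [div_le_div_iff₀ hL0 hLn0]
        have h4 : (1 - δ) ^ 2 * (E j)⁻¹ * Real.log (n : ℝ) =
            ((1 - δ) * (E j)⁻¹) * ((1 - δ) * Real.log (n : ℝ)) := by ring
        rw [h4]
        exact mul_le_mul hEn.1 hLn2 (by positivity) (by linarith [inv_pos.2 (h.epos (Nat.log 2 n))])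
      · have h5 : (E (Nat.log 2 n))⁻¹ / Real.log (n : ℝ) ≤ (1 + δ) * (E j)⁻¹ / Real.log (m : ℝ) := by
          have := inv_pos.2 hE1
          exact div_le_div₀ (by positivity) hEn.2 hL0 hLn
        refine h5.trans ?_
        rw [← mul_div_assoc]
        apply div_le_div_of_nonneg_right _ hL0.le
        have h6 : (1 + δ) ≤ (1 + ε) * (1 - δ) ^ 2 := by
          rwa [div_le_iff₀ (by positivity)] at hδ
        have := inv_pos.2 hE1
        nlinarith
    · left
      rw [if_neg (fun h => hc h.2)]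

/-- the flat density -/
noncomputable def flat (n : ℕ) : ℝ := if 8 ≤ n then 1 / Real.log n else 0

theorem flat_good : GoodWeight flat := by
  have h : Level (fun _ => 1) (fun _ => 1) := by
    refine ⟨fun _ => one_pos, fun _ => by simp, fun _ => le_rfl, fun _ => one_pos, ?_, ?_, ?_⟩
    · have h1 : Tendsto (fun j : ℕ => ((j : ℝ) ^ 2)⁻¹) atTop (𝓝 0) :=
        ((tendsto_pow_atTop two_ne_zero).comp tendsto_natCast_atTop_atTop).inv_tendsto_atTop
      refine h1.congr fun j => ?_
      simp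
    · have h1 : Tendsto (fun j : ℕ => ((j : ℝ))⁻¹) atTop (𝓝 0) :=
        (tendsto_natCast_atTop_atTop (R := ℝ)).inv_tendsto_atTop
      refine h1.congr fun j => ?_
      simp
    · simp
  have e : flat = lvl (fun _ => 1) (fun _ => 1) := by
    funext n
    unfold flat lvl
    simp
  rw [e]
  exact lvl_good h

theorem dens_good : GoodWeight dens := by
  have h : Level (fun j => primorial (Nat.log 2 j / 4)) (fun j => euler (Nat.log 2 j / 4)) := by
    refine ⟨fun j => primorial_pos _, fun j => totient_primorial _, fun j => ?_,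
      fun j => euler_pos _, ?_, ?_, ?_⟩
    · exact euler_le_one _
    · -- W E^{-1} / j^2 ≤ j * j / j^2... use W ≤ sqrt-type bound
      have hb : ∀ j : ℕ, 64 ≤ j → (primorial (Nat.log 2 j / 4) : ℝ) * (euler (Nat.log 2 j / 4))⁻¹ /
          (j : ℝ) ^ 2 ≤ Real.log j * (2 / j) := by
        intro j hj
        have hj' : (64 : ℝ) ≤ j := by exact_mod_cast hj
        have h1 : primorial (Nat.log 2 j / 4) ≤ 4 ^ (Nat.log 2 j / 4) := primorial_le_four_pow _
        have h2 : 4 ^ (Nat.log 2 j / 4) ≤ 2 ^ Nat.log 2 j := by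
          calc 4 ^ (Nat.log 2 j / 4) = 2 ^ (2 * (Nat.log 2 j / 4)) := by rw [pow_mul]; norm_num
            _ ≤ 2 ^ Nat.log 2 j := Nat.pow_le_pow_right (by norm_num) (by omega)
        have h3 : 2 ^ Nat.log 2 j ≤ j := Nat.pow_log_le_self 2 (by omega)
        have h4 : (primorial (Nat.log 2 j / 4) : ℝ) ≤ j := by exact_mod_cast (h1.trans h2).trans h3
        have h5 : (euler (Nat.log 2 j / 4))⁻¹ ≤ 2 * Real.log j := by
          refine (inv_euler_le _).trans (max_le ?_ ?_)
          · have : 1 ≤ Real.log (j : ℝ) := by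
              rw [Real.le_log_iff_exp_le (by linarith)]
              linarith [Real.exp_one_lt_d9]
            linarith
          · have h6 : ((Nat.log 2 j / 4 : ℕ) : ℝ) ≤ (Nat.log 2 j : ℝ) := by
              exact_mod_cast Nat.div_le_self _ _
            have h7 := (log_bounds (by omega : 1 ≤ j)).1
            have h8 := Real.log_two_gt_d9
            have h9 : (0 : ℝ) ≤ (Nat.log 2 j : ℝ) := Nat.cast_nonneg _
            nlinarith
        have h6 : 0 < (euler (Nat.log 2 j / 4))⁻¹ := inv_pos.2 (euler_pos _)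
        calc (primorial (Nat.log 2 j / 4) : ℝ) * (euler (Nat.log 2 j / 4))⁻¹ / (j : ℝ) ^ 2
            ≤ (j : ℝ) * (2 * Real.log j) / (j : ℝ) ^ 2 := by gcongr
          _ = Real.log j * (2 / j) := by field_simp
      have ht : Tendsto (fun j : ℕ => Real.log (j : ℝ) * (2 / (j : ℝ))) atTop (𝓝 0) := by
        have h0 : Tendsto (fun x : ℝ => 2 * (Real.log x / x)) atTop (𝓝 (2 * 0)) := by
          have := Real.isLittleO_log_id_atTop.tendsto_div_nhds_zero
          exact this.const_mul 2
        rw [mul_zero] at h0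
        refine (h0.comp tendsto_natCast_atTop_atTop).congr fun j => ?_
        simp only [Function.comp]
        ring
      refine squeeze_zero' (Eventually.of_forall fun j => ?_) ?_ ht
      · have := inv_pos.2 (euler_pos (Nat.log 2 j / 4))
        positivity
      · filter_upwards [eventually_ge_atTop 64] with j hj
        exact hb j hj
    · have ht : Tendsto (fun j : ℕ => 2 * (Real.log (j : ℝ) / (j : ℝ))) atTop (𝓝 0) := by
        have h0 : Tendsto (fun x : ℝ => 2 * (Real.log x / x)) atTop (𝓝 (2 * 0)) := by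
          have := Real.isLittleO_log_id_atTop.tendsto_div_nhds_zero
          exact this.const_mul 2
        rw [mul_zero] at h0
        exact h0.comp tendsto_natCast_atTop_atTop
      refine squeeze_zero' (Eventually.of_forall fun j => ?_) ?_ ht
      · have := inv_pos.2 (euler_pos (Nat.log 2 j / 4))
        positivity
      · filter_upwards [eventually_ge_atTop 64] with j hj
        have hj' : (64 : ℝ) ≤ j := by exact_mod_cast hj
        have h5 : (euler (Nat.log 2 j / 4))⁻¹ ≤ 2 * Real.log j := by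
          refine (inv_euler_le _).trans (max_le ?_ ?_)
          · have : 1 ≤ Real.log (j : ℝ) := by
              rw [Real.le_log_iff_exp_le (by linarith)]
              linarith [Real.exp_one_lt_d9]
            linarith
          · have h6 : ((Nat.log 2 j / 4 : ℕ) : ℝ) ≤ (Nat.log 2 j : ℝ) := by
              exact_mod_cast Nat.div_le_self _ _
            have h7 := (log_bounds (by omega : 1 ≤ j)).1
            have h8 := Real.log_two_gt_d9
            have h9 : (0 : ℝ) ≤ (Nat.log 2 j : ℝ) := Nat.cast_nonneg _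
            nlinarith
        calc (euler (Nat.log 2 j / 4))⁻¹ / (j : ℝ) ≤ 2 * Real.log j / j := by gcongr
          _ = 2 * (Real.log (j : ℝ) / (j : ℝ)) := by ring
    · -- ratio
      have hT : Tendsto (fun j : ℕ => Nat.log 2 j / 4) atTop atTop := by
        rw [tendsto_atTop]
        intro b
        filter_upwards [tendsto_log2.eventually_ge_atTop (4 * b)] with j hj
        omega
      have hup : Tendsto (fun j : ℕ => 1 + 2 / ((Nat.log 2 j / 4 : ℕ) : ℝ)) atTop (𝓝 1) := by
        have h1 : Tendsto (fun t : ℕ => 2 / (t : ℝ)) atTop (𝓝 0) :=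
          tendsto_const_div_atTop_nhds_zero_nat 2
        have := (h1.comp hT).const_add 1
        simpa using this
      refine tendsto_of_tendsto_of_tendsto_of_le_of_le' tendsto_const_nhds hup ?_ ?_
      · filter_upwards [eventually_ge_atTop 64] with j hj
        rw [le_div_iff₀ (euler_pos _), one_mul]
        -- euler is antitone
        have hanti : ∀ s t : ℕ, s ≤ t → euler t ≤ euler s := by
          intro s t hst
          induction t, hst using Nat.le_induction with
          | base => exact le_rfl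
          | succ t _ ih =>
            refine le_trans ?_ ih
            rw [euler_succ]
            split_ifs
            · have h2 := euler_pos t
              have h3 : (0 : ℝ) ≤ 1 / ((t + 1 : ℕ) : ℝ) := by positivity
              nlinarith
            · exact le_rfl
        exact hanti _ _ (Nat.div_le_div_right (Nat.log_mono_right (by omega)))
      · filter_upwards [hT.eventually_ge_atTop 2, eventually_ge_atTop 64] with j hj hj64
        set t := Nat.log 2 j / 4 with ht
        have ht2 : (2 : ℝ) ≤ t := by exact_mod_cast hj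
        -- the next sieving limit is `t` or `t + 1`
        have h1 : Nat.log 2 (j + 1) / 4 = t ∨ Nat.log 2 (j + 1) / 4 = t + 1 := by
          have h2 : Nat.log 2 j ≤ Nat.log 2 (j + 1) := Nat.log_mono_right (by omega)
          have h3 : Nat.log 2 (j + 1) ≤ Nat.log 2 (j * 2) := Nat.log_mono_right (by omega)
          have h4 : Nat.log 2 (j * 2) = Nat.log 2 j + 1 := Nat.log_mul_base (by norm_num) (by omega)
          omega
        have hpos : (0 : ℝ) ≤ 2 / (t : ℝ) := by positivity
        rcases h1 with h1 | h1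
        · rw [h1, div_self (euler_pos _).ne']
          linarith
        · rw [h1, div_le_iff₀ (euler_pos _), euler_succ]
          have h2 := euler_pos t
          split_ifs
          · have h3 : 1 ≤ (1 + 2 / (t : ℝ)) * (1 - 1 / ((t + 1 : ℕ) : ℝ)) := by
              push_cast
              rw [show (1 + 2 / (t : ℝ)) * (1 - 1 / ((t : ℝ) + 1)) =
                (t + 2) / (t + 1) by field_simp; ring, le_div_iff₀ (by positivity)]
              linarith
            nlinarith
          · nlinarith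
  have e : dens = lvl (fun j => primorial (Nat.log 2 j / 4)) (fun j => euler (Nat.log 2 j / 4)) := by
    funext n
    rfl
  rw [e]
  exact lvl_good h

end Pool.Agent.LibCramer
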