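import Pool.Agent.LibCI7.Upper

/-!
Lower bound for the Cramer constant under independence of order `t log n`: second moment.
-/

namespace Pool.Agent.LibCramer

open Finset MeasureTheory ProbabilityTheory Filter Topology
open Pool.Agent.LibCramer.LowerTail (tendsto_logn factorial_le tendsto_log_add_len_div tendsto_len_div)

variable {Ω : Type*} [MeasurableSpace Ω] {μ : Measure Ω}

/-- Rao's bound with a Chernoff estimate for the tail -/
lemma avoid_mul_le_prod [IsProbabilityMeasure μ] {E : ℕ → Set Ω} (hE : ∀ n, MeasurableSet (E n))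
    {W : Finset ℕ} {m : ℕ} (hK : KProd E μ W (2 * m)) {η : ℝ} (hη : η ≤ 1 / 2)
    (hp : ∀ j ∈ W, μ.real (E j) ≤ η) {z M : ℝ} (hz : 1 ≤ z) (hM : ∑ j ∈ W, μ.real (E j) ≤ M) :
    μ.real (Avoid E W) * (1 - Real.exp ((z * (1 + 2 * η) - 1) * M) / z ^ m) ≤
      ∏ j ∈ W, (1 - μ.real (E j)) := by
  have hz0 : 0 < z := by linarith
  have hp1 : ∀ j ∈ W, μ.real (E j) < 1 := fun j hj => lt_of_le_of_lt (hp j hj) (by linarith)
  have hp0 : ∀ j, 0 ≤ μ.real (E j) := fun j => measureReal_nonneg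
  have hodds0 : ∀ j ∈ W, 0 ≤ odds E μ j := fun j hj => (hp0 j).trans (odds_ge (hp1 j hj))
  have hrao := rao hE hK hp1 le_rfl
  have hS := sum_esum_ge hodds0 hz m
  set a := ∏ j ∈ W, (1 - μ.real (E j)) with ha
  have ha0 : 0 < a := Finset.prod_pos fun j hj => by linarith [hp1 j hj]
  have e1 : a * ∏ j ∈ W, (1 + odds E μ j) = 1 := by
    rw [ha, ← Finset.prod_mul_distrib]
    refine Finset.prod_eq_one fun j hj => ?_
    have : (1 - μ.real (E j)) ≠ 0 := by linarith [hp1 j hj]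
    unfold odds
    field_simp
    ring
  have e2 : ∏ j ∈ W, (1 + z * odds E μ j) ≤ Real.exp (z * (1 + 2 * η) * ∑ j ∈ W, μ.real (E j)) := by
    rw [Finset.mul_sum, Real.exp_sum]
    refine Finset.prod_le_prod (fun j hj => ?_) fun j hj => ?_
    · have := mul_nonneg hz0.le (hodds0 j hj)
      linarith
    · have h1 := Real.add_one_le_exp (z * (1 + 2 * η) * μ.real (E j))
      have h2 := mul_le_mul_of_nonneg_left (odds_le hη (hp j hj)) hz0.le
      linarith
  have e3 : a ≤ Real.exp (-∑ j ∈ W, μ.real (E j)) := by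
    rw [← Finset.sum_neg_distrib, Real.exp_sum]
    refine Finset.prod_le_prod (fun j hj => by linarith [hp1 j hj]) fun j hj => ?_
    have h1 := Real.add_one_le_exp (-μ.real (E j))
    linarith
  rcases W.eq_empty_or_nonempty with hWe | hWne
  · subst hWe
    have h1 : μ.real (Avoid E ∅) ≤ 1 := measureReal_le_one
    have h2 : 0 ≤ μ.real (Avoid E ∅) := measureReal_nonneg
    have h3 : 0 ≤ Real.exp ((z * (1 + 2 * η) - 1) * M) / z ^ m := by positivity
    have h4 : a = 1 := by simp [ha]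
    rw [h4]
    nlinarith
  obtain ⟨j0, hj0⟩ := hWne
  have hη0 : 0 ≤ η := (hp0 j0).trans (hp j0 hj0)
  have hzz : 0 ≤ z * (1 + 2 * η) - 1 := by nlinarith
  have e4 : a * ((∏ j ∈ W, (1 + z * odds E μ j)) / z ^ m) ≤
      Real.exp ((z * (1 + 2 * η) - 1) * M) / z ^ m := by
    rw [← mul_div_assoc, div_le_div_iff_of_pos_right (by positivity)]
    calc a * ∏ j ∈ W, (1 + z * odds E μ j)
        ≤ Real.exp (-∑ j ∈ W, μ.real (E j)) *
          Real.exp (z * (1 + 2 * η) * ∑ j ∈ W, μ.real (E j)) := by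
          refine mul_le_mul e3 e2 (Finset.prod_nonneg fun j hj => ?_) (Real.exp_pos _).le
          have := mul_nonneg hz0.le (hodds0 j hj)
          linarith
      _ = Real.exp ((z * (1 + 2 * η) - 1) * ∑ j ∈ W, μ.real (E j)) := by
          rw [← Real.exp_add]
          congr 1
          ring
      _ ≤ _ := Real.exp_le_exp.2 (mul_le_mul_of_nonneg_left hM hzz)
  have hP0 : 0 ≤ μ.real (Avoid E W) := measureReal_nonneg
  have e5 : 1 - Real.exp ((z * (1 + 2 * η) - 1) * M) / z ^ m ≤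
      a * ∑ k ∈ Finset.range (m + 1), esum W (odds E μ) k := by
    have := mul_le_mul_of_nonneg_left hS ha0.le
    rw [mul_sub, e1] at this
    linarith
  calc μ.real (Avoid E W) * (1 - Real.exp ((z * (1 + 2 * η) - 1) * M) / z ^ m)
      ≤ μ.real (Avoid E W) * (a * ∑ k ∈ Finset.range (m + 1), esum W (odds E μ) k) :=
        mul_le_mul_of_nonneg_left e5 hP0
    _ = a * (μ.real (Avoid E W) * ∑ k ∈ Finset.range (m + 1), esum W (odds E μ) k) := by ring
    _ ≤ a * 1 := mul_le_mul_of_nonneg_left hrao ha0.le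
    _ = a := mul_one a

/-- Bonferroni's bound with `2 ⌊2 M⌋` terms -/
lemma avoid_ge_prod [IsProbabilityMeasure μ] {E : ℕ → Set Ω} (hE : ∀ n, MeasurableSet (E n))
    {W : Finset ℕ} {M : ℝ} (hM0 : 0 ≤ M) (hK : KProd E μ W (2 * ⌊2 * M⌋₊))
    (hM : ∑ j ∈ W, μ.real (E j) ≤ M) :
    ∏ j ∈ W, (1 - μ.real (E j)) - 16 * Real.exp (-(3 / 2 * M)) ≤ μ.real (Avoid E W) := by
  set r := ⌊2 * M⌋₊ with hr
  have h1 := bonf hE hK le_rfl
  have h2 : 4 * M - 2 < ((2 * r : ℕ) : ℝ) := by
    have := Nat.lt_floor_add_one (2 * M)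
    push_cast
    linarith
  have hs0 : 0 ≤ ∑ j ∈ W, μ.real (E j) := Finset.sum_nonneg fun j _ => measureReal_nonneg
  have hf : (0 : ℝ) < ((2 * r).factorial : ℝ) := by exact_mod_cast Nat.factorial_pos _
  have h3 : (∑ j ∈ W, μ.real (E j)) ^ (2 * r) / ((2 * r).factorial : ℝ) ≤
      M ^ (2 * r) / ((2 * r).factorial : ℝ) := by
    rw [div_le_div_iff_of_pos_right hf]
    exact pow_le_pow_left₀ hs0 hM _
  have h4 : M ^ (2 * r) / ((2 * r).factorial : ℝ) ≤ Real.exp (4 * M) / 4 ^ (2 * r) := by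
    have h5 := Real.pow_div_factorial_le_exp (4 * M) (by positivity) (2 * r)
    rw [mul_pow] at h5
    rw [le_div_iff₀ (by positivity)]
    calc M ^ (2 * r) / ((2 * r).factorial : ℝ) * 4 ^ (2 * r)
        = 4 ^ (2 * r) * M ^ (2 * r) / ((2 * r).factorial : ℝ) := by ring
      _ ≤ _ := h5
  have h5 : Real.exp (4 * M) / 4 ^ (2 * r) ≤ 16 * Real.exp (-(3 / 2 * M)) := by
    have h6 : (4 : ℝ) ^ (2 * r) = Real.exp (Real.log 4 * ((2 * r : ℕ) : ℝ)) := by
      rw [mul_comm (Real.log 4), ← Real.log_pow, Real.exp_log (by positivity)]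
    have h7 : Real.log 4 = 2 * Real.log 2 := by
      rw [show (4 : ℝ) = 2 ^ 2 by norm_num, Real.log_pow]
      norm_num
    have h8 : (16 : ℝ) = Real.exp (Real.log 4 * 2) := by
      have h81 : Real.log 4 * 2 = Real.log ((4 : ℝ) ^ 2) := by
        rw [Real.log_pow]
        push_cast
        ring
      rw [h81, Real.exp_log (by positivity)]
      norm_num
    rw [h6, h8, ← Real.exp_sub, ← Real.exp_add]
    apply Real.exp_le_exp.2
    have h9 : 0 < Real.log 4 := Real.log_pos (by norm_num)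
    have h10 : Real.log 4 * (4 * M - 2) ≤ Real.log 4 * ((2 * r : ℕ) : ℝ) :=
      mul_le_mul_of_nonneg_left h2.le h9.le
    have h11 := Real.log_two_gt_d9
    rw [h7] at h10 ⊢
    nlinarith
  linarith

/-- a second moment bound -/
lemma second_moment [IsProbabilityMeasure μ] {F : ℕ → Set Ω} (hF : ∀ i, MeasurableSet (F i))
    {a : ℕ → ℝ} {R : ℕ} {δ : ℝ}
    (ha : ∀ i ∈ Finset.range R, 0 ≤ a i)
    (h1 : ∀ i ∈ Finset.range R, (1 - δ) * a i ≤ μ.real (F i))
    (h2 : ∀ i ∈ Finset.range R, μ.real (F i) ≤ (1 + δ) * a i)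
    (h3 : ∀ i ∈ Finset.range R, ∀ j ∈ Finset.range R, i ≠ j →
      μ.real (F i ∩ F j) ≤ (1 + δ) * (a i * a j))
    (hδ : 0 ≤ δ) (hA : 0 < ∑ i ∈ Finset.range R, a i) :
    μ.real (⋂ i ∈ Finset.range R, (F i)ᶜ) ≤ (1 + δ) / (∑ i ∈ Finset.range R, a i) + 3 * δ := by
  classical
  set A := ∑ i ∈ Finset.range R, a i with hAdef
  set χ : ℕ → Ω → ℝ := fun i ω => (F i).indicator (fun _ => (1 : ℝ)) ω with hχ
  have hχint : ∀ i, Integrable (χ i) μ := fun i => (integrable_const (1 : ℝ)).indicator (hF i)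
  have hχ1 : ∀ i, ∫ ω, χ i ω ∂μ = μ.real (F i) := fun i => by
    simp only [hχ]
    rw [integral_indicator_const _ (hF i)]
    simp
  have hχχ : ∀ i j, (fun ω => χ i ω * χ j ω) = (F i ∩ F j).indicator (fun _ => (1 : ℝ)) := by
    intro i j
    funext ω
    by_cases hi : ω ∈ F i <;> by_cases hj : ω ∈ F j <;> simp [hχ, hi, hj]
  have hχχint : ∀ i j, Integrable (fun ω => χ i ω * χ j ω) μ := fun i j => by
    rw [hχχ]
    exact (integrable_const (1 : ℝ)).indicator ((hF i).inter (hF j))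
  have hχχ1 : ∀ i j, ∫ ω, χ i ω * χ j ω ∂μ = μ.real (F i ∩ F j) := fun i j => by
    rw [hχχ, integral_indicator_const _ ((hF i).inter (hF j))]
    simp
  set Z : Ω → ℝ := fun ω => ∑ i ∈ Finset.range R, χ i ω with hZ
  have hZint : Integrable Z μ := integrable_finsetSum _ fun i _ => hχint i
  have hZ2 : ∀ ω, Z ω ^ 2 = ∑ i ∈ Finset.range R, ∑ j ∈ Finset.range R, χ i ω * χ j ω := by
    intro ω
    rw [sq, hZ, Finset.sum_mul_sum]
  have hZ2int : Integrable (fun ω => Z ω ^ 2) μ := by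
    simp_rw [hZ2]
    exact integrable_finsetSum _ fun i _ => integrable_finsetSum _ fun j _ => hχχint i j
  have hEZ : ∫ ω, Z ω ∂μ = ∑ i ∈ Finset.range R, μ.real (F i) := by
    simp only [hZ]
    rw [integral_finsetSum _ fun i _ => hχint i]
    exact Finset.sum_congr rfl fun i _ => hχ1 i
  have hEZ2 : ∫ ω, Z ω ^ 2 ∂μ =
      ∑ i ∈ Finset.range R, ∑ j ∈ Finset.range R, μ.real (F i ∩ F j) := by
    simp_rw [hZ2]
    rw [integral_finsetSum _ fun i _ => integrable_finsetSum _ fun j _ => hχχint i j]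
    refine Finset.sum_congr rfl fun i _ => ?_
    rw [integral_finsetSum _ fun j _ => hχχint i j]
    exact Finset.sum_congr rfl fun j _ => hχχ1 i j
  -- bounds
  have b1 : (1 - δ) * A ≤ ∑ i ∈ Finset.range R, μ.real (F i) := by
    rw [hAdef, Finset.mul_sum]
    exact Finset.sum_le_sum h1
  have b2 : ∑ i ∈ Finset.range R, μ.real (F i) ≤ (1 + δ) * A := by
    rw [hAdef, Finset.mul_sum]
    exact Finset.sum_le_sum h2
  have b3 : ∑ i ∈ Finset.range R, ∑ j ∈ Finset.range R, μ.real (F i ∩ F j) ≤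
      (1 + δ) * A + (1 + δ) * A ^ 2 := by
    have h4 : ∀ i ∈ Finset.range R, ∀ j ∈ Finset.range R, μ.real (F i ∩ F j) ≤
        (if i = j then (1 + δ) * a i else 0) + (1 + δ) * (a i * a j) := by
      intro i hi j hj
      by_cases hij : i = j
      · subst hij
        rw [if_pos rfl, Set.inter_self]
        have := h2 i hi
        have h5 := mul_nonneg (by linarith : (0:ℝ) ≤ 1 + δ) (mul_self_nonneg (a i))
        linarith
      · rw [if_neg hij, zero_add]
        exact h3 i hi j hj hij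
    calc ∑ i ∈ Finset.range R, ∑ j ∈ Finset.range R, μ.real (F i ∩ F j)
        ≤ ∑ i ∈ Finset.range R, ∑ j ∈ Finset.range R,
          ((if i = j then (1 + δ) * a i else 0) + (1 + δ) * (a i * a j)) :=
          Finset.sum_le_sum fun i hi => Finset.sum_le_sum fun j hj => h4 i hi j hj
      _ = (1 + δ) * A + (1 + δ) * A ^ 2 := by
          simp_rw [Finset.sum_add_distrib, Finset.sum_ite_eq]
          have e1 : ∑ i ∈ Finset.range R, (if i ∈ Finset.range R then (1 + δ) * a i else 0) =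
              (1 + δ) * A := by
            rw [hAdef, Finset.mul_sum]
            exact Finset.sum_congr rfl fun i hi => if_pos hi
          have e2 : ∑ i ∈ Finset.range R, ∑ j ∈ Finset.range R, (1 + δ) * (a i * a j) =
              (1 + δ) * A ^ 2 := by
            rw [hAdef, sq, Finset.sum_mul_sum, Finset.mul_sum]
            exact Finset.sum_congr rfl fun i _ => (Finset.mul_sum _ _ _).symm
          rw [e1, e2]
  -- the variance-like integral
  have hV : ∫ ω, (Z ω - A) ^ 2 ∂μ ≤ (1 + δ) * A + 3 * δ * A ^ 2 := by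
    have e1 : ∀ ω, (Z ω - A) ^ 2 = Z ω ^ 2 - 2 * A * Z ω + A ^ 2 := fun ω => by ring
    have e2 : ∫ ω, (Z ω - A) ^ 2 ∂μ = ∫ ω, Z ω ^ 2 ∂μ - 2 * A * ∫ ω, Z ω ∂μ + A ^ 2 := by
      simp_rw [e1]
      have i1 : Integrable (fun ω => Z ω ^ 2 - 2 * A * Z ω) μ :=
        hZ2int.sub (hZint.const_mul _)
      rw [integral_add i1 (integrable_const _),
        integral_sub hZ2int (hZint.const_mul _), integral_const_mul]
      simp
    rw [e2, hEZ, hEZ2]
    nlinarith
  have hAv : MeasurableSet (⋂ i ∈ Finset.range R, (F i)ᶜ) :=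
    Finset.measurableSet_biInter _ fun i _ => (hF i).compl
  have hle : μ.real (⋂ i ∈ Finset.range R, (F i)ᶜ) * A ^ 2 ≤ ∫ ω, (Z ω - A) ^ 2 ∂μ := by
    have h4 : ∫ ω, (⋂ i ∈ Finset.range R, (F i)ᶜ).indicator (fun _ => A ^ 2) ω ∂μ =
        μ.real (⋂ i ∈ Finset.range R, (F i)ᶜ) * A ^ 2 := by
      rw [integral_indicator_const _ hAv]
      simp
    rw [← h4]
    refine integral_mono ((integrable_const _).indicator hAv) ?_ ?_
    · have e1 : (fun ω => (Z ω - A) ^ 2) = fun ω => Z ω ^ 2 - 2 * A * Z ω + A ^ 2 := by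
        funext ω; ring
      rw [e1]
      exact (hZ2int.sub (hZint.const_mul _)).add (integrable_const _)
    · intro ω
      by_cases hω : ω ∈ ⋂ i ∈ Finset.range R, (F i)ᶜ
      · have hZ0 : Z ω = 0 := by
          simp only [hZ]
          refine Finset.sum_eq_zero fun i hi => ?_
          have : ω ∉ F i := Set.mem_iInter₂.1 hω i hi
          simp [hχ, this]
        simp only [Set.indicator_of_mem hω, hZ0]
        linarith [sq_nonneg A, (by ring : (0 - A) ^ 2 = A ^ 2)]
      · simp only [Set.indicator_of_notMem hω]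
        positivity
  have hA2 : 0 < A ^ 2 := by positivity
  have hfin : μ.real (⋂ i ∈ Finset.range R, (F i)ᶜ) * A ^ 2 ≤
      ((1 + δ) / A + 3 * δ) * A ^ 2 := by
    refine (hle.trans hV).trans (le_of_eq ?_)
    field_simp
  exact le_of_mul_le_mul_right hfin hA2

end Pool.Agent.LibCramer
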