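import Pool.Agent.LibCI7.Stage

/-!
Cramer's law under independence of order `t log n`: almost sure statements.
-/

namespace Pool.Agent.LibCramer

open Finset MeasureTheory ProbabilityTheory Filter Topology
open Pool.Agent.LibCramer.LowerTail (tendsto_logn factorial_le tendsto_log_add_len_div tendsto_len_div)

variable {Ω : Type*} [MeasurableSpace Ω] {μ : Measure Ω}

/-- almost surely infinitely many windows are avoided -/
theorem ae_avoid [IsProbabilityMeasure μ] {E : ℕ → Set Ω} (hE : ∀ n, MeasurableSet (E n))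
    {k : ℕ → ℕ} (hind : IndepUpTo E μ k) (hloc : LocDens (fun n => μ.real (E n)))
    {t : ℝ} (hk : ∀ᶠ n : ℕ in atTop, t * Real.log (n : ℝ) ≤ k n)
    {l : ℝ} (hl0 : 0 < l) (hl1 : l < 1) (hlt : 4 * l < t) :
    ∀ᵐ ω ∂μ, ∃ᶠ m : ℕ in atTop, ∀ j, m < j → j ≤ m + len l m → j ∉ {n | ω ∈ E n} := by
  -- the event that some window beyond `K` is avoided
  have key : ∀ K : ℕ, ∀ᵐ ω ∂μ, ∃ m : ℕ, K ≤ m ∧ ∀ j, m < j → j ≤ m + len l m →
      j ∉ {n | ω ∈ E n} := by
    intro K
    rw [ae_iff]
    set bad := {ω | ¬ ∃ m : ℕ, K ≤ m ∧ ∀ j, m < j → j ≤ m + len l m → j ∉ {n | ω ∈ E n}}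
      with hbad
    have h1 : ∀ δ : ℝ, 0 < δ → δ ≤ 1 → μ bad ≤ ENNReal.ofReal (5 * δ) := by
      intro δ hδ0 hδ1
      obtain ⟨N, hN, hNK, hN1⟩ := ((stage hE hind hloc hk hl0 hl1 hlt hδ0 hδ1).and
        ((eventually_ge_atTop K).and (eventually_ge_atTop 1))).exists
      refine le_trans (measure_mono (t := ⋂ i ∈ Finset.range (N / len l (2 * N)),
          (Avoid E (Finset.Ioc (N + i * len l (2 * N))
            (N + i * len l (2 * N) + len l (2 * N))))ᶜ) ?_) ?_
      · intro ω hω
        simp only [Set.mem_iInter, Finset.mem_range]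
        intro i hi hav
        apply hω
        refine ⟨N + i * len l (2 * N), by omega, fun j hj1 hj2 hj3 => ?_⟩
        rw [mem_Avoid] at hav
        refine hav j (Finset.mem_Ioc.2 ⟨hj1, hj2.trans ?_⟩) hj3
        have h2 : len l (N + i * len l (2 * N)) ≤ len l (2 * N) := by
          have h3 : N + i * len l (2 * N) ≤ 2 * N := by
            have h4 : i * len l (2 * N) ≤ N / len l (2 * N) * len l (2 * N) :=
              Nat.mul_le_mul_right _ hi.le
            have h5 := Nat.div_mul_le_self N (len l (2 * N))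
            omega
          unfold len
          apply Nat.floor_mono
          have h6 : (0 : ℝ) ≤ Real.log ((N + i * len l (2 * N) : ℕ) : ℝ) := by
            apply Real.log_nonneg
            have : 1 ≤ N + i * len l (2 * N) := by omega
            exact_mod_cast this
          have h7 : Real.log ((N + i * len l (2 * N) : ℕ) : ℝ) ≤
              Real.log ((2 * N : ℕ) : ℝ) := by
            apply Real.log_le_log
            · have : 0 < N + i * len l (2 * N) := by omega
              exact_mod_cast this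
            · exact_mod_cast h3
          exact mul_le_mul_of_nonneg_left (pow_le_pow_left₀ h6 h7 2) hl0.le
        omega
      · rw [← ENNReal.ofReal_toReal (measure_ne_top μ _)]
        exact ENNReal.ofReal_le_ofReal hN
    have h2 : Tendsto (fun n : ℕ => ENNReal.ofReal (5 * (1 / ((n : ℝ) + 1)))) atTop (𝓝 0) := by
      have h3 : Tendsto (fun n : ℕ => 5 * (1 / ((n : ℝ) + 1))) atTop (𝓝 (5 * 0)) :=
        (tendsto_one_div_add_atTop_nhds_zero_nat (𝕜 := ℝ)).const_mul 5
      rw [mul_zero] at h3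
      have := ENNReal.tendsto_ofReal h3
      rwa [ENNReal.ofReal_zero] at this
    have h3 : μ bad ≤ 0 := ge_of_tendsto' h2 fun n => h1 _ (by positivity) (by
      rw [div_le_one (by positivity)]
      have : (0 : ℝ) ≤ n := Nat.cast_nonneg n
      linarith)
    exact le_antisymm h3 bot_le
  filter_upwards [ae_all_iff.2 key] with ω hω
  rw [frequently_atTop]
  intro K
  obtain ⟨m, hm, hm2⟩ := hω K
  exact ⟨m, hm, hm2⟩

/-- bounds for the Cramer constant under independence of order `t log n` -/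
theorem cramer_bounds [IsProbabilityMeasure μ] {E : ℕ → Set Ω} (hE : ∀ n, MeasurableSet (E n))
    {k : ℕ → ℕ} (hind : IndepUpTo E μ k) (hloc : LocDens (fun n => μ.real (E n)))
    {t : ℝ} (ht : 0 < t) (hk : ∀ᶠ n : ℕ in atTop, t * Real.log (n : ℝ) ≤ k n) :
    ∀ᵐ ω ∂μ, {n | ω ∈ E n}.Infinite ∧
      ENNReal.ofReal (min 1 (t / 4)) ≤ cramer {n | ω ∈ E n} ∧
      cramer {n | ω ∈ E n} ≤ ENNReal.ofReal (raoBound t) := by
  have h1 := cramer_le_rao hE hind hloc ht hk
  set c := min 1 (t / 4) with hc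
  have hc0 : 0 < c := lt_min one_pos (by positivity)
  have key : ∀ n : ℕ, ∀ᵐ ω ∂μ, ∃ᶠ m : ℕ in atTop,
      ∀ j, m < j → j ≤ m + len (c * (1 - 1 / ((n : ℝ) + 2))) m → j ∉ {n | ω ∈ E n} := by
    intro n
    have hn : (0 : ℝ) < 1 / ((n : ℝ) + 2) := by positivity
    have hn1 : 1 / ((n : ℝ) + 2) < 1 := by
      rw [div_lt_one (by positivity)]
      have : (0 : ℝ) ≤ n := Nat.cast_nonneg n
      linarith
    have hlt : c * (1 - 1 / ((n : ℝ) + 2)) < c := by nlinarith
    refine ae_avoid hE hind hloc hk (mul_pos hc0 (by linarith)) ?_ ?_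
    · exact hlt.trans_le (min_le_left _ _)
    · have := hlt.trans_le (min_le_right 1 (t / 4))
      linarith
  filter_upwards [h1, ae_all_iff.2 key] with ω hω hω2
  refine ⟨hω.1, ?_, hω.2⟩
  have h2 : ∀ n : ℕ, ENNReal.ofReal (c * (1 - 1 / ((n : ℝ) + 2))) ≤ cramer {n | ω ∈ E n} := by
    intro n
    have hn1 : 1 / ((n : ℝ) + 2) < 1 := by
      rw [div_lt_one (by positivity)]
      have : (0 : ℝ) ≤ n := Nat.cast_nonneg n
      linarith
    exact le_cramer hω.1 (mul_nonneg hc0.le (by linarith)) (hω2 n)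
  have h3 : Tendsto (fun n : ℕ => ENNReal.ofReal (c * (1 - 1 / ((n : ℝ) + 2)))) atTop
      (𝓝 (ENNReal.ofReal c)) := by
    apply ENNReal.tendsto_ofReal
    have h4 : Tendsto (fun n : ℕ => 1 / ((n : ℝ) + 2)) atTop (𝓝 0) := by
      have h5 : Tendsto (fun n : ℕ => (n : ℝ) + 2) atTop atTop :=
        tendsto_atTop_add_const_right _ _ tendsto_natCast_atTop_atTop
      have h6 := h5.inv_tendsto_atTop
      refine h6.congr fun n => ?_
      simp
    have := (h4.const_sub 1).const_mul c
    simpa using this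
  exact le_of_tendsto' h3 h2

end Pool.Agent.LibCramer
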