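import Pool.Agent.LibCI7.Cons
import Pool.Agent.LibCI7.Main

/-!
Models with prescribed Cramer constant and independence of order `o(log n)`: existence.
-/

namespace Pool.Agent.LibCramer

open Finset Filter Topology MeasureTheory ProbabilityTheory Pool.Agent.LibBar93
open scoped ENNReal
open Pool.Agent.LibCramer.LowerTail (tendsto_logn factorial_le tendsto_log_add_len_div tendsto_len_div)

attribute [local instance 2000] msFinset

variable {p : ℕ → ℝ} {k : ℕ → ℕ}

/-- the block parameters -/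
noncomputable def lamOf (ls : ℕ → ℝ) (m : ℕ → ℕ) (i c : ℕ) : ℝ :=
  if Even i then 1 / ((m c : ℝ) + 1) else ls (m c)

/-- the recursion for the cut points -/
noncomputable def cutRec (lam : ℕ → ℕ → ℝ) (N : ℕ) : ℕ → ℕ
  | 0 => N
  | i + 1 => cutRec lam N i + len (lam i (cutRec lam N i)) (cutRec lam N i)

lemma eventually_len_pos {l : ℝ} (hl : 0 < l) : ∀ᶠ c : ℕ in atTop, 1 ≤ len l c := by
  have h : Tendsto (fun c : ℕ => l * Real.log (c : ℝ) ^ 2) atTop atTop :=
    ((tendsto_pow_atTop two_ne_zero).comp tendsto_logn).const_mul_atTop hl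
  filter_upwards [h.eventually_ge_atTop 1] with c hc
  unfold len
  rwa [Nat.one_le_floor_iff]

lemma eventually_len_sqrt {l : ℝ} (hl : 0 < l) :
    ∀ᶠ c : ℕ in atTop, (len l c : ℝ) ≤ Real.sqrt c := by
  have h1 : (fun x : ℝ => Real.log x ^ (2 : ℝ)) =o[atTop] fun x : ℝ => x ^ (1 / 2 : ℝ) :=
    isLittleO_log_rpow_rpow_atTop 2 (by norm_num)
  have h2 := h1.bound (c := 1 / l) (by positivity)
  filter_upwards [(tendsto_natCast_atTop_atTop (R := ℝ)).eventually h2, eventually_ge_atTop 3]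
    with c hc hc3
  have hc3' : (3 : ℝ) ≤ c := by exact_mod_cast hc3
  have hL : 0 < Real.log (c : ℝ) := Real.log_pos (by linarith)
  rw [Real.norm_of_nonneg (by positivity), Real.norm_of_nonneg (by positivity),
    Real.rpow_two, ← Real.sqrt_eq_rpow] at hc
  refine (len_le hl.le c).trans ?_
  calc l * Real.log (c : ℝ) ^ 2 ≤ l * (1 / l * Real.sqrt c) := by gcongr
    _ = Real.sqrt c := by field_simp

theorem exists_cuts (hp : GoodWeight p)
    (hk : Tendsto (fun n : ℕ => (k n : ℝ) / Real.log (n : ℝ)) atTop (𝓝 0))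
    (ls : ℕ → ℝ) (hls : ∀ m, 0 < ls m) :
    ∃ (D : Cuts p k) (m : ℕ → ℕ), Tendsto m atTop atTop ∧ ∀ i c, D.lam i c = lamOf ls m i c := by
  classical
  -- what is needed at `c` with index `m`
  set P : ℕ → ℕ → Prop := fun m c =>
    (∃ w : Finset ℕ → ℝ, BLaw (supp p (1 / ((m : ℝ) + 1)) c) p
      ((win (1 / ((m : ℝ) + 1)) c).sup k + 1) w ∧ w ∅ = 0) ∧
    (∃ w : Finset ℕ → ℝ, BLaw (supp p (ls m) c) p ((win (ls m) c).sup k + 1) w ∧
      (c : ℝ) ^ (-(1 / 2) : ℝ) ≤ w ∅) ∧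
    (1 ≤ len (1 / ((m : ℝ) + 1)) c ∧ 1 ≤ len (ls m) c) ∧
    ((len (1 / ((m : ℝ) + 1)) c : ℝ) ≤ Real.sqrt c ∧ (len (ls m) c : ℝ) ≤ Real.sqrt c) with hP
  have hev : ∀ m, ∀ᶠ c in atTop, P m c := by
    intro m
    have hm : (0 : ℝ) < 1 / ((m : ℝ) + 1) := by positivity
    filter_upwards [hp.small_law hk hm, hp.big_law hk (hls m), eventually_len_pos hm,
      eventually_len_pos (hls m), eventually_len_sqrt hm, eventually_len_sqrt (hls m)] with
      c h1 h2 h3 h4 h5 h6
    exact ⟨h1, h2, ⟨h3, h4⟩, ⟨h5, h6⟩⟩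
  obtain ⟨m, hm, hPm⟩ := exists_slow hev
  obtain ⟨N, hN⟩ := eventually_atTop.1 hPm
  set lam := lamOf ls m with hlam
  set c := cutRec lam (max N 16) with hc
  have hc0 : c 0 = max N 16 := rfl
  have hcs : ∀ i, c (i + 1) = c i + len (lam i (c i)) (c i) := fun i => rfl
  have hcN : ∀ i, max N 16 ≤ c i := by
    intro i
    induction i with
    | zero => exact hc0.ge
    | succ i ih => rw [hcs]; omega
  have hPc : ∀ i, P (m (c i)) (c i) := fun i => hN _ ((le_max_left _ _).trans (hcN i))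
  have hlaw : ∀ i, ∃ w : Finset ℕ → ℝ, BLaw (supp p (lam i (c i)) (c i)) p
      ((win (lam i (c i)) (c i)).sup k + 1) w ∧ (Even i → w ∅ = 0) ∧
      (¬ Even i → ((c i : ℕ) : ℝ) ^ (-(1 / 2) : ℝ) ≤ w ∅) := by
    intro i
    by_cases hi : Even i
    · obtain ⟨w, h1, h2⟩ := (hPc i).1
      have e : lam i (c i) = 1 / ((m (c i) : ℝ) + 1) := by
        rw [hlam]; unfold lamOf; rw [if_pos hi]
      rw [e]
      exact ⟨w, h1, fun _ => h2, fun h => absurd hi h⟩
    · obtain ⟨w, h1, h2⟩ := (hPc i).2.1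
      have e : lam i (c i) = ls (m (c i)) := by
        rw [hlam]; unfold lamOf; rw [if_neg hi]
      rw [e]
      exact ⟨w, h1, fun h => absurd h hi, fun _ => h2⟩
  choose w hw1 hw2 hw3 using hlaw
  refine ⟨⟨lam, c, w, hcs, ?_, ?_, ?_, hw1, hw2, hw3⟩, m, hm, fun i c => rfl⟩
  · intro i
    by_cases hi : Even i
    · have e : lam i (c i) = 1 / ((m (c i) : ℝ) + 1) := by
        rw [hlam]; unfold lamOf; rw [if_pos hi]
      rw [e]
      exact (hPc i).2.2.1.1
    · have e : lam i (c i) = ls (m (c i)) := by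
        rw [hlam]; unfold lamOf; rw [if_neg hi]
      rw [e]
      exact (hPc i).2.2.1.2
  · intro i
    by_cases hi : Even i
    · have e : lam i (c i) = 1 / ((m (c i) : ℝ) + 1) := by
        rw [hlam]; unfold lamOf; rw [if_pos hi]
      rw [e]
      exact (hPc i).2.2.2.1
    · have e : lam i (c i) = ls (m (c i)) := by
        rw [hlam]; unfold lamOf; rw [if_neg hi]
      rw [e]
      exact (hPc i).2.2.2.2
  · rw [hc0]
    exact le_max_right _ _

namespace Cuts

variable (D : Cuts p k)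

lemma tendsto_c : Tendsto D.c atTop atTop := D.strictMono.tendsto_atTop

/-- lower bound -/
theorem le_cramer_of {l : ℝ} (hl : 0 ≤ l) (h : ∀ᶠ i in atTop, ¬ Even i → l ≤ D.lam i (D.c i))
    {ω : ℕ → Finset ℕ} (hinf : {n | ω ∈ D.E n}.Infinite)
    (hω : ∃ᶠ i in atTop, ω (2 * i + 1) = ∅) : ENNReal.ofReal l ≤ cramer {n | ω ∈ D.E n} := by
  refine le_cramer hinf hl ?_
  have ht : Tendsto (fun i : ℕ => 2 * i + 1) atTop atTop :=
    tendsto_atTop_atTop.2 fun b => ⟨b, fun a ha => by omega⟩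
  have h1 : ∀ᶠ i in atTop, ¬ Even (2 * i + 1) → l ≤ D.lam (2 * i + 1) (D.c (2 * i + 1)) :=
    ht.eventually h
  have h2 := hω.and_eventually h1
  have ht2 : Tendsto (fun i : ℕ => D.c (2 * i + 1)) atTop atTop := D.tendsto_c.comp ht
  refine ht2.frequently (h2.mono ?_)
  rintro i ⟨hi1, hi2⟩ j hj1 hj2 hj3
  have hodd : ¬ Even (2 * i + 1) := by rw [Nat.even_add_one]; simp
  have hlen : len l (D.c (2 * i + 1)) ≤ len (D.lam (2 * i + 1) (D.c (2 * i + 1)))
      (D.c (2 * i + 1)) := len_mono (hi2 hodd) _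
  have hmem : j ∈ Finset.Ioc (D.c (2 * i + 1)) (D.c (2 * i + 1 + 1)) := by
    rw [Finset.mem_Ioc, D.succ (2 * i + 1)]
    omega
  have h3 : j ∈ ω (D.bi j) := hj3
  rw [D.bi_eq hmem, hi1] at h3
  simp at h3

/-- index of the block start below `n` -/
lemma exists_index {n : ℕ} (h : D.c 0 ≤ n) : ∃ i, D.c i ≤ n ∧ n < D.c (i + 1) := by
  have h1 := D.bi_spec (n := n + 1) (by omega)
  obtain ⟨h2, h3⟩ := Finset.mem_Ioc.1 h1
  refine ⟨D.bi (n + 1), by omega, by omega⟩

lemma c_add_two (i : ℕ) : D.c (i + 2) ≤ 2 * D.c i := by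
  have h1 : (D.c (i + 1) : ℝ) ≤ D.c i + Real.sqrt (D.c i) := by
    rw [D.succ i]; push_cast
    linarith [D.growth i]
  have h2 : (D.c (i + 2) : ℝ) ≤ D.c (i + 1) + Real.sqrt (D.c (i + 1)) := by
    rw [D.succ (i + 1)]; push_cast
    linarith [D.growth (i + 1)]
  have h16 : (16 : ℝ) ≤ D.c i := by exact_mod_cast D.ge16 i
  have hs : Real.sqrt (D.c i) ≤ (D.c i : ℝ) / 4 := by
    rw [Real.sqrt_le_left (by positivity)]
    nlinarith
  have h3 : (D.c (i + 1) : ℝ) ≤ 5 / 4 * D.c i := by linarith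
  have hs2 : Real.sqrt (D.c (i + 1)) ≤ 5 / 16 * D.c i := by
    rw [Real.sqrt_le_left (by positivity)]
    nlinarith
  have h4 : (D.c (i + 2) : ℝ) ≤ 2 * D.c i := by linarith
  exact_mod_cast h4

/-- upper bound -/
theorem cramer_le_of {l l' ε : ℝ} (hl' : 0 ≤ l') (hε : 0 ≤ ε) (hl : l' + 2 * ε < l)
    (h1 : ∀ᶠ i in atTop, ¬ Even i → D.lam i (D.c i) ≤ l')
    (h2 : ∀ᶠ i in atTop, Even i → D.lam i (D.c i) ≤ ε)
    {ω : ℕ → Finset ℕ}
    (hω : ∀ i, Even i → ∃ n ∈ Finset.Ioc (D.c i) (D.c (i + 1)), ω ∈ D.E n) :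
    ∀ᶠ n : ℕ in atTop, ∃ j ∈ {n | ω ∈ D.E n}, n < j ∧ j ≤ n + len l n := by
  have hl0 : 0 < l := by linarith
  obtain ⟨q, hq1, hq2⟩ := exists_between hl
  have hq0 : 0 < q := by linarith
  have hs1 : 1 < Real.sqrt (l / q) := by
    rw [show (1 : ℝ) = Real.sqrt 1 by simp]
    apply Real.sqrt_lt_sqrt zero_le_one
    rw [lt_div_iff₀ hq0]
    linarith
  have hlog := eventually_log_two_mul hs1
  -- index version
  obtain ⟨I, hI⟩ := eventually_atTop.1 (h1.and h2)
  obtain ⟨N, hN⟩ := eventually_atTop.1 hlog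
  filter_upwards [eventually_ge_atTop (max (D.c I) (max (2 * N) (D.c 0)))] with n hn
  have hnI : D.c I ≤ n := (le_max_left _ _).trans hn
  have hnN : 2 * N ≤ n := (le_max_left _ _).trans ((le_max_right _ _).trans hn)
  have hn0 : D.c 0 ≤ n := (le_max_right _ _).trans ((le_max_right _ _).trans hn)
  obtain ⟨i, hi1, hi2⟩ := D.exists_index hn0
  have hIi : I ≤ i := by
    by_contra hcon
    push Not at hcon
    have : D.c (i + 1) ≤ D.c I := D.strictMono.monotone hcon
    omega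
  have h16 := D.ge16 i
  have hci2 := D.c_add_two i
  have hciN : N ≤ D.c i := by
    have h3 : D.c (i + 1) ≤ D.c (i + 2) := D.strictMono.monotone (by omega)
    omega
  have hc0 : (0 : ℝ) < D.c i := by exact_mod_cast (by omega : 0 < D.c i)
  set L := Real.log (2 * (D.c i : ℝ)) with hL
  have hL0 : 0 ≤ L := Real.log_nonneg (by
    have : (16 : ℝ) ≤ D.c i := by exact_mod_cast h16
    linarith)
  have hLle : L ≤ Real.sqrt (l / q) * Real.log (D.c i : ℝ) := hN _ hciN
  -- lengths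
  have hlen : ∀ j, i ≤ j → j ≤ i + 2 → ∀ x : ℝ, 0 ≤ x → D.lam j (D.c j) ≤ x →
      (len (D.lam j (D.c j)) (D.c j) : ℝ) ≤ x * L ^ 2 := by
    intro j hj1 hj2 x hx hxl
    have h3 : len (D.lam j (D.c j)) (D.c j) ≤ len x (D.c j) := len_mono hxl _
    have h4 : (len x (D.c j) : ℝ) ≤ x * Real.log (D.c j : ℝ) ^ 2 := len_le hx _
    have h5 : (D.c j : ℝ) ≤ 2 * D.c i := by
      have : D.c j ≤ D.c (i + 2) := D.strictMono.monotone hj2
      exact_mod_cast this.trans hci2
    have h6 : (1 : ℝ) ≤ D.c j := by exact_mod_cast (by have := D.ge16 j; omega : 1 ≤ D.c j)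
    have h7 : Real.log (D.c j : ℝ) ≤ L := Real.log_le_log (by linarith) h5
    have h8 : Real.log (D.c j : ℝ) ^ 2 ≤ L ^ 2 := pow_le_pow_left₀ (Real.log_nonneg h6) h7 2
    calc (len (D.lam j (D.c j)) (D.c j) : ℝ) ≤ len x (D.c j) := by exact_mod_cast h3
      _ ≤ x * Real.log (D.c j : ℝ) ^ 2 := h4
      _ ≤ x * L ^ 2 := by gcongr
  have hfin : (l' + 2 * ε) * L ^ 2 + 1 ≤ l * Real.log (D.c i : ℝ) ^ 2 ∨ True := Or.inr trivial
  -- the next even block
  obtain ⟨e, he, hie, hbound⟩ : ∃ e, Even e ∧ i + 1 ≤ e ∧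
      ((D.c (e + 1) : ℝ) - D.c i ≤ (l' + 2 * ε) * L ^ 2) := by
    by_cases hev : Even i
    · refine ⟨i + 2, by rw [Nat.even_add]; simp [hev], by omega, ?_⟩
      have hoi : ¬ Even (i + 1) := by rw [Nat.even_add_one]; simpa using hev
      have a1 := hlen i le_rfl (by omega) ε hε ((hI i hIi).2 hev)
      have a2 := hlen (i + 1) (by omega) (by omega) l' hl' ((hI (i + 1) (by omega)).1 hoi)
      have a3 := hlen (i + 2) (by omega) (by omega) ε hε ((hI (i + 2) (by omega)).2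
        (by rw [Nat.even_add]; simp [hev]))
      have b1 : (D.c (i + 1) : ℝ) = D.c i + len (D.lam i (D.c i)) (D.c i) := by
        rw [D.succ i]; push_cast; ring
      have b2 : (D.c (i + 2) : ℝ) = D.c (i + 1) + len (D.lam (i + 1) (D.c (i + 1))) (D.c (i + 1)) := by
        rw [D.succ (i + 1)]; push_cast; ring
      have b3 : (D.c (i + 2 + 1) : ℝ) = D.c (i + 2) +
          len (D.lam (i + 2) (D.c (i + 2))) (D.c (i + 2)) := by
        rw [D.succ (i + 2)]; push_cast; ring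
      linarith
    · refine ⟨i + 1, by rw [Nat.even_add_one]; exact hev, le_rfl, ?_⟩
      have a1 := hlen i le_rfl (by omega) l' hl' ((hI i hIi).1 hev)
      have a2 := hlen (i + 1) (by omega) (by omega) ε hε ((hI (i + 1) (by omega)).2
        (by rw [Nat.even_add_one]; exact hev))
      have b1 : (D.c (i + 1) : ℝ) = D.c i + len (D.lam i (D.c i)) (D.c i) := by
        rw [D.succ i]; push_cast; ring
      have b2 : (D.c (i + 1 + 1) : ℝ) = D.c (i + 1) +
          len (D.lam (i + 1) (D.c (i + 1))) (D.c (i + 1)) := by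
        rw [D.succ (i + 1)]; push_cast; ring
      have b3 : 0 ≤ ε * L ^ 2 := by positivity
      linarith
  obtain ⟨j, hj, hjE⟩ := hω e he
  obtain ⟨hj1, hj2⟩ := Finset.mem_Ioc.1 hj
  refine ⟨j, hjE, ?_, ?_⟩
  · have : D.c (i + 1) ≤ D.c e := D.strictMono.monotone hie
    omega
  · have hkey : D.c (e + 1) - D.c i ≤ len l n := by
      unfold len
      apply Nat.le_floor
      have h3 : ((D.c (e + 1) - D.c i : ℕ) : ℝ) = (D.c (e + 1) : ℝ) - D.c i :=
        Nat.cast_sub (D.strictMono.monotone (by omega))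
      rw [h3]
      refine hbound.trans ?_
      have h4 : L ^ 2 ≤ l / q * Real.log (D.c i : ℝ) ^ 2 := by
        have := pow_le_pow_left₀ hL0 hLle 2
        rwa [mul_pow, Real.sq_sqrt (by positivity)] at this
      have h5 : (l' + 2 * ε) * L ^ 2 ≤ q * L ^ 2 := by gcongr
      have h6 : q * L ^ 2 ≤ q * (l / q * Real.log (D.c i : ℝ) ^ 2) := by gcongr
      have h7 : q * (l / q * Real.log (D.c i : ℝ) ^ 2) = l * Real.log (D.c i : ℝ) ^ 2 := by
        field_simp
      have h8 : (0 : ℝ) ≤ Real.log (D.c i : ℝ) := Real.log_nonneg (by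
        exact_mod_cast (by omega : 1 ≤ D.c i))
      have h9 : Real.log (D.c i : ℝ) ≤ Real.log (n : ℝ) :=
        Real.log_le_log hc0 (by exact_mod_cast hi1)
      have h10 : l * Real.log (D.c i : ℝ) ^ 2 ≤ l * Real.log (n : ℝ) ^ 2 := by
        apply mul_le_mul_of_nonneg_left (pow_le_pow_left₀ h8 h9 2) hl0.le
      linarith
    have h3 : D.c i ≤ D.c (e + 1) := D.strictMono.monotone (by omega)
    omega

end Cuts

/-- **Every value of the Cramer constant is possible for independence of order `o(log n)`.** -/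
theorem exists_model (hp : GoodWeight p)
    (hk : Tendsto (fun n : ℕ => (k n : ℝ) / Real.log (n : ℝ)) atTop (𝓝 0)) (l : ℝ≥0∞) :
    ∃ (Ω : Type) (_ : MeasurableSpace Ω) (μ : Measure Ω) (_ : IsProbabilityMeasure μ)
      (E : ℕ → Set Ω), (∀ n, MeasurableSet (E n)) ∧ IndepUpTo E μ k ∧
      (∀ᶠ n in atTop, μ.real (E n) = p n) ∧
      ∀ᵐ ω ∂μ, {n | ω ∈ E n}.Infinite ∧ cramer {n | ω ∈ E n} = l := by
  -- the sequence of big lengths
  obtain ⟨ls, hls0, hls⟩ : ∃ ls : ℕ → ℝ, (∀ m, 0 < ls m) ∧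
      Tendsto (fun m => ENNReal.ofReal (ls m)) atTop (𝓝 l) := by
    rcases eq_or_ne l ∞ with hl | hl
    · refine ⟨fun m => (m : ℝ) + 1, fun m => by positivity, ?_⟩
      rw [hl, ENNReal.tendsto_ofReal_nhds_top]
      exact tendsto_atTop_add_const_right _ _ tendsto_natCast_atTop_atTop
    · refine ⟨fun m => l.toReal + 1 / ((m : ℝ) + 1), fun m => by positivity, ?_⟩
      have h1 : Tendsto (fun m : ℕ => l.toReal + 1 / ((m : ℝ) + 1)) atTop (𝓝 (l.toReal + 0)) :=
        (tendsto_one_div_add_atTop_nhds_zero_nat (𝕜 := ℝ)).const_add l.toReal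
      rw [add_zero] at h1
      have h2 := ENNReal.tendsto_ofReal h1
      rwa [ENNReal.ofReal_toReal hl] at h2
  obtain ⟨D, m, hm, hlam⟩ := exists_cuts hp hk ls hls0
  have hmc : Tendsto (fun i => m (D.c i)) atTop atTop := hm.comp D.tendsto_c
  have heven : ∀ ε : ℝ, 0 < ε → ∀ᶠ i in atTop, Even i → D.lam i (D.c i) ≤ ε := by
    intro ε hε
    have h1 : Tendsto (fun i => 1 / ((m (D.c i) : ℝ) + 1)) atTop (𝓝 0) :=
      (tendsto_one_div_add_atTop_nhds_zero_nat (𝕜 := ℝ)).comp hmc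
    filter_upwards [h1.eventually (gt_mem_nhds hε)] with i hi hev
    rw [hlam, lamOf, if_pos hev]
    exact hi.le
  have hodd : Tendsto (fun i => ENNReal.ofReal (ls (m (D.c i)))) atTop (𝓝 l) := hls.comp hmc
  refine ⟨ℕ → Finset ℕ, inferInstance, D.μ, D.prob, D.E, D.measE, D.indep, ?_, ?_⟩
  · filter_upwards [eventually_gt_atTop (D.c 0)] with n hn
    exact D.real_E hn
  -- infinitude and the two bounds
  have hP := D.prob
  filter_upwards [D.ae_even, D.ae_odd] with ω h1 h2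
  have hinf : {n | ω ∈ D.E n}.Infinite := by
    rw [Set.infinite_iff_exists_gt]
    intro a
    obtain ⟨n, hn, hnE⟩ := h1 (2 * a) (by simp)
    refine ⟨n, hnE, ?_⟩
    have h3 : 2 * a ≤ D.c (2 * a) := D.strictMono.le_apply
    have h4 := (Finset.mem_Ioc.1 hn).1
    omega
  refine ⟨hinf, le_antisymm ?_ ?_⟩
  · -- upper bound
    refine le_of_forall_gt_imp_ge_of_dense fun b hb => ?_
    rcases eq_or_ne b ∞ with hbt | hbt
    · rw [hbt]; exact le_top
    · obtain ⟨b', hb'1, hb'2⟩ := exists_between hb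
      have hb't : b' ≠ ∞ := (hb'2.trans_le le_top).ne
      have h3 : ∀ᶠ i in atTop, ENNReal.ofReal (ls (m (D.c i))) < b' :=
        hodd.eventually (gt_mem_nhds hb'1)
      have h4 : ∀ᶠ i in atTop, ¬ Even i → D.lam i (D.c i) ≤ b'.toReal := by
        filter_upwards [h3] with i hi hev
        rw [hlam, lamOf, if_neg hev]
        exact ((ENNReal.ofReal_lt_iff_lt_toReal (hls0 _).le hb't).1 hi).le
      have hbb : b'.toReal < b.toReal := (ENNReal.toReal_lt_toReal hb't hbt).2 hb'2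
      have h5 := D.cramer_le_of (l := b.toReal) (l' := b'.toReal)
        (ε := (b.toReal - b'.toReal) / 4) ENNReal.toReal_nonneg (by linarith) (by linarith) h4
        (heven _ (by linarith)) h1
      have h6 := cramer_le hinf ENNReal.toReal_nonneg h5
      rwa [ENNReal.ofReal_toReal hbt] at h6
  · -- lower bound
    refine le_of_forall_lt_imp_le_of_dense fun b hb => ?_
    have hbt : b ≠ ∞ := (hb.trans_le le_top).ne
    have h3 : ∀ᶠ i in atTop, b < ENNReal.ofReal (ls (m (D.c i))) :=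
      hodd.eventually (lt_mem_nhds hb)
    have h4 : ∀ᶠ i in atTop, ¬ Even i → b.toReal ≤ D.lam i (D.c i) := by
      filter_upwards [h3] with i hi hev
      rw [hlam, lamOf, if_neg hev]
      exact ((ENNReal.lt_ofReal_iff_toReal_lt hbt).1 hi).le
    have h5 := D.le_cramer_of ENNReal.toReal_nonneg h4 hinf h2
    rwa [ENNReal.ofReal_toReal hbt] at h5

end Pool.Agent.LibCramer
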