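import Pool.Agent.LibCI7.Model

/-!
Models with independence of order `t log n` for small `t`: quantitative form.
-/

namespace Pool.Agent.LibCramer

open Finset Filter Topology MeasureTheory ProbabilityTheory Pool.Agent.LibBar93
open scoped ENNReal
open Pool.Agent.LibCramer.LowerTail (tendsto_logn factorial_le tendsto_log_add_len_div tendsto_len_div)

attribute [local instance 2000] msFinset

variable {p : ℕ → ℝ} {k : ℕ → ℕ}

/-- orders in a window -/
lemma sup_window' {t : ℝ} (ht : 0 < t) (hk : ∀ᶠ n : ℕ in atTop, (k n : ℝ) ≤ t * Real.log (n : ℝ))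
    (C : ℝ) (hC : 0 < C) :
    ∀ᶠ m : ℕ in atTop, (((win C m).sup k + 1 : ℕ) : ℝ) ≤ 2 * t * Real.log (m : ℝ) := by
  have h2 := tendsto_log_add_len_div hC.le
  have h3 : ∀ᶠ m : ℕ in atTop, Real.log ((m : ℝ) + len C m) / Real.log (m : ℝ) < 3 / 2 :=
    h2.eventually (gt_mem_nhds (by norm_num))
  filter_upwards [eventually_forall_ge' hk, h3, tendsto_logn.eventually_ge_atTop (2 / t),
    eventually_ge_atTop 3] with m h1 h3 h4 hm3
  have hm3' : (3 : ℝ) ≤ m := by exact_mod_cast hm3
  have hL : 0 < Real.log (m : ℝ) := Real.log_pos (by linarith)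
  rw [div_lt_iff₀ hL] at h3
  have h5 : (((win C m).sup k : ℕ) : ℝ) ≤ 3 / 2 * t * Real.log (m : ℝ) := by
    have key : ∀ n ∈ win C m, (k n : ℝ) ≤ 3 / 2 * t * Real.log (m : ℝ) := by
      intro n hn
      obtain ⟨hn1, hn2⟩ := Finset.mem_Ioc.1 hn
      have hn1' : (m : ℝ) < n := by exact_mod_cast hn1
      have hn2' : (n : ℝ) ≤ m + len C m := by exact_mod_cast hn2
      have h6 := h1 n hn1.le
      have h7 : Real.log (n : ℝ) ≤ Real.log ((m : ℝ) + len C m) :=
        Real.log_le_log (by linarith) hn2'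
      nlinarith
    have h8 : (win C m).sup k ≤ ⌊3 / 2 * t * Real.log (m : ℝ)⌋₊ :=
      Finset.sup_le fun n hn => Nat.le_floor (key n hn)
    exact (Nat.cast_le.2 h8).trans (Nat.floor_le (by positivity))
  rw [div_le_iff₀ ht] at h4
  push_cast
  linarith

/-- the never empty law of a small block -/
theorem GoodWeight.small_law' (hp : GoodWeight p) {t : ℝ} (ht : 0 < t)
    (hk : ∀ᶠ n : ℕ in atTop, (k n : ℝ) ≤ t * Real.log (n : ℝ)) {ε : ℝ} (hε : 400 * t ≤ ε) :
    ∀ᶠ m : ℕ in atTop, ∃ w : Finset ℕ → ℝ, BLaw (supp p ε m) p ((win ε m).sup k + 1) w ∧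
      w ∅ = 0 := by
  have hε0 : 0 < ε := by linarith
  have h1 := hp.sum_bounds hε0 (a := ε / 2) (b := 2 * ε) (by linarith) (by linarith)
  have h2 := hp.comp ε 1 hε0 one_pos
  have h3 := sup_window' ht hk ε hε0
  have h4 : ∀ᶠ m : ℕ in atTop, p m < 1 / 2 := hp.loc.1.eventually (gt_mem_nhds (by norm_num))
  filter_upwards [h1, h2, h3, eventually_forall_ge' h4,
    tendsto_logn.eventually_ge_atTop (1 / t), eventually_ge_atTop 3] with m h1 h2 h3 h4 h5 hm3
  obtain ⟨τ, hτ, hτ2⟩ := h2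
  have hm3' : (3 : ℝ) ≤ m := by exact_mod_cast hm3
  have hL : 0 < Real.log (m : ℝ) := Real.log_pos (by linarith)
  set S := supp p ε m with hS
  have hSw : ∀ n ∈ S, n ∈ win ε m ∧ p n ≠ 0 := fun n hn => by
    classical
    rw [hS, supp, Finset.mem_filter] at hn
    exact hn
  have hSτ : ∀ n ∈ S, τ ≤ p n ∧ p n ≤ (1 + 1) * τ := fun n hn => by
    rcases hτ2 n (hSw n hn).1 with h | h
    · exact absurd h (hSw n hn).2
    · exact h
  have hS2 : ∀ n ∈ S, p n < 1 / 2 := fun n hn =>
    h4 n (Finset.mem_Ioc.1 (hSw n hn).1).1.le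
  have hpos : 0 < ∑ n ∈ S, p n := lt_of_lt_of_le (by positivity) h1.1
  obtain ⟨n0, hn0⟩ : S.Nonempty := by
    by_contra h
    rw [Finset.not_nonempty_iff_eq_empty] at h
    rw [h] at hpos
    simp at hpos
  have hcard : ε / 4 * Real.log (m : ℝ) ≤ τ * S.card := by
    have : ∑ n ∈ S, p n ≤ 2 * (τ * S.card) := by
      calc ∑ n ∈ S, p n ≤ ∑ _n ∈ S, (1 + 1) * τ := Finset.sum_le_sum fun n hn => (hSτ n hn).2
        _ = 2 * (τ * S.card) := by rw [Finset.sum_const, nsmul_eq_mul]; ring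
    linarith [h1.1]
  refine exists_never_empty S p _ τ hτ ((hSτ n0 hn0).1.trans (hS2 n0 hn0).le)
    (fun n hn => (hSτ n hn).1) (fun n hn => (hS2 n hn).le.trans (by norm_num)) ?_
  refine le_trans ?_ hcard
  have h6 : 1 ≤ t * Real.log (m : ℝ) := by
    rw [div_le_iff₀ ht] at h5
    linarith
  have h7 : 400 * t * Real.log (m : ℝ) ≤ ε * Real.log (m : ℝ) :=
    mul_le_mul_of_nonneg_right hε hL.le
  nlinarith

/-- the law of a big block -/
theorem GoodWeight.big_law' (hp : GoodWeight p) {t : ℝ} (ht : 0 < t)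
    (hk : ∀ᶠ n : ℕ in atTop, (k n : ℝ) ≤ t * Real.log (n : ℝ)) {l : ℝ} (hl : 0 < l)
    (hlt : 32 * t ≤ l) (hlt2 : 32 * t * (Real.log 16 + 1 + Real.log (l + 1)) ≤ 1) :
    ∀ᶠ m : ℕ in atTop, ∃ w : Finset ℕ → ℝ, BLaw (supp p l m) p ((win l m).sup k + 1) w ∧
      (m : ℝ) ^ (-(1 / 2) : ℝ) ≤ w ∅ := by
  set ε : ℝ := min (1 / 4) (1 / (48 * (l + 1))) with hε
  have hε0 : 0 < ε := by positivity
  have hε4 : ε ≤ 1 / 4 := min_le_left _ _
  have hεl : ε * (48 * (l + 1)) ≤ 1 := by
    have := min_le_right (1 / 4 : ℝ) (1 / (48 * (l + 1)))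
    rwa [← hε, le_div_iff₀ (by positivity)] at this
  set x : ℝ := 1 / (8 * (l + 1)) with hx
  have hx0 : 0 < x := by positivity
  have hx1 : x ≤ 1 := by
    rw [hx, div_le_one (by positivity)]
    linarith
  have hxl : x * (l + 1) = 1 / 8 := by rw [hx]; field_simp
  set D : ℝ := Real.log 2 + 1 - Real.log x with hD
  have hD0 : 0 < D := by
    have h1 : Real.log x ≤ 0 := Real.log_nonpos hx0.le hx1
    have h2 : 0 < Real.log 2 := Real.log_pos (by norm_num)
    linarith
  have hDt : 2 * t * D ≤ 1 / 16 := by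
    have h1 : D = Real.log 16 + 1 + Real.log (l + 1) := by
      rw [hD, hx, one_div, Real.log_inv, Real.log_mul (by norm_num) (by positivity)]
      have : Real.log 16 = Real.log 2 + Real.log 8 := by
        rw [← Real.log_mul (by norm_num) (by norm_num)]
        norm_num
      rw [this]
      ring
    rw [h1]
    linarith
  have h1 := hp.sum_bounds hl (a := l / 2) (b := l + 1) (by linarith) (by linarith)
  have h2 := hp.comp l ε hl hε0
  have h3 := sup_window' ht hk l hl
  have h4 : ∀ᶠ m : ℕ in atTop, p m < ε := hp.loc.1.eventually (gt_mem_nhds hε0)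
  have h5 : ∀ᶠ m : ℕ in atTop, Real.log ((l + 1) * Real.log (m : ℝ)) ≤
      1 / 32 * Real.log (m : ℝ) := by
    have hlo : (fun y : ℝ => Real.log y) =o[atTop] (id : ℝ → ℝ) := Real.isLittleO_log_id_atTop
    have h6 := hlo.bound (c := 1 / (32 * (l + 1))) (by positivity)
    have h7 : Tendsto (fun m : ℕ => (l + 1) * Real.log (m : ℝ)) atTop atTop :=
      tendsto_logn.const_mul_atTop (by positivity)
    filter_upwards [h7.eventually h6, h7.eventually_ge_atTop 1] with m hm hm1
    rw [id, Real.norm_of_nonneg (Real.log_nonneg hm1), Real.norm_of_nonneg (by linarith)] at hm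
    refine hm.trans (le_of_eq ?_)
    field_simp
  filter_upwards [h1, h2, h3, eventually_forall_ge' h4, h5,
    tendsto_logn.eventually_ge_atTop 96, tendsto_logn.eventually_ge_atTop (32 / l),
    eventually_ge_atTop 3] with m h1 h2 h3 h4 h5 h6 h7 hm3
  obtain ⟨τ, hτ, hτ2⟩ := h2
  have hm3' : (3 : ℝ) ≤ m := by exact_mod_cast hm3
  have hm0 : (0 : ℝ) < m := by linarith
  have hL : 0 < Real.log (m : ℝ) := Real.log_pos (by linarith)
  set L := Real.log (m : ℝ) with hLdef
  set S := supp p l m with hS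
  have hSw : ∀ n ∈ S, n ∈ win l m ∧ p n ≠ 0 := fun n hn => by
    classical
    rw [hS, supp, Finset.mem_filter] at hn
    exact hn
  have hSτ : ∀ n ∈ S, τ ≤ p n ∧ p n ≤ (1 + ε) * τ := fun n hn => by
    rcases hτ2 n (hSw n hn).1 with h | h
    · exact absurd h (hSw n hn).2
    · exact h
  have hS2 : ∀ n ∈ S, p n < ε := fun n hn => h4 n (Finset.mem_Ioc.1 (hSw n hn).1).1.le
  have hpos : 0 < ∑ n ∈ S, p n := lt_of_lt_of_le (by positivity) h1.1
  obtain ⟨n0, hn0⟩ : S.Nonempty := by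
    by_contra h
    rw [Finset.not_nonempty_iff_eq_empty] at h
    rw [h] at hpos
    simp at hpos
  have hνle : τ * S.card ≤ (l + 1) * L := by
    have : τ * S.card ≤ ∑ n ∈ S, p n := by
      calc τ * S.card = ∑ _n ∈ S, τ := by rw [Finset.sum_const, nsmul_eq_mul]; ring
        _ ≤ _ := Finset.sum_le_sum fun n hn => (hSτ n hn).1
    linarith [h1.2]
  have hνge : l / 4 * L ≤ τ * S.card := by
    have : ∑ n ∈ S, p n ≤ (1 + ε) * (τ * S.card) := by
      calc ∑ n ∈ S, p n ≤ ∑ _n ∈ S, (1 + ε) * τ := Finset.sum_le_sum fun n hn => (hSτ n hn).2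
        _ = (1 + ε) * (τ * S.card) := by rw [Finset.sum_const, nsmul_eq_mul]; ring
    have h8 : 0 ≤ τ * (S.card : ℝ) := by positivity
    have h9 : (1 + ε) * (τ * S.card) ≤ 2 * (τ * S.card) := by nlinarith
    linarith [h1.1]
  set K := (win l m).sup k + 1 with hK
  have hK2 : (K : ℝ) ≤ l / 16 * L :=
    h3.trans (mul_le_mul_of_nonneg_right (by linarith) hL.le)
  have hl7 : 32 ≤ l * L := by
    rw [div_le_iff₀ hl] at h7
    linarith
  refine exists_big_law S p K hτ (fun n hn => (hSτ n hn).1) (fun n hn => (hSτ n hn).2)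
    (fun n hn => (hS2 n hn).le) ((hSτ n0 hn0).1.trans (hS2 n0 hn0).le) hε4 ?_ hx0
    (Real.rpow_pos_of_pos hm0 _) ?_
  · apply Nat.le_floor
    push_cast
    linarith
  · rw [Real.log_rpow hm0]
    have hν0 : 0 < τ * (S.card : ℝ) := lt_of_lt_of_le (by positivity) hνge
    have e1 : (x + 6 * ε) * (τ * S.card) ≤ 1 / 4 * L := by
      have e11 : (x + 6 * ε) * (τ * S.card) ≤ (x + 6 * ε) * ((l + 1) * L) := by gcongr
      have e12 : (x + 6 * ε) * ((l + 1) * L) = (x * (l + 1)) * L + (ε * (48 * (l + 1))) / 8 * L := by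
        ring
      rw [e12, hxl] at e11
      nlinarith
    have e2 : (K : ℝ) * D ≤ 1 / 16 * L := by
      calc (K : ℝ) * D ≤ 2 * t * L * D := by gcongr
        _ = (2 * t * D) * L := by ring
        _ ≤ 1 / 16 * L := by gcongr
    have e3 : Real.log (τ * S.card) ≤ 1 / 32 * L :=
      (Real.log_le_log hν0 hνle).trans h5
    linarith

theorem exists_cuts' (hp : GoodWeight p) {t : ℝ} (ht : 0 < t)
    (hk : ∀ᶠ n : ℕ in atTop, (k n : ℝ) ≤ t * Real.log (n : ℝ)) {l : ℝ}
    (hlt : 400 * t ≤ l) (hlt2 : 32 * t * (Real.log 16 + 1 + Real.log (l + 1)) ≤ 1) :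
    ∃ (D : Cuts p k), ∀ i c, D.lam i c = if Even i then 400 * t else l := by
  classical
  have hl : 0 < l := by linarith
  have ht' : 0 < 400 * t := by positivity
  have hev : ∀ᶠ c : ℕ in atTop,
      (∃ w : Finset ℕ → ℝ, BLaw (supp p (400 * t) c) p ((win (400 * t) c).sup k + 1) w ∧
        w ∅ = 0) ∧
      (∃ w : Finset ℕ → ℝ, BLaw (supp p l c) p ((win l c).sup k + 1) w ∧
        (c : ℝ) ^ (-(1 / 2) : ℝ) ≤ w ∅) ∧
      (1 ≤ len (400 * t) c ∧ 1 ≤ len l c) ∧
      ((len (400 * t) c : ℝ) ≤ Real.sqrt c ∧ (len l c : ℝ) ≤ Real.sqrt c) := by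
    filter_upwards [hp.small_law' ht hk le_rfl, hp.big_law' ht hk hl (by linarith) hlt2,
      eventually_len_pos ht', eventually_len_pos hl, eventually_len_sqrt ht',
      eventually_len_sqrt hl] with c h1 h2 h3 h4 h5 h6
    exact ⟨h1, h2, ⟨h3, h4⟩, ⟨h5, h6⟩⟩
  obtain ⟨N, hN⟩ := eventually_atTop.1 hev
  set lam : ℕ → ℕ → ℝ := fun i _ => if Even i then 400 * t else l with hlam
  set c := cutRec lam (max N 16) with hc
  have hc0 : c 0 = max N 16 := rfl
  have hcs : ∀ i, c (i + 1) = c i + len (lam i (c i)) (c i) := fun i => rfl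
  have hcN : ∀ i, max N 16 ≤ c i := by
    intro i
    induction i with
    | zero => exact hc0.ge
    | succ i ih => rw [hcs]; omega
  have hPc := fun i => hN (c i) ((le_max_left _ _).trans (hcN i))
  have hlaw : ∀ i, ∃ w : Finset ℕ → ℝ, BLaw (supp p (lam i (c i)) (c i)) p
      ((win (lam i (c i)) (c i)).sup k + 1) w ∧ (Even i → w ∅ = 0) ∧
      (¬ Even i → ((c i : ℕ) : ℝ) ^ (-(1 / 2) : ℝ) ≤ w ∅) := by
    intro i
    by_cases hi : Even i
    · obtain ⟨w, h1, h2⟩ := (hPc i).1
      have e : lam i (c i) = 400 * t := by simp only [hlam, hi, if_true]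
      rw [e]
      exact ⟨w, h1, fun _ => h2, fun h => absurd hi h⟩
    · obtain ⟨w, h1, h2⟩ := (hPc i).2.1
      have e : lam i (c i) = l := by simp only [hlam, hi, if_false]
      rw [e]
      exact ⟨w, h1, fun h => absurd h hi, fun _ => h2⟩
  choose w hw1 hw2 hw3 using hlaw
  refine ⟨⟨lam, c, w, hcs, ?_, ?_, ?_, hw1, hw2, hw3⟩, fun i c => rfl⟩
  · intro i
    by_cases hi : Even i
    · have e : lam i (c i) = 400 * t := by simp only [hlam, hi, if_true]
      rw [e]
      exact (hPc i).2.2.1.1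
    · have e : lam i (c i) = l := by simp only [hlam, hi, if_false]
      rw [e]
      exact (hPc i).2.2.1.2
  · intro i
    by_cases hi : Even i
    · have e : lam i (c i) = 400 * t := by simp only [hlam, hi, if_true]
      rw [e]
      exact (hPc i).2.2.2.1
    · have e : lam i (c i) = l := by simp only [hlam, hi, if_false]
      rw [e]
      exact (hPc i).2.2.2.2
  · rw [hc0]
    exact le_max_right _ _

/-- **The range of the Cramer constant for independence of order `t log n`, `t` small.** -/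
theorem exists_model' (hp : GoodWeight p) {t : ℝ} (ht : 0 < t) (ht1 : t ≤ 1 / 200)
    (hk : ∀ᶠ n : ℕ in atTop, (k n : ℝ) ≤ t * Real.log (n : ℝ)) {l : ℝ}
    (hlt : 400 * t ≤ l) (hlt2 : l ≤ Real.exp (1 / (32 * t) - 4)) :
    ∃ (Ω : Type) (_ : MeasurableSpace Ω) (μ : Measure Ω) (_ : IsProbabilityMeasure μ)
      (E : ℕ → Set Ω), (∀ n, MeasurableSet (E n)) ∧ IndepUpTo E μ k ∧
      (∀ᶠ n in atTop, μ.real (E n) = p n) ∧
      ∀ᵐ ω ∂μ, {n | ω ∈ E n}.Infinite ∧ ENNReal.ofReal l ≤ cramer {n | ω ∈ E n} ∧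
        cramer {n | ω ∈ E n} ≤ ENNReal.ofReal (l + 800 * t) := by
  have hl : 0 < l := by linarith
  have hcond : 32 * t * (Real.log 16 + 1 + Real.log (l + 1)) ≤ 1 := by
    set y : ℝ := 1 / (32 * t) with hy
    have hy6 : 6.25 ≤ y := by
      rw [hy, le_div_iff₀ (by positivity)]
      linarith
    have h16 : Real.log 16 ≤ 2.773 := by
      have : Real.log 16 = 4 * Real.log 2 := by
        rw [show (16 : ℝ) = 2 ^ 4 by norm_num, Real.log_pow]
        norm_num
      rw [this]
      linarith [Real.log_two_lt_d9]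
    have h1 : Real.log (l + 1) ≤ (y - 4) + 0.2 := by
      have h2 : l + 1 ≤ Real.exp (y - 4 + 0.2) := by
        have h3 : Real.exp (y - 4 + 0.2) = Real.exp (y - 4) * Real.exp 0.2 := Real.exp_add _ _
        have h4 : (1.2 : ℝ) ≤ Real.exp 0.2 := by
          have := Real.add_one_le_exp (0.2 : ℝ)
          linarith
        have h5 : (6 : ℝ) ≤ Real.exp (y - 4) := by
          have h6 : (2.25 : ℝ) ≤ y - 4 := by linarith
          have h7 : Real.exp 2.25 ≤ Real.exp (y - 4) := Real.exp_le_exp.2 h6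
          have h8 : (6 : ℝ) ≤ Real.exp 2.25 := by
            have h9 : Real.exp (2.25 : ℝ) = Real.exp 1 * Real.exp 1 * Real.exp 0.25 := by
              rw [← Real.exp_add, ← Real.exp_add]
              norm_num
            have h10 := Real.exp_one_gt_d9
            have h11 : (1.25 : ℝ) ≤ Real.exp 0.25 := by
              have := Real.add_one_le_exp (0.25 : ℝ)
              linarith
            have h12 : (7 : ℝ) ≤ Real.exp 1 * Real.exp 1 := by nlinarith
            rw [h9]
            nlinarith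
          linarith
        rw [h3]
        have h6 : Real.exp (y - 4) * 1.2 ≤ Real.exp (y - 4) * Real.exp 0.2 := by gcongr
        linarith
      calc Real.log (l + 1) ≤ Real.log (Real.exp (y - 4 + 0.2)) :=
            Real.log_le_log (by linarith) h2
        _ = (y - 4) + 0.2 := Real.log_exp _
    have h2 : Real.log 16 + 1 + Real.log (l + 1) ≤ y := by linarith
    calc 32 * t * (Real.log 16 + 1 + Real.log (l + 1)) ≤ 32 * t * y := by gcongr
      _ = 1 := by rw [hy]; field_simp
  obtain ⟨D, hlam⟩ := exists_cuts' hp ht hk hlt hcond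
  refine ⟨ℕ → Finset ℕ, inferInstance, D.μ, D.prob, D.E, D.measE, D.indep, ?_, ?_⟩
  · filter_upwards [eventually_gt_atTop (D.c 0)] with n hn
    exact D.real_E hn
  have hP := D.prob
  filter_upwards [D.ae_even, D.ae_odd] with ω h1 h2
  have hinf : {n | ω ∈ D.E n}.Infinite := by
    rw [Set.infinite_iff_exists_gt]
    intro a
    obtain ⟨n, hn, hnE⟩ := h1 (2 * a) (by simp)
    refine ⟨n, hnE, ?_⟩
    have h3 : 2 * a ≤ D.c (2 * a) := D.strictMono.le_apply
    have h4 := (Finset.mem_Ioc.1 hn).1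
    omega
  refine ⟨hinf, ?_, ?_⟩
  · refine D.le_cramer_of hl.le (Eventually.of_forall fun i hi => ?_) hinf h2
    rw [hlam, if_neg hi]
  · -- all `l + 800 t + δ`
    have h3 : ∀ n : ℕ, cramer {n | ω ∈ D.E n} ≤
        ENNReal.ofReal (l + 800 * t + 1 / ((n : ℝ) + 1)) := by
      intro n
      have hn : (0 : ℝ) < 1 / ((n : ℝ) + 1) := by positivity
      refine cramer_le hinf (by positivity) ?_
      refine D.cramer_le_of (l' := l) (ε := 400 * t) hl.le (by positivity) (by linarith)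
        (Eventually.of_forall fun i hi => ?_) (Eventually.of_forall fun i hi => ?_) h1
      · rw [hlam, if_neg hi]
      · rw [hlam, if_pos hi]
    have h4 : Tendsto (fun n : ℕ => ENNReal.ofReal (l + 800 * t + 1 / ((n : ℝ) + 1))) atTop
        (𝓝 (ENNReal.ofReal (l + 800 * t))) := by
      apply ENNReal.tendsto_ofReal
      have := (tendsto_one_div_add_atTop_nhds_zero_nat (𝕜 := ℝ)).const_add (l + 800 * t)
      simpa using this
    exact ge_of_tendsto' h4 h3

end Pool.Agent.LibCramer
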