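import Pool.Agent.LibCI7.Sym

/-!
Avoidance probabilities for finite families of events with the product rule for small sets.
-/

namespace Pool.Agent.LibCramer

open Finset MeasureTheory ProbabilityTheory

variable {Ω : Type*} [MeasurableSpace Ω] {μ : Measure Ω}

/-- The product rule for all subsets of `W` with at most `K` elements. -/
def KProd (E : ℕ → Set Ω) (μ : Measure Ω) (W : Finset ℕ) (K : ℕ) : Prop :=
  ∀ S ⊆ W, S.card ≤ K → μ.real (⋂ j ∈ S, E j) = ∏ j ∈ S, μ.real (E j)

/-- the event that no `E j`, `j ∈ W`, occurs -/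
def Avoid (E : ℕ → Set Ω) (W : Finset ℕ) : Set Ω := ⋂ j ∈ W, (E j)ᶜ

omit [MeasurableSpace Ω] in
lemma mem_Avoid {E : ℕ → Set Ω} {W : Finset ℕ} {ω : Ω} :
    ω ∈ Avoid E W ↔ ∀ j ∈ W, ω ∉ E j := by
  simp [Avoid]

lemma measurableSet_Avoid {E : ℕ → Set Ω} (hE : ∀ n, MeasurableSet (E n)) (W : Finset ℕ) :
    MeasurableSet (Avoid E W) :=
  Finset.measurableSet_biInter _ fun j _ => (hE j).compl

/-- the indicator of `E j` as a real function -/
noncomputable def ix (E : ℕ → Set Ω) (j : ℕ) (ω : Ω) : ℝ := (E j).indicator (fun _ => (1 : ℝ)) ω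

omit [MeasurableSpace Ω] in
lemma ix_zero_or_one (E : ℕ → Set Ω) (j : ℕ) (ω : Ω) : ix E j ω = 0 ∨ ix E j ω = 1 := by
  unfold ix
  by_cases h : ω ∈ E j <;> simp [h]

omit [MeasurableSpace Ω] in
lemma prod_ix (E : ℕ → Set Ω) (S : Finset ℕ) (ω : Ω) :
    ∏ j ∈ S, ix E j ω = (⋂ j ∈ S, E j).indicator (fun _ => (1 : ℝ)) ω := by
  classical
  by_cases h : ω ∈ ⋂ j ∈ S, E j
  · rw [Set.indicator_of_mem h]
    refine Finset.prod_eq_one fun j hj => ?_
    have : ω ∈ E j := Set.mem_iInter₂.1 h j hj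
    simp [ix, this]
  · rw [Set.indicator_of_notMem h]
    simp only [Set.mem_iInter, not_forall] at h
    obtain ⟨j, hj, hj2⟩ := h
    exact Finset.prod_eq_zero hj (by simp [ix, hj2])

lemma integrable_prod_ix [IsFiniteMeasure μ] {E : ℕ → Set Ω} (hE : ∀ n, MeasurableSet (E n))
    (S : Finset ℕ) : Integrable (fun ω => ∏ j ∈ S, ix E j ω) μ := by
  simp_rw [prod_ix]
  exact (integrable_const (1 : ℝ)).indicator (Finset.measurableSet_biInter _ fun j _ => hE j)

lemma integral_prod_ix [IsFiniteMeasure μ] {E : ℕ → Set Ω} (hE : ∀ n, MeasurableSet (E n))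
    (S : Finset ℕ) : ∫ ω, ∏ j ∈ S, ix E j ω ∂μ = μ.real (⋂ j ∈ S, E j) := by
  simp_rw [prod_ix]
  rw [integral_indicator_const _ (Finset.measurableSet_biInter _ fun j _ => hE j)]
  simp

/-- integral of a product of affine functions of the indicators -/
lemma integral_prod_affine [IsFiniteMeasure μ] {E : ℕ → Set Ω} (hE : ∀ n, MeasurableSet (E n))
    {W : Finset ℕ} {K : ℕ} (hK : KProd E μ W K) {U : Finset ℕ} (hUW : U ⊆ W) (hU : U.card ≤ K)
    (α β : ℕ → ℝ) :
    Integrable (fun ω => ∏ j ∈ U, (β j * ix E j ω + α j)) μ ∧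
    ∫ ω, ∏ j ∈ U, (β j * ix E j ω + α j) ∂μ = ∏ j ∈ U, (β j * μ.real (E j) + α j) := by
  classical
  have e1 : ∀ ω, ∏ j ∈ U, (β j * ix E j ω + α j) =
      ∑ V ∈ U.powerset, ((∏ j ∈ V, β j) * (∏ j ∈ U \ V, α j)) * ∏ j ∈ V, ix E j ω := by
    intro ω
    rw [Finset.prod_add]
    refine Finset.sum_congr rfl fun V _ => ?_
    rw [Finset.prod_mul_distrib]
    ring
  have hint : ∀ V ∈ U.powerset, Integrable (fun ω => ((∏ j ∈ V, β j) * (∏ j ∈ U \ V, α j)) *
      ∏ j ∈ V, ix E j ω) μ := fun V _ => (integrable_prod_ix hE V).const_mul _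
  constructor
  · simp_rw [e1]
    exact integrable_finsetSum _ hint
  · simp_rw [e1]
    rw [integral_finsetSum _ hint, Finset.prod_add]
    refine Finset.sum_congr rfl fun V hV => ?_
    have hVU := Finset.mem_powerset.1 hV
    rw [integral_const_mul, integral_prod_ix hE, hK V (hVU.trans hUW)
      ((Finset.card_le_card hVU).trans hU), Finset.prod_mul_distrib]
    ring

/-- odds -/
noncomputable def odds (E : ℕ → Set Ω) (μ : Measure Ω) (j : ℕ) : ℝ :=
  μ.real (E j) / (1 - μ.real (E j))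

/-- the normalised centred indicator, equal to the odds off `E j` -/
noncomputable def cen (E : ℕ → Set Ω) (μ : Measure Ω) (j : ℕ) (ω : Ω) : ℝ :=
  (μ.real (E j) - ix E j ω) / (1 - μ.real (E j))

lemma integral_cen [IsFiniteMeasure μ] {E : ℕ → Set Ω} (hE : ∀ n, MeasurableSet (E n))
    {W : Finset ℕ} {K : ℕ} (hK : KProd E μ W K) (hp : ∀ j ∈ W, μ.real (E j) < 1)
    {S T : Finset ℕ} (hS : S ⊆ W) (hT : T ⊆ W) (hST : (S ∪ T).card ≤ K) :
    Integrable (fun ω => (∏ j ∈ S, cen E μ j ω) * ∏ j ∈ T, cen E μ j ω) μ ∧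
    ∫ ω, (∏ j ∈ S, cen E μ j ω) * ∏ j ∈ T, cen E μ j ω ∂μ =
      if S = T then ∏ j ∈ S, odds E μ j else 0 := by
  classical
  set p : ℕ → ℝ := fun j => μ.real (E j) with hpdef
  set β : ℕ → ℝ := fun j => if j ∈ S ∩ T then (1 - 2 * p j) / (1 - p j) ^ 2 else -1 / (1 - p j)
  set α : ℕ → ℝ := fun j => if j ∈ S ∩ T then p j ^ 2 / (1 - p j) ^ 2 else p j / (1 - p j)
  have hUW : S ∪ T ⊆ W := Finset.union_subset hS hT
  have e1 : ∀ ω, (∏ j ∈ S, cen E μ j ω) * ∏ j ∈ T, cen E μ j ω =
      ∏ j ∈ S ∪ T, (β j * ix E j ω + α j) := by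
    intro ω
    have e0 : ∏ j ∈ S ∩ T, cen E μ j ω =
        ∏ j ∈ S ∪ T, (if j ∈ S ∩ T then cen E μ j ω else 1) := by
      refine Finset.prod_subset_one_on_sdiff (Finset.inter_subset_union) (fun j hj => ?_)
        (fun j hj => ?_)
      · simp only [Finset.mem_sdiff] at hj
        rw [if_neg hj.2]
      · rw [if_pos hj]
    rw [← Finset.prod_union_inter, e0, ← Finset.prod_mul_distrib]
    refine Finset.prod_congr rfl fun j hj => ?_
    have hp1 : (1 - p j) ≠ 0 := by
      have := hp j (hUW hj)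
      have : p j < 1 := this
      linarith
    simp only [β, α, cen]
    by_cases h : j ∈ S ∩ T
    · simp only [h, if_true]
      change (p j - ix E j ω) / (1 - p j) * ((p j - ix E j ω) / (1 - p j)) = _
      rcases ix_zero_or_one E j ω with h0 | h0 <;> rw [h0] <;> field_simp <;> ring
    · simp only [h, if_false]
      change (p j - ix E j ω) / (1 - p j) * 1 = _
      field_simp
      ring
  obtain ⟨h1, h2⟩ := integral_prod_affine hE hK hUW hST α β
  simp_rw [e1]
  refine ⟨h1, ?_⟩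
  rw [h2]
  have hval : ∀ j ∈ S ∪ T, β j * μ.real (E j) + α j = if j ∈ S ∩ T then odds E μ j else 0 := by
    intro j hj
    have hp1 : (1 - p j) ≠ 0 := by
      have := hp j (hUW hj)
      have : p j < 1 := this
      linarith
    simp only [β, α, odds]
    change _ * p j + _ = if _ then p j / (1 - p j) else 0
    by_cases h : j ∈ S ∩ T
    · simp only [h, if_true]
      field_simp
      ring
    · simp only [h, if_false]
      field_simp
      ring
  rw [Finset.prod_congr rfl hval]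
  by_cases h : S = T
  · subst h
    rw [if_pos rfl, Finset.union_self, Finset.inter_self]
    exact Finset.prod_congr rfl fun j hj => if_pos hj
  · rw [if_neg h]
    obtain ⟨j, hj, hj2⟩ : ∃ j ∈ S ∪ T, j ∉ S ∩ T := by
      by_contra hcon
      push Not at hcon
      apply h
      apply Finset.Subset.antisymm
      · intro j hj
        exact (Finset.mem_inter.1 (hcon j (Finset.mem_union_left _ hj))).2
      · intro j hj
        exact (Finset.mem_inter.1 (hcon j (Finset.mem_union_right _ hj))).1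
    exact Finset.prod_eq_zero hj (by rw [if_neg hj2])

/-- Rao's bound -/
theorem rao [IsProbabilityMeasure μ] {E : ℕ → Set Ω} (hE : ∀ n, MeasurableSet (E n))
    {W : Finset ℕ} {K : ℕ} (hK : KProd E μ W K) (hp : ∀ j ∈ W, μ.real (E j) < 1)
    {m : ℕ} (hm : 2 * m ≤ K) :
    μ.real (Avoid E W) * ∑ k ∈ Finset.range (m + 1), esum W (odds E μ) k ≤ 1 := by
  classical
  set F := W.powerset.filter (fun S => S.card ≤ m) with hF
  have e3 : ∑ k ∈ Finset.range (m + 1), esum W (odds E μ) k = ∑ S ∈ F, ∏ j ∈ S, odds E μ j := by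
    unfold esum
    rw [← Finset.sum_biUnion]
    · refine Finset.sum_congr ?_ fun _ _ => rfl
      ext S
      simp only [hF, Finset.mem_biUnion, Finset.mem_range, Finset.mem_powersetCard,
        Finset.mem_filter, Finset.mem_powerset]
      constructor
      · rintro ⟨k, hk, hS, rfl⟩
        exact ⟨hS, by omega⟩
      · rintro ⟨hS, hc⟩
        exact ⟨S.card, by omega, hS, rfl⟩
    · intro i _ j _ hij
      exact Finset.pairwise_disjoint_powersetCard W hij
  have hodds : ∀ j ∈ W, 0 ≤ odds E μ j := fun j hj =>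
    div_nonneg measureReal_nonneg (by linarith [hp j hj])
  set Q := ∑ S ∈ F, ∏ j ∈ S, odds E μ j with hQ
  have hFW : ∀ S ∈ F, S ⊆ W ∧ S.card ≤ m := fun S hS => by
    rw [hF, Finset.mem_filter, Finset.mem_powerset] at hS
    exact hS
  have hQ1 : 1 ≤ Q := by
    have h0 : (∅ : Finset ℕ) ∈ F := by simp [hF]
    have := Finset.single_le_sum (f := fun S => ∏ j ∈ S, odds E μ j)
      (fun S hS => Finset.prod_nonneg fun j hj => hodds j ((hFW S hS).1 hj)) h0
    simpa using this
  set G : Ω → ℝ := fun ω => ∑ S ∈ F, ∏ j ∈ S, cen E μ j ω with hG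
  have hG2 : ∀ ω, G ω ^ 2 = ∑ S ∈ F, ∑ T ∈ F, (∏ j ∈ S, cen E μ j ω) * ∏ j ∈ T, cen E μ j ω := by
    intro ω
    rw [sq, hG, Finset.sum_mul_sum]
  have hcard : ∀ S ∈ F, ∀ T ∈ F, (S ∪ T).card ≤ K := fun S hS T hT =>
    (Finset.card_union_le S T).trans (by have := (hFW S hS).2; have := (hFW T hT).2; omega)
  have hint : ∀ S ∈ F, ∀ T ∈ F,
      Integrable (fun ω => (∏ j ∈ S, cen E μ j ω) * ∏ j ∈ T, cen E μ j ω) μ := fun S hS T hT =>
    (integral_cen hE hK hp (hFW S hS).1 (hFW T hT).1 (hcard S hS T hT)).1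
  have hGint : Integrable (fun ω => G ω ^ 2) μ := by
    simp_rw [hG2]
    exact integrable_finsetSum _ fun S hS => integrable_finsetSum _ fun T hT => hint S hS T hT
  have hEG : ∫ ω, G ω ^ 2 ∂μ = Q := by
    simp_rw [hG2]
    rw [integral_finsetSum _ fun S hS => integrable_finsetSum _ fun T hT => hint S hS T hT]
    rw [hQ]
    refine Finset.sum_congr rfl fun S hS => ?_
    rw [integral_finsetSum _ fun T hT => hint S hS T hT]
    rw [Finset.sum_congr rfl fun T hT =>
      (integral_cen hE hK hp (hFW S hS).1 (hFW T hT).1 (hcard S hS T hT)).2]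
    rw [Finset.sum_ite_eq]
    simp [hS]
  have hGF : ∀ ω ∈ Avoid E W, G ω = Q := by
    intro ω hω
    rw [mem_Avoid] at hω
    simp only [hG, hQ]
    refine Finset.sum_congr rfl fun S hS => Finset.prod_congr rfl fun j hj => ?_
    have : ω ∉ E j := hω j ((hFW S hS).1 hj)
    simp [cen, odds, ix, this]
  have hle : μ.real (Avoid E W) * Q ^ 2 ≤ ∫ ω, G ω ^ 2 ∂μ := by
    have h1 : ∫ ω, (Avoid E W).indicator (fun _ => Q ^ 2) ω ∂μ = μ.real (Avoid E W) * Q ^ 2 := by
      rw [integral_indicator_const _ (measurableSet_Avoid hE W)]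
      simp
    rw [← h1]
    refine integral_mono ((integrable_const _).indicator (measurableSet_Avoid hE W)) hGint ?_
    intro ω
    by_cases hω : ω ∈ Avoid E W
    · simp only [Set.indicator_of_mem hω, hGF ω hω]
      exact le_rfl
    · simp only [Set.indicator_of_notMem hω]
      positivity
  rw [hEG, sq, ← mul_assoc] at hle
  rw [e3]
  have hQ0 : 0 < Q := by linarith
  have := le_of_mul_le_mul_right (a := Q) (b := μ.real (Avoid E W) * Q) (c := 1)
    (by linarith) hQ0
  exact this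

/-- Bonferroni lower bound -/
theorem bonf [IsProbabilityMeasure μ] {E : ℕ → Set Ω} (hE : ∀ n, MeasurableSet (E n))
    {W : Finset ℕ} {K : ℕ} (hK : KProd E μ W K) {r : ℕ} (hr : 2 * r ≤ K) :
    ∏ j ∈ W, (1 - μ.real (E j)) -
      (∑ j ∈ W, μ.real (E j)) ^ (2 * r) / ((2 * r).factorial : ℝ) ≤ μ.real (Avoid E W) := by
  classical
  rcases Nat.eq_zero_or_pos r with rfl | hr0
  · have h1 : ∏ j ∈ W, (1 - μ.real (E j)) ≤ 1 :=
      Finset.prod_le_one (fun j _ => by linarith [measureReal_le_one (μ := μ) (s := E j)])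
        (fun j _ => by linarith [measureReal_nonneg (μ := μ) (s := E j)])
    have h2 : 0 ≤ μ.real (Avoid E W) := measureReal_nonneg
    simp only [mul_zero, pow_zero, Nat.factorial_zero, Nat.cast_one, div_one]
    linarith
  -- pointwise Bonferroni
  have hpt : ∀ ω, ∑ i ∈ Finset.range (2 * r), (-1 : ℝ) ^ i *
      ∑ S ∈ W.powersetCard i, ∏ j ∈ S, ix E j ω ≤ (Avoid E W).indicator (fun _ => (1 : ℝ)) ω := by
    intro ω
    set V := W.filter (fun j => ω ∈ E j) with hV
    have e1 : ∀ i, ∑ S ∈ W.powersetCard i, ∏ j ∈ S, ix E j ω = (V.card.choose i : ℝ) := by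
      intro i
      rw [← Finset.card_powersetCard i V, Finset.card_eq_sum_ones, Nat.cast_sum]
      simp only [Nat.cast_one]
      rw [← Finset.sum_subset (Finset.powersetCard_mono (Finset.filter_subset _ W) :
        V.powersetCard i ⊆ W.powersetCard i)]
      · refine Finset.sum_congr rfl fun S hS => ?_
        refine Finset.prod_eq_one fun j hj => ?_
        have : ω ∈ E j := (Finset.mem_filter.1 ((Finset.mem_powersetCard.1 hS).1 hj)).2
        simp [ix, this]
      · intro S hS hS2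
        obtain ⟨hS3, hS4⟩ := Finset.mem_powersetCard.1 hS
        have : ∃ j ∈ S, j ∉ V := by
          by_contra hcon
          push Not at hcon
          exact hS2 (Finset.mem_powersetCard.2 ⟨hcon, hS4⟩)
        obtain ⟨j, hj, hj2⟩ := this
        refine Finset.prod_eq_zero hj ?_
        have : ω ∉ E j := fun h => hj2 (Finset.mem_filter.2 ⟨hS3 hj, h⟩)
        simp [ix, this]
    simp_rw [e1]
    by_cases hVe : V = ∅
    · have hω : ω ∈ Avoid E W := by
        rw [mem_Avoid]
        intro j hj hjE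
        have : j ∈ V := Finset.mem_filter.2 ⟨hj, hjE⟩
        rw [hVe] at this
        simp at this
      rw [Set.indicator_of_mem hω, hVe]
      obtain ⟨s, hs⟩ : ∃ s, 2 * r = s + 1 := ⟨2 * r - 1, by omega⟩
      rw [hs, Finset.sum_range_succ']
      simp
    · obtain ⟨n, hn⟩ : ∃ n, V.card = n + 1 :=
        ⟨V.card - 1, by have := Finset.card_pos.2 (Finset.nonempty_iff_ne_empty.2 hVe); omega⟩
      have hω : ω ∉ Avoid E W := by
        rw [mem_Avoid]
        push Not
        obtain ⟨j, hj⟩ := Finset.nonempty_iff_ne_empty.2 hVe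
        exact ⟨j, (Finset.mem_filter.1 hj).1, (Finset.mem_filter.1 hj).2⟩
      rw [Set.indicator_of_notMem hω, hn]
      obtain ⟨s, hs⟩ : ∃ s, 2 * r = s + 1 := ⟨2 * r - 1, by omega⟩
      have h1 := Int.alternating_sum_range_choose_eq_choose (n := n) (m := s)
      have h2 : ∑ i ∈ Finset.range (s + 1), (-1 : ℝ) ^ i * ((n + 1).choose i : ℝ) =
          (-1) ^ s * (n.choose s : ℝ) := by exact_mod_cast h1
      rw [hs, h2]
      have hodd : Odd s := by
        rcases Nat.even_or_odd s with he | ho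
        · exfalso
          obtain ⟨a, ha⟩ := he
          omega
        · exact ho
      rw [hodd.neg_one_pow]
      have : (0 : ℝ) ≤ (n.choose s : ℝ) := Nat.cast_nonneg _
      linarith
  have hint : ∀ i ∈ Finset.range (2 * r), Integrable (fun ω => (-1 : ℝ) ^ i *
      ∑ S ∈ W.powersetCard i, ∏ j ∈ S, ix E j ω) μ := fun i _ =>
    (integrable_finsetSum _ fun S _ => integrable_prod_ix hE S).const_mul _
  have h1 : ∫ ω, ∑ i ∈ Finset.range (2 * r), (-1 : ℝ) ^ i *
      ∑ S ∈ W.powersetCard i, ∏ j ∈ S, ix E j ω ∂μ ≤ μ.real (Avoid E W) := by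
    have h2 : ∫ ω, (Avoid E W).indicator (fun _ => (1 : ℝ)) ω ∂μ = μ.real (Avoid E W) := by
      rw [integral_indicator_const _ (measurableSet_Avoid hE W)]
      simp
    rw [← h2]
    exact integral_mono (integrable_finsetSum _ hint)
      ((integrable_const _).indicator (measurableSet_Avoid hE W)) hpt
  have h3 : ∫ ω, ∑ i ∈ Finset.range (2 * r), (-1 : ℝ) ^ i *
      ∑ S ∈ W.powersetCard i, ∏ j ∈ S, ix E j ω ∂μ =
      ∑ i ∈ Finset.range (2 * r), (-1 : ℝ) ^ i * esum W (fun j => μ.real (E j)) i := by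
    rw [integral_finsetSum _ hint]
    refine Finset.sum_congr rfl fun i hi => ?_
    rw [integral_const_mul, integral_finsetSum _ fun S _ => integrable_prod_ix hE S]
    congr 1
    refine Finset.sum_congr rfl fun S hS => ?_
    obtain ⟨hS3, hS4⟩ := Finset.mem_powersetCard.1 hS
    rw [integral_prod_ix hE, hK S hS3 (by have := Finset.mem_range.1 hi; omega)]
  have hx : ∀ j ∈ W, 0 ≤ μ.real (E j) := fun j _ => measureReal_nonneg
  have hx1 : ∀ j ∈ W, μ.real (E j) ≤ 1 := fun j _ => measureReal_le_one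
  have h4 := bonf_prod hx hx1 (2 * r)
  rw [Even.neg_one_pow ⟨r, by ring⟩, one_mul, Finset.sum_range_succ,
    Even.neg_one_pow ⟨r, by ring⟩, one_mul] at h4
  have h5 := esum_le hx (2 * r)
  rw [h3] at h1
  linarith

end Pool.Agent.LibCramer
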