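import Mathlib

/-!
Elementary symmetric sums of a finite family: product bounds.
-/

namespace Pool.Agent.LibCramer

open Finset

/-- elementary symmetric sum of order `k` -/
noncomputable def esum (W : Finset ℕ) (x : ℕ → ℝ) (k : ℕ) : ℝ :=
  ∑ S ∈ W.powersetCard k, ∏ j ∈ S, x j

lemma esum_zero (W : Finset ℕ) (x : ℕ → ℝ) : esum W x 0 = 1 := by
  simp [esum]

lemma esum_empty_succ (x : ℕ → ℝ) (k : ℕ) : esum ∅ x (k + 1) = 0 := by
  unfold esum
  rw [Finset.powersetCard_eq_empty.2 (by simp)]
  simp

lemma esum_nonneg {W : Finset ℕ} {x : ℕ → ℝ} (hx : ∀ j ∈ W, 0 ≤ x j) (k : ℕ) :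
    0 ≤ esum W x k := by
  refine Finset.sum_nonneg fun S hS => Finset.prod_nonneg fun j hj => hx j ?_
  exact (Finset.mem_powersetCard.1 hS).1 hj

lemma esum_insert {W : Finset ℕ} {a : ℕ} (ha : a ∉ W) (x : ℕ → ℝ) (k : ℕ) :
    esum (insert a W) x (k + 1) = esum W x (k + 1) + x a * esum W x k := by
  unfold esum
  rw [Finset.powersetCard_succ_insert ha, Finset.sum_union, Finset.sum_image, Finset.mul_sum]
  · congr 1
    refine Finset.sum_congr rfl fun S hS => ?_
    have haS : a ∉ S := fun h => ha ((Finset.mem_powersetCard.1 hS).1 h)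
    rw [Finset.prod_insert haS]
  · intro S hS T hT hST
    have haS : a ∉ S := fun h => ha ((Finset.mem_powersetCard.1 hS).1 h)
    have haT : a ∉ T := fun h => ha ((Finset.mem_powersetCard.1 hT).1 h)
    have h1 : (insert a S).erase a = (insert a T).erase a := by
      have h0 : insert a S = insert a T := hST
      rw [h0]
    rwa [Finset.erase_insert haS, Finset.erase_insert haT] at h1
  · rw [Finset.disjoint_left]
    intro S hS hS2
    obtain ⟨T, hT, rfl⟩ := Finset.mem_image.1 hS2
    exact ha ((Finset.mem_powersetCard.1 hS).1 (Finset.mem_insert_self a T))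

/-- Bonferroni for the product law -/
lemma bonf_prod {W : Finset ℕ} {x : ℕ → ℝ} (hx : ∀ j ∈ W, 0 ≤ x j) (hx1 : ∀ j ∈ W, x j ≤ 1) :
    ∀ k : ℕ, 0 ≤ (-1 : ℝ) ^ k * (∑ i ∈ Finset.range (k + 1), (-1 : ℝ) ^ i * esum W x i -
      ∏ j ∈ W, (1 - x j)) := by
  induction W using Finset.induction_on with
  | empty =>
    intro k
    have : ∑ i ∈ Finset.range (k + 1), (-1 : ℝ) ^ i * esum ∅ x i = 1 := by
      rw [Finset.sum_range_succ']
      simp [esum_zero, esum_empty_succ]
    rw [this]
    simp
  | insert a W ha ih =>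
    have hx' : ∀ j ∈ W, 0 ≤ x j := fun j hj => hx j (Finset.mem_insert_of_mem hj)
    have hx1' : ∀ j ∈ W, x j ≤ 1 := fun j hj => hx1 j (Finset.mem_insert_of_mem hj)
    have ih' := ih hx' hx1'
    have ha0 := hx a (Finset.mem_insert_self a W)
    have ha1 := hx1 a (Finset.mem_insert_self a W)
    have hP : 0 ≤ ∏ j ∈ W, (1 - x j) := Finset.prod_nonneg fun j hj => by linarith [hx1' j hj]
    intro k
    rw [Finset.prod_insert ha]
    cases k with
    | zero =>
      have h0 := ih' 0
      simp only [pow_zero, one_mul, zero_add, Finset.range_one, Finset.sum_singleton, esum_zero]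
        at h0 ⊢
      nlinarith
    | succ k =>
      have h1 := ih' (k + 1)
      have h2 := ih' k
      have e1 : ∑ i ∈ Finset.range (k + 1 + 1), (-1 : ℝ) ^ i * esum (insert a W) x i =
          ∑ i ∈ Finset.range (k + 1 + 1), (-1 : ℝ) ^ i * esum W x i -
          x a * ∑ i ∈ Finset.range (k + 1), (-1 : ℝ) ^ i * esum W x i := by
        rw [Finset.sum_range_succ', Finset.sum_range_succ' (n := k + 1), esum_zero, esum_zero,
          Finset.mul_sum]
        have : ∀ i ∈ Finset.range (k + 1), (-1 : ℝ) ^ (i + 1) * esum (insert a W) x (i + 1) =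
            (-1 : ℝ) ^ (i + 1) * esum W x (i + 1) - x a * ((-1 : ℝ) ^ i * esum W x i) := by
          intro i _
          rw [esum_insert ha]
          ring
        rw [Finset.sum_congr rfl this, Finset.sum_sub_distrib]
        ring
      rw [e1]
      have e2 : (-1 : ℝ) ^ (k + 1) * (∑ i ∈ Finset.range (k + 1 + 1), (-1 : ℝ) ^ i * esum W x i -
          x a * ∑ i ∈ Finset.range (k + 1), (-1 : ℝ) ^ i * esum W x i -
          (1 - x a) * ∏ j ∈ W, (1 - x j)) =
          (-1 : ℝ) ^ (k + 1) * (∑ i ∈ Finset.range (k + 1 + 1), (-1 : ℝ) ^ i * esum W x i -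
            ∏ j ∈ W, (1 - x j)) + x a * ((-1 : ℝ) ^ k *
            (∑ i ∈ Finset.range (k + 1), (-1 : ℝ) ^ i * esum W x i - ∏ j ∈ W, (1 - x j))) := by
        ring
      rw [e2]
      exact add_nonneg h1 (mul_nonneg ha0 h2)

/-- upper bound by the power of the sum -/
lemma esum_le {W : Finset ℕ} {x : ℕ → ℝ} (hx : ∀ j ∈ W, 0 ≤ x j) :
    ∀ k : ℕ, esum W x k ≤ (∑ j ∈ W, x j) ^ k / (k.factorial : ℝ) := by
  induction W using Finset.induction_on with
  | empty =>
    intro k
    cases k with
    | zero => simp [esum_zero]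
    | succ k => rw [esum_empty_succ]; simp
  | insert a W ha ih =>
    have hx' : ∀ j ∈ W, 0 ≤ x j := fun j hj => hx j (Finset.mem_insert_of_mem hj)
    have ha0 := hx a (Finset.mem_insert_self a W)
    have ih' := ih hx'
    have hs : 0 ≤ ∑ j ∈ W, x j := Finset.sum_nonneg hx'
    intro k
    rw [Finset.sum_insert ha]
    cases k with
    | zero => simp [esum_zero]
    | succ k =>
      rw [esum_insert ha]
      have h1 := ih' (k + 1)
      have h2 := mul_le_mul_of_nonneg_left (ih' k) ha0
      have hf : ((k + 1).factorial : ℝ) = (k + 1) * (k.factorial : ℝ) := by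
        rw [Nat.factorial_succ]; push_cast; ring
      have hfp : (0 : ℝ) < (k.factorial : ℝ) := by exact_mod_cast Nat.factorial_pos k
      have hk1 : (0 : ℝ) < (k : ℝ) + 1 := by positivity
      refine (add_le_add h1 h2).trans ?_
      set s := ∑ j ∈ W, x j with hsdef
      have h3 : s ^ (k + 1) + (k + 1) * x a * s ^ k ≤ (x a + s) ^ (k + 1) := by
        have h4 := add_pow (x a) s (k + 1)
        rw [h4, Finset.sum_range_succ', Finset.sum_range_succ']
        have h5 : 0 ≤ ∑ i ∈ Finset.range k, x a ^ (i + 1 + 1) * s ^ (k + 1 - (i + 1 + 1)) *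
            ((k + 1).choose (i + 1 + 1) : ℝ) := by
          refine Finset.sum_nonneg fun i _ => by positivity
        have h6 : ((k + 1).choose (0 + 1) : ℝ) = k + 1 := by
          simp
        rw [h6]
        simp only [zero_add, pow_one, pow_zero, one_mul, Nat.choose_zero_right, Nat.cast_one,
          mul_one, Nat.add_sub_cancel, Nat.sub_zero]
        nlinarith
      rw [hf, div_add' _ _ _ (by positivity), div_le_div_iff_of_pos_right (by positivity)]
      calc s ^ (k + 1) + x a * (s ^ k / (k.factorial : ℝ)) * ((k + 1) * (k.factorial : ℝ))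
          = s ^ (k + 1) + (k + 1) * x a * s ^ k := by field_simp
        _ ≤ _ := h3

/-- lower bound by the power of the reduced sum -/
lemma le_esum {W : Finset ℕ} {x : ℕ → ℝ} {M : ℝ} (hM : 0 ≤ M) (hx : ∀ j ∈ W, 0 ≤ x j)
    (hxM : ∀ j ∈ W, x j ≤ M) :
    ∀ k : ℕ, (max 0 (∑ j ∈ W, x j - k * M)) ^ k / (k.factorial : ℝ) ≤ esum W x k := by
  induction W using Finset.induction_on with
  | empty =>
    intro k
    cases k with
    | zero => simp [esum_zero]
    | succ k =>
      rw [esum_empty_succ]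
      have : max 0 (∑ j ∈ (∅ : Finset ℕ), x j - ((k + 1 : ℕ) : ℝ) * M) = 0 := by
        apply max_eq_left
        simp only [Finset.sum_empty, zero_sub, Left.neg_nonpos_iff]
        positivity
      rw [this]
      simp
  | insert a W ha ih =>
    have hx' : ∀ j ∈ W, 0 ≤ x j := fun j hj => hx j (Finset.mem_insert_of_mem hj)
    have hxM' : ∀ j ∈ W, x j ≤ M := fun j hj => hxM j (Finset.mem_insert_of_mem hj)
    have ha0 := hx a (Finset.mem_insert_self a W)
    have haM := hxM a (Finset.mem_insert_self a W)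
    have ih' := ih hx' hxM'
    intro k
    rw [Finset.sum_insert ha]
    cases k with
    | zero => simp [esum_zero]
    | succ k =>
      rw [esum_insert ha]
      have h1 := ih' (k + 1)
      have h2 := mul_le_mul_of_nonneg_left (ih' k) ha0
      have hf : ((k + 1).factorial : ℝ) = (k + 1) * (k.factorial : ℝ) := by
        rw [Nat.factorial_succ]; push_cast; ring
      have hfp : (0 : ℝ) < (k.factorial : ℝ) := by exact_mod_cast Nat.factorial_pos k
      refine le_trans ?_ (add_le_add h1 h2)
      set s := ∑ j ∈ W, x j with hsdef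
      set u := max 0 (x a + s - ((k + 1 : ℕ) : ℝ) * M) with hu
      set v := max 0 (s - ((k + 1 : ℕ) : ℝ) * M) with hv
      set w := max 0 (s - (k : ℝ) * M) with hw
      have hv0 : 0 ≤ v := le_max_left _ _
      have hw0 : 0 ≤ w := le_max_left _ _
      have hu0 : 0 ≤ u := le_max_left _ _
      have huw : u ≤ w := by
        refine max_le_max le_rfl ?_
        push_cast
        linarith
      have hvu : v ≤ u := max_le_max le_rfl (by linarith)
      have huv : u - v ≤ x a := by
        have : u ≤ v + x a := by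
          refine max_le (by positivity) ?_
          have := le_max_right 0 (s - ((k + 1 : ℕ) : ℝ) * M)
          linarith
        linarith
      -- u^(k+1) - v^(k+1) ≤ (k+1)(u-v) u^k
      have h3 : u ^ (k + 1) ≤ v ^ (k + 1) + (k + 1) * (u - v) * u ^ k := by
        have h4 : u ^ (k + 1) - v ^ (k + 1) =
            (∑ i ∈ Finset.range (k + 1), u ^ i * v ^ (k + 1 - 1 - i)) * (u - v) :=
          (geom_sum₂_mul u v (k + 1)).symm
        have h5 : ∑ i ∈ Finset.range (k + 1), u ^ i * v ^ (k + 1 - 1 - i) ≤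
            ∑ i ∈ Finset.range (k + 1), u ^ k := by
          refine Finset.sum_le_sum fun i hi => ?_
          have hi' : i ≤ k := Nat.lt_succ_iff.1 (Finset.mem_range.1 hi)
          calc u ^ i * v ^ (k + 1 - 1 - i) ≤ u ^ i * u ^ (k + 1 - 1 - i) :=
                mul_le_mul_of_nonneg_left (pow_le_pow_left₀ hv0 hvu _) (by positivity)
            _ = u ^ k := by rw [← pow_add]; congr 1; omega
        rw [Finset.sum_const, Finset.card_range, nsmul_eq_mul, Nat.cast_add, Nat.cast_one] at h5
        have h6 := mul_le_mul_of_nonneg_right h5 (sub_nonneg.2 hvu)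
        rw [← h4] at h6
        linarith
      have h7 : (k + 1) * (u - v) * u ^ k ≤ (k + 1) * x a * w ^ k := by
        have h8 : u ^ k ≤ w ^ k := pow_le_pow_left₀ hu0 huw k
        have h9 : (u - v) * u ^ k ≤ x a * w ^ k :=
          mul_le_mul huv h8 (by positivity) ha0
        have hk1 : (0 : ℝ) ≤ (k : ℝ) + 1 := by positivity
        nlinarith [mul_le_mul_of_nonneg_left h9 hk1]
      have hfp' : (0 : ℝ) < (k + 1) * (k.factorial : ℝ) := by positivity
      rw [hf]
      calc u ^ (k + 1) / ((k + 1) * (k.factorial : ℝ))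
          ≤ (v ^ (k + 1) + (k + 1) * x a * w ^ k) / ((k + 1) * (k.factorial : ℝ)) := by
            rw [div_le_div_iff_of_pos_right hfp']
            linarith
        _ = v ^ (k + 1) / ((k + 1) * (k.factorial : ℝ)) + x a * (w ^ k / (k.factorial : ℝ)) := by
            field_simp

/-- Chernoff bound: `∑_{k ≤ m} e_k(x) ≥ ∏ (1 + x) - z^{-m} ∏ (1 + z x)` for `z ≥ 1`. -/
lemma sum_esum_ge {W : Finset ℕ} {x : ℕ → ℝ} (hx : ∀ j ∈ W, 0 ≤ x j) {z : ℝ} (hz : 1 ≤ z)
    (m : ℕ) :
    ∏ j ∈ W, (1 + x j) - (∏ j ∈ W, (1 + z * x j)) / z ^ m ≤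
      ∑ k ∈ Finset.range (m + 1), esum W x k := by
  have hz0 : 0 < z := by linarith
  have hterm : ∀ S ∈ W.powerset, 0 ≤ ∏ j ∈ S, x j := fun S hS =>
    Finset.prod_nonneg fun j hj => hx j (Finset.mem_powerset.1 hS hj)
  have e1 : ∏ j ∈ W, (1 + x j) = ∑ S ∈ W.powerset, ∏ j ∈ S, x j := Finset.prod_one_add W
  have e2 : ∏ j ∈ W, (1 + z * x j) = ∑ S ∈ W.powerset, z ^ S.card * ∏ j ∈ S, x j := by
    rw [Finset.prod_one_add W]
    refine Finset.sum_congr rfl fun S _ => ?_
    rw [Finset.prod_mul_distrib, Finset.prod_const]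
  have e3 : ∑ k ∈ Finset.range (m + 1), esum W x k =
      ∑ S ∈ W.powerset.filter (fun S => S.card ≤ m), ∏ j ∈ S, x j := by
    unfold esum
    rw [← Finset.sum_biUnion]
    · refine Finset.sum_congr ?_ fun _ _ => rfl
      ext S
      simp only [Finset.mem_biUnion, Finset.mem_range, Finset.mem_powersetCard, Finset.mem_filter,
        Finset.mem_powerset]
      constructor
      · rintro ⟨k, hk, hS, rfl⟩
        exact ⟨hS, by omega⟩
      · rintro ⟨hS, hc⟩
        exact ⟨S.card, by omega, hS, rfl⟩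
    · intro i _ j _ hij
      exact Finset.pairwise_disjoint_powersetCard W hij
  rw [e1, e2, e3, sub_le_iff_le_add, Finset.sum_div,
    ← Finset.sum_filter_add_sum_filter_not W.powerset (fun S => S.card ≤ m) (fun S => ∏ j ∈ S, x j)]
  refine add_le_add le_rfl ?_
  have h1 : ∑ S ∈ W.powerset.filter (fun S => ¬ S.card ≤ m), ∏ j ∈ S, x j ≤
      ∑ S ∈ W.powerset.filter (fun S => ¬ S.card ≤ m), z ^ S.card * (∏ j ∈ S, x j) / z ^ m := by
    refine Finset.sum_le_sum fun S hS => ?_
    obtain ⟨hS1, hS2⟩ := Finset.mem_filter.1 hS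
    have h2 : z ^ m ≤ z ^ S.card := pow_le_pow_right₀ hz (by omega)
    rw [le_div_iff₀ (by positivity), mul_comm]
    exact mul_le_mul_of_nonneg_right h2 (hterm S hS1)
  refine h1.trans (Finset.sum_le_sum_of_subset_of_nonneg (Finset.filter_subset _ _)
    fun S hS _ => ?_)
  exact div_nonneg (mul_nonneg (by positivity) (hterm S hS)) (by positivity)

end Pool.Agent.LibCramer
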