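import Pool.Agent.LibCI7.Rao
import Pool.Agent.LibCramer.LowerTail

/-!
Upper bound for the Cramer constant under independence of order `t log n`.
-/

namespace Pool.Agent.LibCramer

open Finset MeasureTheory ProbabilityTheory Filter Topology
open Pool.Agent.LibCramer.LowerTail (tendsto_logn factorial_le tendsto_log_add_len_div tendsto_len_div)

variable {Ω : Type*} [MeasurableSpace Ω] {μ : Measure Ω}

/-- The product rule for every finite set `S` of at most `k j` indices, `j ∈ S`. -/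
def IndepUpTo (E : ℕ → Set Ω) (μ : Measure Ω) (k : ℕ → ℕ) : Prop :=
  ∀ S : Finset ℕ, (∀ j ∈ S, S.card ≤ k j) → μ.real (⋂ j ∈ S, E j) = ∏ j ∈ S, μ.real (E j)

/-- the window of length `l log² m` after `m` -/
noncomputable def win (l : ℝ) (m : ℕ) : Finset ℕ := Finset.Ioc m (m + len l m)

/-- all local averages are `1 / log` -/
def LocDens (p : ℕ → ℝ) : Prop :=
  Tendsto p atTop (𝓝 0) ∧ ∀ l : ℝ, 0 < l →
    Tendsto (fun m : ℕ => (∑ j ∈ win l m, p j) / Real.log (m : ℝ)) atTop (𝓝 l)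

lemma kprod_of_indepUpTo {E : ℕ → Set Ω} {k : ℕ → ℕ} (h : IndepUpTo E μ k) {W : Finset ℕ} {K : ℕ}
    (hW : ∀ j ∈ W, K ≤ k j) : KProd E μ W K := fun S hS hc =>
  h S fun j hj => hc.trans (hW j (hS hj))

lemma odds_ge {E : ℕ → Set Ω} {j : ℕ} (hj : μ.real (E j) < 1) : μ.real (E j) ≤ odds E μ j := by
  unfold odds
  rw [le_div_iff₀ (by linarith)]
  nlinarith [measureReal_nonneg (μ := μ) (s := E j)]

lemma odds_le {E : ℕ → Set Ω} {j : ℕ} {η : ℝ} (hη : η ≤ 1 / 2) (hj : μ.real (E j) ≤ η) :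
    odds E μ j ≤ (1 + 2 * η) * μ.real (E j) := by
  unfold odds
  have h0 := measureReal_nonneg (μ := μ) (s := E j)
  rw [div_le_iff₀ (by linarith)]
  nlinarith [mul_nonneg h0 (sub_nonneg.2 hj), mul_nonneg h0 (sub_nonneg.2 hη)]

/-- eventually in `m`, for all later indices -/
lemma eventually_forall_ge' {P : ℕ → Prop} (h : ∀ᶠ n in atTop, P n) :
    ∀ᶠ m in atTop, ∀ n, m ≤ n → P n := by
  obtain ⟨N, hN⟩ := eventually_atTop.1 h
  filter_upwards [eventually_ge_atTop N] with m hm n hn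
  exact hN n (hm.trans hn)

/-- the exponent of Rao's bound -/
theorem avoid_le_rpow [IsProbabilityMeasure μ] {E : ℕ → Set Ω} (hE : ∀ n, MeasurableSet (E n))
    {k : ℕ → ℕ} (hind : IndepUpTo E μ k) (hloc : LocDens (fun n => μ.real (E n)))
    {t : ℝ} (hk : ∀ᶠ n : ℕ in atTop, t * Real.log (n : ℝ) ≤ k n)
    {κ l a : ℝ} (hκ0 : 0 < κ) (hκt : 2 * κ ≤ t) (hκl : κ < l)
    (ha : a < κ * (1 + Real.log (l / κ))) :
    ∀ᶠ m : ℕ in atTop, μ.real (Avoid E (win l m)) ≤ (m : ℝ) ^ (-a) := by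
  have hl : 0 < l := hκ0.trans hκl
  -- choose `l'` below `l`
  obtain ⟨l', hl'1, hl'2, hl'3⟩ : ∃ l' : ℝ, κ < l' ∧ l' < l ∧ a < κ * (1 + Real.log (l' / κ)) := by
    have hc : ContinuousAt (fun x : ℝ => κ * (1 + Real.log (x / κ))) l := by
      have : ContinuousAt (fun x : ℝ => Real.log (x / κ)) l :=
        ContinuousAt.log (by fun_prop) (by positivity)
      fun_prop
    have h1 : ∀ᶠ x in 𝓝 l, a < κ * (1 + Real.log (x / κ)) := hc.eventually (lt_mem_nhds ha)
    have h2 : ∀ᶠ x in 𝓝[<] l, a < κ * (1 + Real.log (x / κ)) := h1.filter_mono nhdsWithin_le_nhds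
    have h3 : ∀ᶠ x in 𝓝[<] l, κ < x :=
      (eventually_gt_nhds hκl).filter_mono nhdsWithin_le_nhds
    have h4 : ∀ᶠ x in 𝓝[<] l, x < l := eventually_mem_nhdsWithin
    obtain ⟨x, hx1, hx2, hx3⟩ := (h2.and (h3.and h4)).exists
    exact ⟨x, hx2, hx3, hx1⟩
  have hl'0 : 0 < l' := hκ0.trans hl'1
  set A : ℝ := 1 + Real.log (l' / κ) with hA
  have hA1 : 0 < A := by
    have : 0 ≤ Real.log (l' / κ) := Real.log_nonneg (by rw [le_div_iff₀ hκ0]; linarith)
    linarith
  -- gap
  set g : ℝ := (l - l') / 2 with hg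
  have hg0 : 0 < g := by rw [hg]; linarith
  obtain ⟨η, hη0, hη1, hη2⟩ : ∃ η : ℝ, 0 < η ∧ η ≤ 1 / 2 ∧ κ * (2 * η) ≤ g := by
    refine ⟨min (1 / 2) (g / (2 * κ)), by positivity, min_le_left _ _, ?_⟩
    have := min_le_right (1 / 2) (g / (2 * κ))
    calc κ * (2 * min (1 / 2) (g / (2 * κ))) ≤ κ * (2 * (g / (2 * κ))) := by gcongr
      _ = g := by field_simp
  have hp : ∀ᶠ m : ℕ in atTop, ∀ n, m ≤ n → μ.real (E n) < η :=
    eventually_forall_ge' (hloc.1.eventually (gt_mem_nhds hη0))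
  have hk' := eventually_forall_ge' hk
  have hsum : ∀ᶠ m : ℕ in atTop, l - g < (∑ j ∈ win l m, μ.real (E j)) / Real.log (m : ℝ) :=
    (hloc.2 l hl).eventually (lt_mem_nhds (by linarith))
  have hlog := tendsto_logn
  -- the final numeric inequality
  have hnum : ∀ᶠ m : ℕ in atTop, a * Real.log (m : ℝ) ≤
      (κ * Real.log (m : ℝ) - 1) * A - Real.log (κ * Real.log (m : ℝ)) - 1 := by
    have h1 : Tendsto (fun x : ℝ => Real.log x / x) atTop (𝓝 0) := by
      have := Real.isLittleO_log_id_atTop.tendsto_div_nhds_zero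
      simpa using this
    have h2 : ∀ᶠ x : ℝ in atTop, Real.log x / x < (κ * A - a) / (2 * κ) :=
      h1.eventually (gt_mem_nhds (by
        apply div_pos
        · linarith
        · positivity))
    have h3 : Tendsto (fun m : ℕ => κ * Real.log (m : ℝ)) atTop atTop :=
      hlog.const_mul_atTop hκ0
    have h4 : ∀ᶠ m : ℕ in atTop, (A + 1) / ((κ * A - a) / (2 * κ)) + 1 ≤ κ * Real.log (m : ℝ) :=
      h3.eventually_ge_atTop _
    filter_upwards [h3.eventually h2, h4, h3.eventually_ge_atTop 1] with m hm1 hm2 hm3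
    set x := κ * Real.log (m : ℝ) with hx
    have hx0 : 0 < x := by linarith
    have hd : 0 < (κ * A - a) / (2 * κ) := by
      apply div_pos
      · linarith
      · positivity
    set d := (κ * A - a) / (2 * κ) with hd'
    have h5 : Real.log x < d * x := by rwa [div_lt_iff₀ hx0] at hm1
    have h6 : (A + 1) ≤ d * x := by
      have : (A + 1) / d ≤ x := by linarith
      rwa [div_le_iff₀ hd, mul_comm] at this
    have h7 : a * Real.log (m : ℝ) = (a / κ) * x := by rw [hx]; field_simp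
    have h8 : 2 * d = A - a / κ := by rw [hd']; field_simp
    rw [h7]
    nlinarith
  filter_upwards [hp, hk', hsum, hnum, hlog.eventually_ge_atTop (2 / κ + 2),
    eventually_ge_atTop 3] with m hp hk' hsum hnum hlogm hm3
  have hm1 : (1 : ℝ) < m := by
    have : (3 : ℝ) ≤ m := by exact_mod_cast hm3
    linarith
  have hm0 : (0 : ℝ) < m := by linarith
  have hL0 : 0 < Real.log (m : ℝ) := Real.log_pos hm1
  set L := Real.log (m : ℝ) with hL
  set W := win l m with hW
  have hWm : ∀ j ∈ W, m ≤ j := fun j hj => (Finset.mem_Ioc.1 hj).1.le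
  set r := ⌊κ * L⌋₊ with hr
  have hrle : (r : ℝ) ≤ κ * L := Nat.floor_le (by positivity)
  have hrge : κ * L - 1 < r := by
    have := Nat.lt_floor_add_one (κ * L)
    linarith
  have hr1 : 1 ≤ r := by
    rw [hr, Nat.one_le_floor_iff]
    have h1 : κ * (2 / κ + 2) ≤ κ * L := mul_le_mul_of_nonneg_left hlogm hκ0.le
    have h2 : κ * (2 / κ + 2) = 2 + 2 * κ := by field_simp
    linarith
  have hK : KProd E μ W (2 * r) := by
    apply kprod_of_indepUpTo hind
    intro j hj
    have hmj := hWm j hj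
    have h1 := hk' j hmj
    have h2 : t * L ≤ t * Real.log (j : ℝ) := by
      apply mul_le_mul_of_nonneg_left _ (by linarith)
      exact Real.log_le_log hm0 (by exact_mod_cast hmj)
    have h3 : (2 * (r : ℝ)) ≤ k j := by
      have : 2 * (κ * L) ≤ t * L := by nlinarith
      linarith
    exact_mod_cast h3
  have hpW : ∀ j ∈ W, μ.real (E j) < η := fun j hj => hp j (hWm j hj)
  have hpW1 : ∀ j ∈ W, μ.real (E j) < 1 := fun j hj => (hpW j hj).trans (by linarith)
  have hrao := rao hE hK hpW1 le_rfl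
  have hodds0 : ∀ j ∈ W, 0 ≤ odds E μ j := fun j hj =>
    measureReal_nonneg.trans (odds_ge (hpW1 j hj))
  have hoddsM : ∀ j ∈ W, odds E μ j ≤ 2 * η := fun j hj => by
    have h1 := odds_le hη1 (hpW j hj).le
    have h2 := (hpW j hj).le
    have h3 : (1 + 2 * η) * μ.real (E j) ≤ (1 + 2 * η) * η := by gcongr
    nlinarith
  have hle := le_esum (by positivity : (0:ℝ) ≤ 2 * η) hodds0 hoddsM r
  have hsum' : (l - g) * L ≤ ∑ j ∈ W, odds E μ j := by
    rw [lt_div_iff₀ hL0] at hsum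
    exact hsum.le.trans (Finset.sum_le_sum fun j hj => odds_ge (hpW1 j hj))
  have hmax : l' * L ≤ max 0 (∑ j ∈ W, odds E μ j - r * (2 * η)) := by
    refine le_trans ?_ (le_max_right _ _)
    have h1 : (r : ℝ) * (2 * η) ≤ κ * L * (2 * η) := by gcongr
    have h2 : κ * L * (2 * η) ≤ g * L := by
      have := mul_le_mul_of_nonneg_right hη2 hL0.le
      nlinarith
    have h3 : l - g - g = l' := by rw [hg]; ring
    nlinarith
  have hfac : (0 : ℝ) < (r.factorial : ℝ) := by exact_mod_cast Nat.factorial_pos r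
  have hes : (l' * L) ^ r / (r.factorial : ℝ) ≤ esum W (odds E μ) r := by
    refine le_trans ?_ hle
    rw [div_le_div_iff_of_pos_right hfac]
    exact pow_le_pow_left₀ (by positivity) hmax r
  have hes2 : esum W (odds E μ) r ≤ ∑ k ∈ Finset.range (r + 1), esum W (odds E μ) k :=
    Finset.single_le_sum (f := fun k => esum W (odds E μ) k)
      (fun k _ => esum_nonneg hodds0 k) (Finset.mem_range.2 (Nat.lt_succ_self r))
  have hP0 : 0 ≤ μ.real (Avoid E W) := measureReal_nonneg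
  have hfin : μ.real (Avoid E W) * ((l' * L) ^ r / (r.factorial : ℝ)) ≤ 1 :=
    (mul_le_mul_of_nonneg_left (hes.trans hes2) hP0).trans hrao
  -- logs
  have hlogfac := factorial_le r hr1
  have hX : (m : ℝ) ^ a ≤ (l' * L) ^ r / (r.factorial : ℝ) := by
    rw [← Real.log_le_log_iff (by positivity) (by positivity), Real.log_rpow hm0,
      Real.log_div (by positivity) (by positivity), Real.log_pow]
    refine hnum.trans ?_
    have hr0 : (0 : ℝ) < r := by exact_mod_cast hr1
    have h1 : Real.log (r : ℝ) ≤ Real.log (κ * L) := Real.log_le_log hr0 hrle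
    have h2 : Real.log (l' * L) = Real.log (l' / κ) + Real.log (κ * L) := by
      rw [← Real.log_mul (by positivity) (by positivity)]
      congr 1
      field_simp
    have h3 : (κ * L - 1) * A ≤ r * A := mul_le_mul_of_nonneg_right hrge.le hA1.le
    rw [h2]
    have h4 : (r : ℝ) * Real.log (r : ℝ) ≤ r * Real.log (κ * L) :=
      mul_le_mul_of_nonneg_left h1 hr0.le
    have h5 : (r : ℝ) * A = r + r * Real.log (l' / κ) := by rw [hA]; ring
    nlinarith
  have hma : (0 : ℝ) < (m : ℝ) ^ a := Real.rpow_pos_of_pos hm0 a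
  rw [Real.rpow_neg hm0.le, ← one_div, le_div_iff₀ hma]
  exact (mul_le_mul_of_nonneg_left hX hP0).trans hfin

/-- almost surely all windows are hit -/
theorem ae_hit [IsProbabilityMeasure μ] {E : ℕ → Set Ω} (hE : ∀ n, MeasurableSet (E n))
    {k : ℕ → ℕ} (hind : IndepUpTo E μ k) (hloc : LocDens (fun n => μ.real (E n)))
    {t : ℝ} (hk : ∀ᶠ n : ℕ in atTop, t * Real.log (n : ℝ) ≤ k n)
    {κ l : ℝ} (hκ0 : 0 < κ) (hκt : 2 * κ ≤ t) (hκl : κ < l)
    (ha : 1 < κ * (1 + Real.log (l / κ))) :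
    ∀ᵐ ω ∂μ, ∀ᶠ m : ℕ in atTop, ∃ j ∈ {n | ω ∈ E n}, m < j ∧ j ≤ m + len l m := by
  obtain ⟨a, ha1, ha2⟩ := exists_between ha
  have h1 := avoid_le_rpow hE hind hloc hk hκ0 hκt hκl ha2
  have h2 : Summable fun m : ℕ => μ.real (Avoid E (win l m)) := by
    have h3 : Summable fun m : ℕ => (m : ℝ) ^ (-a) := Real.summable_nat_rpow.2 (by linarith)
    refine h3.of_norm_bounded_eventually_nat ?_
    filter_upwards [h1] with m hm
    rwa [Real.norm_of_nonneg measureReal_nonneg]
  have h4 : ∑' m : ℕ, μ (Avoid E (win l m)) ≠ ⊤ := by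
    have h5 : ∀ m, μ (Avoid E (win l m)) = ENNReal.ofReal (μ.real (Avoid E (win l m))) :=
      fun m => (ENNReal.ofReal_toReal (measure_ne_top _ _)).symm
    simp_rw [h5]
    exact h2.tsum_ofReal_ne_top
  have h6 := ae_eventually_notMem h4
  filter_upwards [h6] with ω hω
  filter_upwards [hω] with m hm
  rw [mem_Avoid] at hm
  push Not at hm
  obtain ⟨j, hj, hj2⟩ := hm
  obtain ⟨hj3, hj4⟩ := Finset.mem_Ioc.1 hj
  exact ⟨j, hj2, hj3, hj4⟩

lemma infinite_of_hit {B : Set ℕ} {l : ℝ}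
    (h : ∀ᶠ m : ℕ in atTop, ∃ j ∈ B, m < j ∧ j ≤ m + len l m) : B.Infinite := by
  rw [Set.infinite_iff_exists_gt]
  intro n
  obtain ⟨N, hN⟩ := eventually_atTop.1 h
  obtain ⟨j, hj, hj1, _⟩ := hN (max N n) (le_max_left _ _)
  exact ⟨j, hj, lt_of_le_of_lt (le_max_right _ _) hj1⟩

/-- the upper bound: `1` for `t ≥ 2`, `(t/2) e^{2/t - 1}` for `t < 2` -/
noncomputable def raoBound (t : ℝ) : ℝ := if 2 ≤ t then 1 else t / 2 * Real.exp (2 / t - 1)

theorem cramer_le_rao [IsProbabilityMeasure μ] {E : ℕ → Set Ω} (hE : ∀ n, MeasurableSet (E n))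
    {k : ℕ → ℕ} (hind : IndepUpTo E μ k) (hloc : LocDens (fun n => μ.real (E n)))
    {t : ℝ} (ht : 0 < t) (hk : ∀ᶠ n : ℕ in atTop, t * Real.log (n : ℝ) ≤ k n) :
    ∀ᵐ ω ∂μ, {n | ω ∈ E n}.Infinite ∧
      cramer {n | ω ∈ E n} ≤ ENNReal.ofReal (raoBound t) := by
  -- for every `l > raoBound t`
  have key : ∀ l : ℝ, raoBound t < l → ∀ᵐ ω ∂μ, ∀ᶠ m : ℕ in atTop,
      ∃ j ∈ {n | ω ∈ E n}, m < j ∧ j ≤ m + len l m := by
    intro l hl
    rcases le_or_gt 2 t with h2 | h2
    · have h1 : 1 < l := by simpa [raoBound, h2] using hl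
      refine ae_hit hE hind hloc hk (κ := 1) one_pos (by linarith) h1 ?_
      have : 0 < Real.log (l / 1) := Real.log_pos (by linarith)
      linarith
    · have h1 : t / 2 * Real.exp (2 / t - 1) < l := by
        have : ¬ (2 ≤ t) := not_le.2 h2
        simpa [raoBound, this] using hl
      have h3 : 0 < 2 / t - 1 := by
        have : 1 < 2 / t := by rw [lt_div_iff₀ ht]; linarith
        linarith
      have h4 : t / 2 < l := by
        refine lt_trans ?_ h1
        have : 1 < Real.exp (2 / t - 1) := Real.one_lt_exp_iff.2 h3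
        nlinarith
      refine ae_hit hE hind hloc hk (κ := t / 2) (by positivity) (by linarith) h4 ?_
      have hl0 : 0 < l := lt_trans (by positivity) h4
      have h5 : 2 / t - 1 < Real.log (l / (t / 2)) := by
        rw [Real.lt_log_iff_exp_lt (by positivity), lt_div_iff₀ (by positivity)]
        linarith
      have h6 : t / 2 * (2 / t - 1) < t / 2 * Real.log (l / (t / 2)) :=
        mul_lt_mul_of_pos_left h5 (by positivity)
      have h7 : t / 2 * (2 / t - 1) = 1 - t / 2 := by field_simp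
      linarith
  have hR0 : 0 ≤ raoBound t := by
    unfold raoBound
    split_ifs
    · exact zero_le_one
    · positivity
  have h1 : ∀ᵐ ω ∂μ, ∀ n : ℕ, ∀ᶠ m : ℕ in atTop,
      ∃ j ∈ {n | ω ∈ E n}, m < j ∧ j ≤ m + len (raoBound t + 1 / ((n : ℝ) + 1)) m :=
    ae_all_iff.2 fun n => key _ (by
      have : (0 : ℝ) < 1 / ((n : ℝ) + 1) := by positivity
      linarith)
  filter_upwards [h1] with ω hω
  have hinf : {n | ω ∈ E n}.Infinite := infinite_of_hit (hω 0)
  refine ⟨hinf, ?_⟩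
  have h2 : ∀ n : ℕ, cramer {n | ω ∈ E n} ≤ ENNReal.ofReal (raoBound t + 1 / ((n : ℝ) + 1)) :=
    fun n => cramer_le hinf
      (add_nonneg hR0 (by positivity : (0 : ℝ) ≤ 1 / ((n : ℝ) + 1))) (hω n)
  have h3 : Tendsto (fun n : ℕ => ENNReal.ofReal (raoBound t + 1 / ((n : ℝ) + 1))) atTop
      (𝓝 (ENNReal.ofReal (raoBound t))) := by
    apply ENNReal.tendsto_ofReal
    have := (tendsto_one_div_add_atTop_nhds_zero_nat (𝕜 := ℝ)).const_add (raoBound t)
    simpa using this
  exact ge_of_tendsto' h3 h2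

end Pool.Agent.LibCramer
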