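import Pool.Agent.LibCI7.Big

/-!
Laws of small and big blocks exist.
-/

namespace Pool.Agent.LibCramer

open Finset Filter Topology Pool.Agent.LibBar93
open Pool.Agent.LibCramer.LowerTail (tendsto_logn factorial_le tendsto_log_add_len_div tendsto_len_div)

/-- the densities used in the construction -/
structure GoodWeight (p : ℕ → ℝ) : Prop where
  nonneg : ∀ n, 0 ≤ p n
  loc : LocDens p
  comp : ∀ C ε : ℝ, 0 < C → 0 < ε → ∀ᶠ m : ℕ in atTop, ∃ τ : ℝ, 0 < τ ∧
    ∀ n ∈ win C m, p n = 0 ∨ (τ ≤ p n ∧ p n ≤ (1 + ε) * τ)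

open Classical in
/-- the support in a window -/
noncomputable def supp (p : ℕ → ℝ) (l : ℝ) (m : ℕ) : Finset ℕ := (win l m).filter (fun n => p n ≠ 0)

lemma sum_supp (p : ℕ → ℝ) (l : ℝ) (m : ℕ) : ∑ n ∈ supp p l m, p n = ∑ n ∈ win l m, p n := by
  classical
  unfold supp
  rw [Finset.sum_filter]
  refine Finset.sum_congr rfl fun n _ => ?_
  by_cases h : p n = 0 <;> simp [h]

/-- slowly growing orders in a window -/
lemma sup_window {k : ℕ → ℕ} (hk : Tendsto (fun n : ℕ => (k n : ℝ) / Real.log (n : ℝ)) atTop (𝓝 0))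
    (C : ℝ) (hC : 0 < C) {η : ℝ} (hη : 0 < η) :
    ∀ᶠ m : ℕ in atTop, (((win C m).sup k + 1 : ℕ) : ℝ) ≤ η * Real.log (m : ℝ) := by
  have h1 : ∀ᶠ n : ℕ in atTop, (k n : ℝ) / Real.log (n : ℝ) < η / 4 :=
    hk.eventually (gt_mem_nhds (by positivity))
  have h2 := tendsto_log_add_len_div hC.le
  have h3 : ∀ᶠ m : ℕ in atTop, Real.log ((m : ℝ) + len C m) / Real.log (m : ℝ) < 2 :=
    h2.eventually (gt_mem_nhds (by norm_num))
  filter_upwards [eventually_forall_ge' h1, h3, tendsto_logn.eventually_ge_atTop (2 / η),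
    eventually_ge_atTop 3] with m h1 h3 h4 hm3
  have hm3' : (3 : ℝ) ≤ m := by exact_mod_cast hm3
  have hL : 0 < Real.log (m : ℝ) := Real.log_pos (by linarith)
  rw [div_lt_iff₀ hL] at h3
  have h5 : (((win C m).sup k : ℕ) : ℝ) ≤ η / 2 * Real.log (m : ℝ) := by
    have key : ∀ n ∈ win C m, (k n : ℝ) ≤ η / 2 * Real.log (m : ℝ) := by
      intro n hn
      obtain ⟨hn1, hn2⟩ := Finset.mem_Ioc.1 hn
      have hn1' : (m : ℝ) < n := by exact_mod_cast hn1
      have hn2' : (n : ℝ) ≤ m + len C m := by exact_mod_cast hn2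
      have hLn : 0 < Real.log (n : ℝ) := Real.log_pos (by linarith)
      have h6 := h1 n hn1.le
      rw [div_lt_iff₀ hLn] at h6
      have h7 : Real.log (n : ℝ) ≤ Real.log ((m : ℝ) + len C m) :=
        Real.log_le_log (by linarith) hn2'
      nlinarith
    have h8 : (win C m).sup k ≤ ⌊η / 2 * Real.log (m : ℝ)⌋₊ :=
      Finset.sup_le fun n hn => Nat.le_floor (key n hn)
    exact (Nat.cast_le.2 h8).trans (Nat.floor_le (by positivity))
  rw [div_le_iff₀ hη] at h4
  push_cast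
  nlinarith

variable {p : ℕ → ℝ}

/-- sum bounds -/
lemma GoodWeight.sum_bounds (hp : GoodWeight p) {l a b : ℝ} (hl : 0 < l) (ha : a < l) (hb : l < b) :
    ∀ᶠ m : ℕ in atTop, a * Real.log (m : ℝ) ≤ ∑ n ∈ supp p l m, p n ∧
      ∑ n ∈ supp p l m, p n ≤ b * Real.log (m : ℝ) := by
  have h1 := hp.loc.2 l hl
  filter_upwards [h1.eventually (lt_mem_nhds ha), h1.eventually (gt_mem_nhds hb),
    eventually_ge_atTop 3] with m h1 h2 hm3
  have hm3' : (3 : ℝ) ≤ m := by exact_mod_cast hm3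
  have hL : 0 < Real.log (m : ℝ) := Real.log_pos (by linarith)
  rw [sum_supp]
  rw [lt_div_iff₀ hL] at h1
  rw [div_lt_iff₀ hL] at h2
  exact ⟨h1.le, h2.le⟩

/-- the never empty law of a small block -/
theorem GoodWeight.small_law (hp : GoodWeight p) {k : ℕ → ℕ}
    (hk : Tendsto (fun n : ℕ => (k n : ℝ) / Real.log (n : ℝ)) atTop (𝓝 0)) {ε : ℝ} (hε : 0 < ε) :
    ∀ᶠ m : ℕ in atTop, ∃ w : Finset ℕ → ℝ, BLaw (supp p ε m) p ((win ε m).sup k + 1) w ∧
      w ∅ = 0 := by
  have h1 := hp.sum_bounds hε (a := ε / 2) (b := 2 * ε) (by linarith) (by linarith)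
  have h2 := hp.comp ε 1 hε one_pos
  have h3 := sup_window hk ε hε (η := ε / 192) (by positivity)
  have h4 : ∀ᶠ m : ℕ in atTop, p m < 1 / 2 := hp.loc.1.eventually (gt_mem_nhds (by norm_num))
  filter_upwards [h1, h2, h3, eventually_forall_ge' h4,
    tendsto_logn.eventually_ge_atTop (192 / ε), eventually_ge_atTop 3] with m h1 h2 h3 h4 h5 hm3
  obtain ⟨τ, hτ, hτ2⟩ := h2
  have hm3' : (3 : ℝ) ≤ m := by exact_mod_cast hm3
  have hL : 0 < Real.log (m : ℝ) := Real.log_pos (by linarith)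
  set S := supp p ε m with hS
  have hSw : ∀ n ∈ S, n ∈ win ε m ∧ p n ≠ 0 := fun n hn => by
    classical
    rw [hS, supp, Finset.mem_filter] at hn
    exact hn
  have hSτ : ∀ n ∈ S, τ ≤ p n ∧ p n ≤ (1 + 1) * τ := fun n hn => by
    rcases hτ2 n (hSw n hn).1 with h | h
    · exact absurd h (hSw n hn).2
    · exact h
  have hS2 : ∀ n ∈ S, p n < 1 / 2 := fun n hn =>
    h4 n (Finset.mem_Ioc.1 (hSw n hn).1).1.le
  have hpos : 0 < ∑ n ∈ S, p n := lt_of_lt_of_le (by positivity) h1.1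
  obtain ⟨n0, hn0⟩ : S.Nonempty := by
    by_contra h
    rw [Finset.not_nonempty_iff_eq_empty] at h
    rw [h] at hpos
    simp at hpos
  have hcard : ε / 4 * Real.log (m : ℝ) ≤ τ * S.card := by
    have : ∑ n ∈ S, p n ≤ 2 * (τ * S.card) := by
      calc ∑ n ∈ S, p n ≤ ∑ _n ∈ S, (1 + 1) * τ := Finset.sum_le_sum fun n hn => (hSτ n hn).2
        _ = 2 * (τ * S.card) := by rw [Finset.sum_const, nsmul_eq_mul]; ring
    linarith [h1.1]
  refine exists_never_empty S p _ τ hτ ((hSτ n0 hn0).1.trans (hS2 n0 hn0).le)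
    (fun n hn => (hSτ n hn).1) (fun n hn => (hS2 n hn).le.trans (by norm_num)) ?_
  refine le_trans ?_ hcard
  have h6 : 192 ≤ ε * Real.log (m : ℝ) := by
    rw [div_le_iff₀ hε] at h5
    linarith
  linarith

/-- the law of a big block -/
theorem GoodWeight.big_law (hp : GoodWeight p) {k : ℕ → ℕ}
    (hk : Tendsto (fun n : ℕ => (k n : ℝ) / Real.log (n : ℝ)) atTop (𝓝 0)) {l : ℝ} (hl : 0 < l) :
    ∀ᶠ m : ℕ in atTop, ∃ w : Finset ℕ → ℝ, BLaw (supp p l m) p ((win l m).sup k + 1) w ∧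
      (m : ℝ) ^ (-(1 / 2) : ℝ) ≤ w ∅ := by
  set ε : ℝ := min (1 / 4) (1 / (48 * (l + 1))) with hε
  have hε0 : 0 < ε := by positivity
  have hε4 : ε ≤ 1 / 4 := min_le_left _ _
  have hεl : ε * (48 * (l + 1)) ≤ 1 := by
    have := min_le_right (1 / 4 : ℝ) (1 / (48 * (l + 1)))
    rwa [← hε, le_div_iff₀ (by positivity)] at this
  set x : ℝ := 1 / (8 * (l + 1)) with hx
  have hx0 : 0 < x := by positivity
  have hx1 : x ≤ 1 := by
    rw [hx, div_le_one (by positivity)]
    linarith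
  have hxl : x * (l + 1) = 1 / 8 := by rw [hx]; field_simp
  set D : ℝ := Real.log 2 + 1 - Real.log x with hD
  have hD0 : 0 < D := by
    have h1 : Real.log x ≤ 0 := Real.log_nonpos hx0.le hx1
    have h2 : 0 < Real.log 2 := Real.log_pos (by norm_num)
    linarith
  have h1 := hp.sum_bounds hl (a := l / 2) (b := l + 1) (by linarith) (by linarith)
  have h2 := hp.comp l ε hl hε0
  have h3 := sup_window hk l hl (η := min (1 / (16 * D)) (l / 16)) (by positivity)
  have h4 : ∀ᶠ m : ℕ in atTop, p m < ε := hp.loc.1.eventually (gt_mem_nhds hε0)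
  have h5 : ∀ᶠ m : ℕ in atTop, Real.log ((l + 1) * Real.log (m : ℝ)) ≤
      1 / 32 * Real.log (m : ℝ) := by
    have hlo : (fun y : ℝ => Real.log y) =o[atTop] (id : ℝ → ℝ) := Real.isLittleO_log_id_atTop
    have h6 := hlo.bound (c := 1 / (32 * (l + 1))) (by positivity)
    have h7 : Tendsto (fun m : ℕ => (l + 1) * Real.log (m : ℝ)) atTop atTop :=
      tendsto_logn.const_mul_atTop (by positivity)
    filter_upwards [h7.eventually h6, h7.eventually_ge_atTop 1] with m hm hm1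
    rw [id, Real.norm_of_nonneg (Real.log_nonneg hm1), Real.norm_of_nonneg (by linarith)] at hm
    refine hm.trans (le_of_eq ?_)
    field_simp
  filter_upwards [h1, h2, h3, eventually_forall_ge' h4, h5,
    tendsto_logn.eventually_ge_atTop 96, tendsto_logn.eventually_ge_atTop (32 / l),
    eventually_ge_atTop 3] with m h1 h2 h3 h4 h5 h6 h7 hm3
  obtain ⟨τ, hτ, hτ2⟩ := h2
  have hm3' : (3 : ℝ) ≤ m := by exact_mod_cast hm3
  have hm0 : (0 : ℝ) < m := by linarith
  have hL : 0 < Real.log (m : ℝ) := Real.log_pos (by linarith)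
  set L := Real.log (m : ℝ) with hLdef
  set S := supp p l m with hS
  have hSw : ∀ n ∈ S, n ∈ win l m ∧ p n ≠ 0 := fun n hn => by
    classical
    rw [hS, supp, Finset.mem_filter] at hn
    exact hn
  have hSτ : ∀ n ∈ S, τ ≤ p n ∧ p n ≤ (1 + ε) * τ := fun n hn => by
    rcases hτ2 n (hSw n hn).1 with h | h
    · exact absurd h (hSw n hn).2
    · exact h
  have hS2 : ∀ n ∈ S, p n < ε := fun n hn => h4 n (Finset.mem_Ioc.1 (hSw n hn).1).1.le
  have hpos : 0 < ∑ n ∈ S, p n := lt_of_lt_of_le (by positivity) h1.1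
  obtain ⟨n0, hn0⟩ : S.Nonempty := by
    by_contra h
    rw [Finset.not_nonempty_iff_eq_empty] at h
    rw [h] at hpos
    simp at hpos
  have hνle : τ * S.card ≤ (l + 1) * L := by
    have : τ * S.card ≤ ∑ n ∈ S, p n := by
      calc τ * S.card = ∑ _n ∈ S, τ := by rw [Finset.sum_const, nsmul_eq_mul]; ring
        _ ≤ _ := Finset.sum_le_sum fun n hn => (hSτ n hn).1
    linarith [h1.2]
  have hνge : l / 4 * L ≤ τ * S.card := by
    have : ∑ n ∈ S, p n ≤ (1 + ε) * (τ * S.card) := by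
      calc ∑ n ∈ S, p n ≤ ∑ _n ∈ S, (1 + ε) * τ := Finset.sum_le_sum fun n hn => (hSτ n hn).2
        _ = (1 + ε) * (τ * S.card) := by rw [Finset.sum_const, nsmul_eq_mul]; ring
    have h8 : 0 ≤ τ * (S.card : ℝ) := by positivity
    have h9 : (1 + ε) * (τ * S.card) ≤ 2 * (τ * S.card) := by nlinarith
    linarith [h1.1]
  set K := (win l m).sup k + 1 with hK
  have hK1 : (K : ℝ) ≤ 1 / (16 * D) * L :=
    h3.trans (mul_le_mul_of_nonneg_right (min_le_left _ _) hL.le)
  have hK2 : (K : ℝ) ≤ l / 16 * L :=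
    h3.trans (mul_le_mul_of_nonneg_right (min_le_right _ _) hL.le)
  have hl7 : 32 ≤ l * L := by
    rw [div_le_iff₀ hl] at h7
    linarith
  refine exists_big_law S p K hτ (fun n hn => (hSτ n hn).1) (fun n hn => (hSτ n hn).2)
    (fun n hn => (hS2 n hn).le) ((hSτ n0 hn0).1.trans (hS2 n0 hn0).le) hε4 ?_ hx0
    (Real.rpow_pos_of_pos hm0 _) ?_
  · apply Nat.le_floor
    push_cast
    linarith
  · rw [Real.log_rpow hm0]
    have hν0 : 0 < τ * (S.card : ℝ) := lt_of_lt_of_le (by positivity) hνge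
    have e1 : (x + 6 * ε) * (τ * S.card) ≤ 1 / 4 * L := by
      have e11 : (x + 6 * ε) * (τ * S.card) ≤ (x + 6 * ε) * ((l + 1) * L) := by gcongr
      have e12 : (x + 6 * ε) * ((l + 1) * L) = (x * (l + 1)) * L + (ε * (48 * (l + 1))) / 8 * L := by
        ring
      rw [e12, hxl] at e11
      nlinarith
    have e2 : (K : ℝ) * D ≤ 1 / 16 * L := by
      calc (K : ℝ) * D ≤ 1 / (16 * D) * L * D := by gcongr
        _ = 1 / 16 * L := by field_simp
    have e3 : Real.log (τ * S.card) ≤ 1 / 32 * L :=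
      (Real.log_le_log hν0 hνle).trans h5
    linarith

end Pool.Agent.LibCramer
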